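import Pool.Agent.DRWC.Stop
import Pool.Agent.DRWC.Stay

/-!
# Real weights `a + γ θ`

The probability of `k` returns before the exit from `B` is at most `exp (γ ^ 2 S - γ Λ_k)`.
-/

namespace Pool.Agent.DRWC

open Pool.Agent.DRW

/-- The real weight of a path. -/
noncomputable def PR (a γ : ℝ) (θ : ℤ × ℤ → Fin 4 → ℝ) : List (Fin 4) → ℝ
  | [] => 1
  | i :: l => PR a γ θ l *
      ((a + γ * θ (pos l) i + ((tr l).count (pos l, i) : ℝ)) /
        (4 * a + ((src l).count (pos l) : ℝ)))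

private noncomputable def R {α : Type*} [BEq α] [LawfulBEq α] (f : α → ℝ) : List α → ℝ
  | [] => 1
  | b :: L => R f L * (f b + (L.count b : ℝ))

private theorem R_perm {α : Type*} [BEq α] [LawfulBEq α] (f : α → ℝ) {L L' : List α}
    (h : L.Perm L') : R f L = R f L' := by
  induction h with
  | nil => rfl
  | cons x h ih =>
    show R f _ * _ = R f _ * _
    rw [ih, h.count_eq]
  | swap x y l =>
    show R f l * (f x + (l.count x : ℝ)) * (f y + ((x :: l).count y : ℝ)) =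
      R f l * (f y + (l.count y : ℝ)) * (f x + ((y :: l).count x : ℝ))
    by_cases hxy : x = y
    · subst hxy; rfl
    · rw [List.count_cons_of_ne (fun h => hxy h), List.count_cons_of_ne (fun h => hxy h.symm)]
      ring
  | trans _ _ ih1 ih2 => exact ih1.trans ih2

private theorem R_map {α β : Type*} [BEq α] [LawfulBEq α] [BEq β] [LawfulBEq β] (g : α → β)
    (hg : Function.Injective g) (f : β → ℝ) (L : List α) :
    R f (L.map g) = R (fun a => f (g a)) L := by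
  induction L with
  | nil => rfl
  | cons b L ih =>
    show R f (L.map g) * (f (g b) + ((L.map g).count (g b) : ℝ)) = R _ L * _
    rw [ih, List.count_map_of_injective L g hg]

private theorem PR_eq (a γ : ℝ) (θ : ℤ × ℤ → Fin 4 → ℝ) (l : List (Fin 4)) :
    PR a γ θ l = R (fun e : (ℤ × ℤ) × Fin 4 => a + γ * θ e.1 e.2) (tr l) /
      R (fun _ : ℤ × ℤ => 4 * a) (src l) := by
  induction l with
  | nil =>
    show (1 : ℝ) = 1 / 1
    norm_num
  | cons i l ih =>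
    show PR a γ θ l * (_ / _) = (R _ (tr l) * _) / (R _ (src l) * _)
    rw [ih, div_mul_div_comm]
    rfl

/-- Reversal of a loop changes the sign of the flow. -/
theorem PR_rv (a γ : ℝ) {θ : ℤ × ℤ → Fin 4 → ℝ} (hθ : ∀ x i, θ (x + d i) (opp i) = -θ x i)
    {l : List (Fin 4)} (h : pos l = 0) : PR a γ θ (rv l) = PR a (-γ) θ l := by
  rw [PR_eq, PR_eq]
  have ht := trF_rv 0 l
  have h' : posF 0 l = 0 := h
  rw [h'] at ht
  rw [R_perm _ ht, R_map sg sg_inj, R_perm _ (src_rv h)]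
  congr 1
  congr 1
  funext e
  show a + γ * θ (e.1 + d e.2) (opp e.2) = a + -γ * θ e.1 e.2
  rw [hθ]
  ring

theorem ret_PR (a γ : ℝ) {θ : ℤ × ℤ → Fin 4 → ℝ} (hθ : ∀ x i, θ (x + d i) (opp i) = -θ x i)
    (k : ℕ) (B : Finset (ℤ × ℤ)) (m : ℕ) :
    ∑ l ∈ retK k B m, PR a (-γ) θ l = ∑ l ∈ retK k B m, PR a γ θ l := by
  classical
  have hmem : ∀ l, l ∈ retK k B m → rv l ∈ retK k B m := by
    intro l hl
    rw [retK, Finset.mem_filter, mem_words] at hl ⊢
    exact ⟨by rw [rv_length]; exact hl.1, rv_ret hl.2⟩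
  refine Finset.sum_nbij' rv rv hmem hmem (fun l _ => rv_rv l) (fun l _ => rv_rv l) ?_
  intro l hl
  rw [retK, Finset.mem_filter] at hl
  exact (PR_rv a γ hθ hl.2.1).symm

theorem PR_zero (a : ℝ) (θ : ℤ × ℤ → Fin 4 → ℝ) (l : List (Fin 4)) :
    PR a 0 θ l = P (wt a 0) l := by
  induction l with
  | nil => rfl
  | cons i l ih =>
    rw [PR, P, wt_zero, W_zero, ih, zero_mul, add_zero]

theorem PR_nonneg {a γ : ℝ} (ha : 0 < a) {θ : ℤ × ℤ → Fin 4 → ℝ} {B : Finset (ℤ × ℤ)}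
    (hγ : ∀ x ∈ B, ∀ i, |γ * θ x i| ≤ a) : ∀ l : List (Fin 4), (∀ v ∈ src l, v ∈ B) →
    0 ≤ PR a γ θ l
  | [], _ => zero_le_one
  | i :: l, hl => by
    have hl' : ∀ v ∈ src l, v ∈ B := fun v hv => hl v (List.mem_cons_of_mem _ hv)
    have hp : pos l ∈ B := hl _ List.mem_cons_self
    have ih := PR_nonneg ha hγ l hl'
    have h1 := (abs_le.mp (hγ _ hp i)).1
    have hc : (0 : ℝ) ≤ ((tr l).count (pos l, i) : ℝ) := Nat.cast_nonneg _
    have hm : (0 : ℝ) ≤ ((src l).count (pos l) : ℝ) := Nat.cast_nonneg _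
    rw [PR]
    refine mul_nonneg ih (div_nonneg (by linarith) (by linarith))

theorem sq_step {A t : ℝ} (hA : 0 < A) (ht : |t| ≤ 2 / 3 * A) :
    A ^ 2 ≤ (A + t) * (A - t) * Real.exp (2 * (t ^ 2 / A ^ 2)) := by
  set s : ℝ := t ^ 2 / A ^ 2 with hs
  have hs0 : 0 ≤ s := by positivity
  have hs1 : s ≤ 4 / 9 := by
    rw [hs, div_le_iff₀ (by positivity), ← sq_abs t]
    have := pow_le_pow_left₀ (abs_nonneg t) ht 2
    nlinarith
  have h1 : (A + t) * (A - t) = A ^ 2 * (1 - s) := by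
    rw [hs]
    field_simp
    ring
  have h2 := Real.add_one_le_exp (2 * s)
  have h3 : 1 ≤ (1 - s) * Real.exp (2 * s) := by
    have h4 : (1 - s) * (2 * s + 1) ≤ (1 - s) * Real.exp (2 * s) :=
      mul_le_mul_of_nonneg_left h2 (by linarith)
    nlinarith
  rw [h1, mul_assoc]
  exact le_mul_of_one_le_right (by positivity) h3

theorem sq_compare {a γ : ℝ} (ha : 0 < a) {θ : ℤ × ℤ → Fin 4 → ℝ} {B : Finset (ℤ × ℤ)}
    (hγ : ∀ x ∈ B, ∀ i, |γ * θ x i| ≤ 2 / 3 * a) : ∀ l : List (Fin 4), (∀ v ∈ src l, v ∈ B) →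
    P (wt a 0) l ^ 2 ≤ PR a γ θ l * PR a (-γ) θ l * Real.exp (2 * (γ ^ 2 * qd a θ l))
  | [], _ => by simp [P, PR, qd]
  | i :: l, hl => by
    have hl' : ∀ v ∈ src l, v ∈ B := fun v hv => hl v (List.mem_cons_of_mem _ hv)
    have hp : pos l ∈ B := hl _ List.mem_cons_self
    have ih := sq_compare ha hγ l hl'
    have hc : (0 : ℝ) ≤ ((tr l).count (pos l, i) : ℝ) := Nat.cast_nonneg _
    have hm : (0 : ℝ) ≤ ((src l).count (pos l) : ℝ) := Nat.cast_nonneg _
    have hA : 0 < a + ((tr l).count (pos l, i) : ℝ) := by linarith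
    have hD : 0 < 4 * a + ((src l).count (pos l) : ℝ) := by linarith
    have h1 := hγ _ hp i
    have h2 := sq_step hA (t := γ * θ (pos l) i) (by linarith)
    have hP := P_nonneg ha l
    have e3 : P (wt a 0) (i :: l) = P (wt a 0) l *
        ((a + ((tr l).count (pos l, i) : ℝ)) / (4 * a + ((src l).count (pos l) : ℝ))) := by
      rw [P, wt_zero, W_zero]
    have e4 : Real.exp (2 * (γ ^ 2 * qd a θ (i :: l))) = Real.exp (2 * (γ ^ 2 * qd a θ l)) *
        Real.exp (2 * ((γ * θ (pos l) i) ^ 2 / (a + ((tr l).count (pos l, i) : ℝ)) ^ 2)) := by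
      rw [← Real.exp_add]
      congr 1
      rw [qd]
      ring
    have e5 : PR a γ θ (i :: l) = PR a γ θ l *
      ((a + γ * θ (pos l) i + ((tr l).count (pos l, i) : ℝ)) /
        (4 * a + ((src l).count (pos l) : ℝ))) := rfl
    have e6 : PR a (-γ) θ (i :: l) = PR a (-γ) θ l *
      ((a + -γ * θ (pos l) i + ((tr l).count (pos l, i) : ℝ)) /
        (4 * a + ((src l).count (pos l) : ℝ))) := rfl
    rw [e3, e4, e5, e6]
    set A : ℝ := a + ((tr l).count (pos l, i) : ℝ) with hA'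
    set D : ℝ := 4 * a + ((src l).count (pos l) : ℝ) with hD'
    set t : ℝ := γ * θ (pos l) i with ht
    have e7 : a + t + ((tr l).count (pos l, i) : ℝ) = A + t := by rw [hA']; ring
    have e8 : a + -γ * θ (pos l) i + ((tr l).count (pos l, i) : ℝ) = A - t := by
      rw [hA', ht]; ring
    rw [e7, e8]
    have hR : 0 ≤ PR a γ θ l * PR a (-γ) θ l * Real.exp (2 * (γ ^ 2 * qd a θ l)) :=
      (sq_nonneg _).trans ih
    calc (P (wt a 0) l * (A / D)) ^ 2 = P (wt a 0) l ^ 2 * (A ^ 2 / D ^ 2) := by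
          rw [mul_pow, div_pow]
      _ ≤ (PR a γ θ l * PR a (-γ) θ l * Real.exp (2 * (γ ^ 2 * qd a θ l))) *
          ((A + t) * (A - t) * Real.exp (2 * (t ^ 2 / A ^ 2)) / D ^ 2) := by
          refine mul_le_mul ih ?_ (by positivity) hR
          exact div_le_div_of_nonneg_right h2 (by positivity)
      _ = _ := by
          field_simp

/-- The factor of the origin, real version. -/
noncomputable def zr (a γ : ℝ) (n : ℕ) : ℝ :=
  ∏ j ∈ Finset.range n, (1 + γ / (4 * a + (j : ℝ)))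

theorem zr_succ (a γ : ℝ) (n : ℕ) :
    zr a γ (n + 1) = zr a γ n * (1 + γ / (4 * a + (n : ℝ))) := by
  unfold zr
  rw [Finset.prod_range_succ]

theorem zr_factor {a γ : ℝ} (ha : 0 < a) (hγ : -(4 * a) < γ) (n : ℕ) :
    0 < 1 + γ / (4 * a + (n : ℝ)) := by
  have hn : (0 : ℝ) ≤ n := Nat.cast_nonneg n
  have hD : 0 < 4 * a + (n : ℝ) := by positivity
  have : 1 + γ / (4 * a + (n : ℝ)) = (4 * a + n + γ) / (4 * a + (n : ℝ)) := by field_simp
  rw [this]
  exact div_pos (by linarith) hD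

theorem zr_pos {a γ : ℝ} (ha : 0 < a) (hγ : -(4 * a) < γ) (n : ℕ) : 0 < zr a γ n :=
  Finset.prod_pos fun j _ => zr_factor ha hγ j

/-- The normalised path weight, real version. -/
noncomputable def MR (a γ : ℝ) (θ : ℤ × ℤ → Fin 4 → ℝ) (l : List (Fin 4)) : ℝ :=
  PR a γ θ l / zr a γ ((src l).count 0)

theorem sum_MR {a γ : ℝ} (ha : 0 < a) (hγ : -(4 * a) < γ) {θ : ℤ × ℤ → Fin 4 → ℝ}
    {l : List (Fin 4)} (hdiv : ∑ i, θ (pos l) i = if pos l = 0 then 1 else 0) :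
    ∑ i, MR a γ θ (i :: l) = MR a γ θ l := by
  set m : ℕ := (src l).count (pos l) with hm
  have hm0 : (0 : ℝ) ≤ (m : ℝ) := Nat.cast_nonneg _
  have hD : 4 * a + (m : ℝ) ≠ 0 := by linarith
  have h1 : ∑ i, PR a γ θ (i :: l) = PR a γ θ l *
      (1 + γ * (if pos l = 0 then 1 else 0) / (4 * a + (m : ℝ))) := by
    have h2 : ∀ i, PR a γ θ (i :: l) = PR a γ θ l *
        (a + γ * θ (pos l) i + ((tr l).count (pos l, i) : ℝ)) / (4 * a + (m : ℝ)) := fun i => by
      rw [mul_div_assoc]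
      rfl
    simp only [h2]
    rw [← Finset.sum_div, ← Finset.mul_sum, Finset.sum_add_distrib, Finset.sum_add_distrib,
      ← Finset.mul_sum, hdiv]
    have h3 : ∑ i, ((tr l).count (pos l, i) : ℝ) = (m : ℝ) := by
      have := sum_count (pos l) (tr l)
      exact_mod_cast this
    have h5 : ∑ _i : Fin 4, a = 4 * a := by
      simp
    rw [h3, h5, mul_div_assoc]
    congr 1
    field_simp
    ring
  unfold MR
  have hsrc : ∀ i, src (i :: l) = pos l :: src l := fun i => rfl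
  simp only [hsrc]
  rw [← Finset.sum_div, h1]
  by_cases hp : pos l = 0
  · rw [if_pos hp, mul_one]
    have hm' : m = (src l).count 0 := by rw [hm, hp]
    have h6 : (pos l :: src l).count 0 = m + 1 := by
      rw [hp, List.count_cons_self, ← hm']
    rw [h6, ← hm', zr_succ]
    have h7 := (zr_factor ha hγ m).ne'
    rw [mul_div_mul_right _ _ h7]
  · rw [if_neg hp, List.count_cons_of_ne hp]
    simp

/-- The sum of the inverse total weights of the origin. -/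
noncomputable def lam (a : ℝ) (k : ℕ) : ℝ := ∑ j ∈ Finset.range k, 1 / (4 * a + (j : ℝ))

theorem lam_pos {a : ℝ} (ha : 0 < a) {k : ℕ} (hk : 1 ≤ k) : 0 < lam a k := by
  unfold lam
  refine Finset.sum_pos (fun j _ => by positivity) ⟨0, Finset.mem_range.mpr (by omega)⟩

theorem mass_stepR {a γ : ℝ} (ha : 0 < a) (hγ : -(4 * a) < γ) {θ : ℤ × ℤ → Fin 4 → ℝ}
    {B : Finset (ℤ × ℤ)} (h0 : (0 : ℤ × ℤ) ∈ B)
    (hdiv : ∀ x ∈ B, ∑ i, θ x i = if x = 0 then 1 else 0) (k n : ℕ) :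
    (∑ l ∈ retK k B (n + 1), MR a γ θ l) + (∑ l ∈ exitK k B (n + 1), MR a γ θ l) +
      ∑ l ∈ aliveK k B (n + 1), MR a γ θ l = ∑ l ∈ aliveK k B n, MR a γ θ l := by
  classical
  unfold retK exitK aliveK
  rw [Finset.sum_filter, Finset.sum_filter, Finset.sum_filter, Finset.sum_filter, sum_words,
    sum_words, sum_words, ← Finset.sum_add_distrib, ← Finset.sum_add_distrib]
  refine Finset.sum_congr rfl fun l _ => ?_
  rw [← Finset.sum_add_distrib, ← Finset.sum_add_distrib]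
  have h1 : ∀ i, (if RetK k B (i :: l) then MR a γ θ (i :: l) else 0) +
      (if ExitK k B (i :: l) then MR a γ θ (i :: l) else 0) +
      (if AliveK k B (i :: l) then MR a γ θ (i :: l) else 0) =
        if AliveK k B l then MR a γ θ (i :: l) else 0 :=
    fun i => cases_iff h0 k i l _
  simp only [h1]
  by_cases h : AliveK k B l
  · simp only [if_pos h]
    exact sum_MR ha hγ (hdiv _ (h.2 _ List.mem_cons_self))
  · simp only [if_neg h, Finset.sum_const_zero]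

theorem retK_zero {k : ℕ} (hk : 1 ≤ k) (B : Finset (ℤ × ℤ)) : retK k B 0 = ∅ := by
  classical
  unfold retK words
  rw [Finset.filter_eq_empty_iff]
  intro l hl
  rw [Finset.mem_singleton] at hl
  rw [hl]
  intro h
  have h2 : (src []).count (0 : ℤ × ℤ) = 0 := rfl
  have := h.2.1
  omega

theorem exitK_zero (k : ℕ) {B : Finset (ℤ × ℤ)} (h0 : (0 : ℤ × ℤ) ∈ B) : exitK k B 0 = ∅ := by
  classical
  unfold exitK words
  rw [Finset.filter_eq_empty_iff]
  intro l hl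
  rw [Finset.mem_singleton] at hl
  rw [hl]
  intro h
  exact h.1 h0

theorem aliveK_zero {k : ℕ} (hk : 1 ≤ k) {B : Finset (ℤ × ℤ)} (h0 : (0 : ℤ × ℤ) ∈ B) :
    aliveK k B 0 = {[]} := by
  classical
  unfold aliveK words
  rw [Finset.filter_eq_self]
  intro l hl
  rw [Finset.mem_singleton] at hl
  rw [hl]
  refine ⟨?_, ?_⟩
  · have : (pos [] :: src []).count (0 : ℤ × ℤ) = 1 := by decide
    omega
  · intro v hv
    have hv' : v ∈ [(0 : ℤ × ℤ)] := hv
    rw [List.mem_singleton] at hv'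
    rw [hv']
    exact h0

theorem mass_totalR {a γ : ℝ} (ha : 0 < a) (hγ : -(4 * a) < γ) {θ : ℤ × ℤ → Fin 4 → ℝ}
    {B : Finset (ℤ × ℤ)} (h0 : (0 : ℤ × ℤ) ∈ B)
    (hdiv : ∀ x ∈ B, ∑ i, θ x i = if x = 0 then 1 else 0) {k : ℕ} (hk : 1 ≤ k) (n : ℕ) :
    (∑ m ∈ Finset.range (n + 1), ∑ l ∈ retK k B m, MR a γ θ l) +
      (∑ m ∈ Finset.range (n + 1), ∑ l ∈ exitK k B m, MR a γ θ l) +
      ∑ l ∈ aliveK k B n, MR a γ θ l = 1 := by
  induction n with
  | zero =>
    rw [zero_add, Finset.sum_range_one, Finset.sum_range_one, retK_zero hk, exitK_zero k h0,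
      aliveK_zero hk h0, Finset.sum_empty, Finset.sum_singleton, zero_add, zero_add]
    unfold MR
    have h2 : (src []).count (0 : ℤ × ℤ) = 0 := rfl
    rw [h2]
    simp [PR, zr]
  | succ n ih =>
    rw [Finset.sum_range_succ _ (n + 1), Finset.sum_range_succ _ (n + 1)]
    have h1 := mass_stepR ha hγ h0 hdiv k n
    linarith

theorem zr_le {a γ : ℝ} (ha : 0 < a) (hγ : γ < 4 * a) (k : ℕ) :
    zr a (-γ) k ≤ Real.exp (-(γ * lam a k)) := by
  unfold zr lam
  rw [Finset.mul_sum, ← Finset.sum_neg_distrib, Real.exp_sum]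
  refine Finset.prod_le_prod (fun j _ => (zr_factor ha (by linarith) j).le) fun j _ => ?_
  have h := Real.add_one_le_exp (-(γ * (1 / (4 * a + (j : ℝ)))))
  refine le_trans (le_of_eq ?_) h
  ring

/-- The probability of `k` returns before the exit from `B`. -/
theorem ret_le {a γ : ℝ} (ha : 0 < a) {θ : ℤ × ℤ → Fin 4 → ℝ}
    {B : Finset (ℤ × ℤ)} (h0 : (0 : ℤ × ℤ) ∈ B) (hθ : ∀ x i, θ (x + d i) (opp i) = -θ x i)
    (hdiv : ∀ x ∈ B, ∑ i, θ x i = if x = 0 then 1 else 0)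
    (hγ : ∀ x ∈ B, ∀ i, |γ * θ x i| ≤ 2 / 3 * a) {k : ℕ} (hk : 1 ≤ k) (n : ℕ) :
    ∑ m ∈ Finset.range (n + 1), ∑ l ∈ retK k B m, P (wt a 0) l ≤
      Real.exp (γ ^ 2 * ((1 / a ^ 2 + 1 / a) * ∑ x ∈ B, ∑ i, θ x i ^ 2) - γ * lam a k) := by
  classical
  set S : ℝ := (1 / a ^ 2 + 1 / a) * ∑ x ∈ B, ∑ i, θ x i ^ 2 with hS
  have hγ4 : γ < 4 * a := by
    have h1 := hdiv 0 h0
    rw [if_pos rfl] at h1
    have h2 : γ = ∑ i, γ * θ 0 i := by rw [← Finset.mul_sum, h1, mul_one]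
    have h3 : ∑ i, γ * θ 0 i ≤ ∑ _i : Fin 4, 2 / 3 * a :=
      Finset.sum_le_sum fun i _ => (abs_le.mp (hγ 0 h0 i)).2
    rw [← h2] at h3
    simp at h3
    linarith
  have hle : ∀ x ∈ B, ∀ i, |γ * θ x i| ≤ a := fun x hx i => (hγ x hx i).trans (by linarith)
  have hle' : ∀ x ∈ B, ∀ i, |-γ * θ x i| ≤ a := fun x hx i => by
    rw [neg_mul, abs_neg]
    exact hle x hx i
  have hpath : ∀ m, ∀ l ∈ retK k B m, P (wt a 0) l ≤
      Real.exp (γ ^ 2 * S) * ((PR a γ θ l + PR a (-γ) θ l) / 2) := by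
    intro m l hl
    rw [retK, Finset.mem_filter] at hl
    have h1 := sq_compare ha hγ l hl.2.2.2
    have h2 := PR_nonneg ha hle l hl.2.2.2
    have h3 := PR_nonneg ha hle' l hl.2.2.2
    have h4 := qd_le ha (θ := θ) hl.2.2.2
    have h5 : Real.exp (2 * (γ ^ 2 * qd a θ l)) ≤ Real.exp (γ ^ 2 * S) ^ 2 := by
      rw [← Real.exp_nat_mul]
      apply Real.exp_le_exp.mpr
      have := mul_le_mul_of_nonneg_left h4 (sq_nonneg γ)
      push_cast
      linarith
    have h6 : P (wt a 0) l ^ 2 ≤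
        (Real.exp (γ ^ 2 * S) * ((PR a γ θ l + PR a (-γ) θ l) / 2)) ^ 2 := by
      refine h1.trans ((mul_le_mul_of_nonneg_left h5 (mul_nonneg h2 h3)).trans ?_)
      rw [mul_pow, mul_comm]
      refine mul_le_mul_of_nonneg_left ?_ (by positivity)
      nlinarith [sq_nonneg (PR a γ θ l - PR a (-γ) θ l)]
    exact le_of_sq_le_sq h6 (by positivity)
  have hT : ∑ m ∈ Finset.range (n + 1), ∑ l ∈ retK k B m, PR a (-γ) θ l ≤ zr a (-γ) k := by
    have h1 := mass_totalR ha (γ := -γ) (by linarith) h0 hdiv hk n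
    have h2 : ∀ l, (∀ v ∈ src l, v ∈ B) → 0 ≤ MR a (-γ) θ l := fun l hl =>
      div_nonneg (PR_nonneg ha hle' l hl) (zr_pos ha (by linarith) _).le
    have h3 : 0 ≤ ∑ m ∈ Finset.range (n + 1), ∑ l ∈ exitK k B m, MR a (-γ) θ l := by
      refine Finset.sum_nonneg fun m _ => Finset.sum_nonneg fun l hl => ?_
      rw [exitK, Finset.mem_filter] at hl
      exact h2 l hl.2.2.2
    have h4 : 0 ≤ ∑ l ∈ aliveK k B n, MR a (-γ) θ l := by
      refine Finset.sum_nonneg fun l hl => ?_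
      rw [aliveK, Finset.mem_filter] at hl
      exact h2 l fun v hv => hl.2.2 v (List.mem_cons_of_mem _ hv)
    have hz := zr_pos (γ := -γ) ha (by linarith) k
    have h5 : ∑ m ∈ Finset.range (n + 1), ∑ l ∈ retK k B m, PR a (-γ) θ l =
        zr a (-γ) k * ∑ m ∈ Finset.range (n + 1), ∑ l ∈ retK k B m, MR a (-γ) θ l := by
      rw [Finset.mul_sum]
      refine Finset.sum_congr rfl fun m _ => ?_
      rw [Finset.mul_sum]
      refine Finset.sum_congr rfl fun l hl => ?_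
      rw [retK, Finset.mem_filter] at hl
      unfold MR
      rw [hl.2.2.1]
      field_simp
    rw [h5]
    exact mul_le_of_le_one_right hz.le (by linarith)
  have hsum : ∑ m ∈ Finset.range (n + 1), ∑ l ∈ retK k B m, P (wt a 0) l ≤
      Real.exp (γ ^ 2 * S) * ∑ m ∈ Finset.range (n + 1), ∑ l ∈ retK k B m, PR a (-γ) θ l := by
    rw [Finset.mul_sum]
    refine Finset.sum_le_sum fun m _ => ?_
    refine (Finset.sum_le_sum (hpath m)).trans (le_of_eq ?_)
    rw [← Finset.mul_sum, ← Finset.sum_div, Finset.sum_add_distrib, ret_PR a γ hθ k B m]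
    ring
  refine hsum.trans ?_
  rw [sub_eq_add_neg, Real.exp_add]
  exact mul_le_mul_of_nonneg_left (hT.trans (zr_le ha hγ4 k)) (Real.exp_pos _).le

/-- The exit probabilities up to a large time. -/
theorem exit_ge {a γ : ℝ} (ha : 0 < a) {θ : ℤ × ℤ → Fin 4 → ℝ}
    {B : Finset (ℤ × ℤ)} (h0 : (0 : ℤ × ℤ) ∈ B) (hθ : ∀ x i, θ (x + d i) (opp i) = -θ x i)
    (hdiv : ∀ x ∈ B, ∑ i, θ x i = if x = 0 then 1 else 0)
    (hγ : ∀ x ∈ B, ∀ i, |γ * θ x i| ≤ 2 / 3 * a) {k : ℕ} (hk : 1 ≤ k) {ε : ℝ} (hε : 0 < ε) :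
    ∃ n, 1 - Real.exp (γ ^ 2 * ((1 / a ^ 2 + 1 / a) * ∑ x ∈ B, ∑ i, θ x i ^ 2) -
      γ * lam a k) - ε ≤ ∑ m ∈ Finset.range (n + 1), ∑ l ∈ exitK k B m, P (wt a 0) l := by
  classical
  have hw : ∀ x i, 0 < wt a 0 x i := fun x i => by rw [wt_zero]; exact ha
  obtain ⟨n, hn⟩ := stay_small hw B hε
  refine ⟨n, ?_⟩
  have h1 := mass_totalR (γ := 0) ha (by linarith) h0 hdiv hk n
  have h2 : ∀ l, MR a 0 θ l = P (wt a 0) l := fun l => by
    unfold MR
    rw [PR_zero]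
    simp [zr]
  simp only [h2] at h1
  have h3 := ret_le ha h0 hθ hdiv hγ hk n
  have h4 : ∑ l ∈ aliveK k B n, P (wt a 0) l ≤ ε := by
    refine (Finset.sum_le_sum_of_subset_of_nonneg ?_ fun l _ _ => P_nonneg ha l).trans hn
    intro l hl
    rw [aliveK, Finset.mem_filter] at hl
    rw [Finset.mem_filter]
    exact ⟨hl.1, fun v hv => hl.2.2 v (List.mem_cons_of_mem _ hv)⟩
  linarith

end Pool.Agent.DRWC
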