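import Pool.Agent.DRWC.Main
import Pool.Agent.DRWC.Real

/-!
# Choice of the parameter
-/

namespace Pool.Agent.DRWC

open Pool.Agent.DRW

theorem arctan_le_self' {x : ℝ} (hx : 0 ≤ x) : Real.arctan x ≤ x := by
  have h := Real.le_tan (Real.arctan_nonneg.mpr hx) (Real.arctan_lt_pi_div_two x)
  rwa [Real.tan_arctan] at h

theorem mul_le_arctan {x c : ℝ} (hx : 0 ≤ x) (h : c ^ 2 * (1 + x ^ 2) ≤ 1) :
    c * x ≤ Real.arctan x := by
  have h1 : x / √(1 + x ^ 2) ≤ Real.arctan x := by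
    rw [← Real.sin_arctan]
    exact Real.sin_le (Real.arctan_nonneg.mpr hx)
  have hs : 0 < √(1 + x ^ 2) := Real.sqrt_pos.mpr (by positivity)
  have h2 : c * √(1 + x ^ 2) ≤ 1 := by
    have h3 : (c * √(1 + x ^ 2)) ^ 2 ≤ 1 ^ 2 := by
      rw [mul_pow, Real.sq_sqrt (by positivity)]
      simpa using h
    exact le_of_sq_le_sq h3 zero_le_one
  refine le_trans ?_ h1
  rw [le_div_iff₀ hs]
  calc c * x * √(1 + x ^ 2) = x * (c * √(1 + x ^ 2)) := by ring
    _ ≤ x * 1 := mul_le_mul_of_nonneg_left h2 hx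
    _ = x := mul_one x

theorem ph_le {a ξ : ℝ} (ha : 0 < a) (hξ : 0 ≤ ξ) (k : ℕ) : ph a ξ k ≤ ξ * lam a k := by
  unfold ph lam
  rw [Finset.mul_sum]
  refine Finset.sum_le_sum fun j _ => ?_
  rw [mul_one_div]
  exact arctan_le_self' (by positivity)

theorem le_ph {a ξ c t : ℝ} (ha : 0 < a) (hξ : 0 ≤ ξ)
    (hct : c ^ 2 * (1 + t ^ 2) ≤ 1) (hξt : ξ ≤ 4 * a * t) (k : ℕ) :
    c * (ξ * lam a k) ≤ ph a ξ k := by
  unfold ph lam
  rw [Finset.mul_sum, Finset.mul_sum]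
  refine Finset.sum_le_sum fun j _ => ?_
  rw [mul_one_div]
  have hj : (0 : ℝ) ≤ j := Nat.cast_nonneg j
  have hD : 0 < 4 * a + (j : ℝ) := by positivity
  have hx : 0 ≤ ξ / (4 * a + (j : ℝ)) := by positivity
  have ht : 0 ≤ t := by
    by_contra h
    push Not at h
    have : 4 * a * t < 0 := mul_neg_of_pos_of_neg (by positivity) h
    linarith
  have hxt : ξ / (4 * a + (j : ℝ)) ≤ t := by
    rw [div_le_iff₀ hD]
    nlinarith [mul_nonneg ht hj]
  refine mul_le_arctan hx (le_trans ?_ hct)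
  have : (ξ / (4 * a + (j : ℝ))) ^ 2 ≤ t ^ 2 := pow_le_pow_left₀ hx hxt 2
  exact mul_le_mul_of_nonneg_left (by linarith) (sq_nonneg c)

theorem ana1 {a S p : ℝ} (ha : 0 < a) {k : ℕ} (hk : 1 ≤ k) (hS : 1 / (4 * a ^ 2) ≤ S)
    (hp : ∀ ξ : ℝ, Real.sin (ph a ξ k) * Real.exp (-(ξ ^ 2 * S / 2)) ≤ p) :
    2 / 5 * min 1 (lam a k / √S) ≤ p := by
  have hL := lam_pos ha hk
  have hS0 : 0 < S := lt_of_lt_of_le (by positivity) hS
  have hsS : 0 < √S := Real.sqrt_pos.mpr hS0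
  set ξ : ℝ := min (1 / √S) (1 / lam a k) with hξ
  have hξ0 : 0 < ξ := lt_min (by positivity) (by positivity)
  have h1 : ξ ≤ 1 / √S := min_le_left _ _
  have h2 : ξ ≤ 1 / lam a k := min_le_right _ _
  have h3 : 1 / (2 * a) ≤ √S := by
    rw [show 1 / (2 * a) = √((1 / (2 * a)) ^ 2) from (Real.sqrt_sq (by positivity)).symm]
    apply Real.sqrt_le_sqrt
    calc (1 / (2 * a)) ^ 2 = 1 / (4 * a ^ 2) := by field_simp; norm_num
      _ ≤ S := hS
  have h4 : ξ ≤ 4 * a * (1 / 2) := by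
    refine h1.trans ?_
    rw [div_le_iff₀ hsS]
    calc (1 : ℝ) = 4 * a * (1 / 2) * (1 / (2 * a)) := by field_simp; norm_num
      _ ≤ 4 * a * (1 / 2) * √S := mul_le_mul_of_nonneg_left h3 (by positivity)
  have h5 : 8 / 9 * (ξ * lam a k) ≤ ph a ξ k :=
    le_ph ha hξ0.le (by norm_num) h4 k
  have h6 : ph a ξ k ≤ ξ * lam a k := ph_le ha hξ0.le k
  have h7 : ξ * lam a k ≤ 1 := by
    calc ξ * lam a k ≤ 1 / lam a k * lam a k := mul_le_mul_of_nonneg_right h2 hL.le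
      _ = 1 := by field_simp
  have h8 : 0 < ξ * lam a k := by positivity
  have h9 : 0 < ph a ξ k := by linarith
  have h10 : ph a ξ k ≤ 1 := h6.trans h7
  have h11 := Real.sin_gt_sub_cube h9
  have h12 : 5 / 6 * ph a ξ k ≤ Real.sin (ph a ξ k) := by
    have h13 : ph a ξ k ^ 3 ≤ ph a ξ k := by
      have h14 : ph a ξ k ^ 2 ≤ 1 := by nlinarith
      calc ph a ξ k ^ 3 = ph a ξ k * ph a ξ k ^ 2 := by ring
        _ ≤ ph a ξ k * 1 := mul_le_mul_of_nonneg_left h14 h9.le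
        _ = ph a ξ k := mul_one _
    linarith
  have h15 : ξ ^ 2 * S ≤ 1 := by
    have h16 : ξ ^ 2 ≤ (1 / √S) ^ 2 := pow_le_pow_left₀ hξ0.le h1 2
    calc ξ ^ 2 * S ≤ (1 / √S) ^ 2 * S := mul_le_mul_of_nonneg_right h16 hS0.le
      _ = 1 := by
        rw [div_pow, Real.sq_sqrt hS0.le]
        field_simp
  have h17 : 3 / 5 ≤ Real.exp (-(ξ ^ 2 * S / 2)) := by
    have h18 : Real.exp (-(1 / 2)) ≤ Real.exp (-(ξ ^ 2 * S / 2)) :=
      Real.exp_le_exp.mpr (by linarith)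
    refine le_trans ?_ h18
    rw [Real.exp_neg, le_inv_comm₀ (by norm_num) (Real.exp_pos _)]
    have h19 : Real.exp (1 / 2) ^ 2 = Real.exp 1 := by
      rw [← Real.exp_nat_mul]
      norm_num
    have h20 := Real.exp_one_lt_d9
    refine le_of_sq_le_sq ?_ (by norm_num)
    rw [h19]
    norm_num
    linarith
  have h21 := hp ξ
  have h22 : min 1 (lam a k / √S) = ξ * lam a k := by
    rw [hξ, min_mul_of_nonneg _ _ hL.le, min_comm]
    congr 1
    · ring
    · field_simp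
  rw [h22]
  refine le_trans ?_ h21
  calc 2 / 5 * (ξ * lam a k) ≤ (5 / 6 * (8 / 9 * (ξ * lam a k))) * (3 / 5) := by linarith
    _ ≤ Real.sin (ph a ξ k) * Real.exp (-(ξ ^ 2 * S / 2)) := by
      refine mul_le_mul ?_ h17 (by norm_num) (by linarith)
      linarith

theorem ph_continuous (a : ℝ) (k : ℕ) : Continuous fun ξ : ℝ => ph a ξ k := by
  unfold ph
  refine continuous_finsetSum _ fun j _ => ?_
  exact Real.continuous_arctan.comp (continuous_id.div_const _)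

theorem ana2 {a S p : ℝ} (ha : 0 < a) {k : ℕ} (hk : 1 ≤ k) (hS : 1 / (4 * a ^ 2) ≤ S)
    (hp : ∀ ξ : ℝ, Real.sin (ph a ξ k) * Real.exp (-(ξ ^ 2 * S / 2)) ≤ p) :
    1 - 5 / 2 * (S / lam a k ^ 2) ≤ p := by
  have hL := lam_pos ha hk
  have hS0 : 0 < S := lt_of_lt_of_le (by positivity) hS
  have hp0 : 0 ≤ p := by
    have h := hp 0
    have h1 : ph a 0 k = 0 := by simp [ph]
    rw [h1] at h
    simpa using h
  rcases le_or_gt (223 / 100 / lam a k) (4 * a) with h | h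
  · have h1 : (705 / 1000 : ℝ) * (223 / 100 / lam a k * lam a k) ≤ ph a (223 / 100 / lam a k) k :=
      le_ph (t := 1) ha (by positivity) (by norm_num) (by linarith) k
    have h2 : (223 / 100 / lam a k * lam a k : ℝ) = 223 / 100 := by field_simp
    rw [h2] at h1
    have hpi := Real.pi_lt_d4
    have h3 : Real.pi / 2 ≤ ph a (223 / 100 / lam a k) k := by linarith
    have h4 : ph a 0 k ≤ Real.pi / 2 := by
      have h1 : ph a 0 k = 0 := by simp [ph]
      rw [h1]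
      positivity
    obtain ⟨ξ, ⟨hξ0, hξ1⟩, hξ⟩ := intermediate_value_Icc (by positivity :
      (0 : ℝ) ≤ 223 / 100 / lam a k) (ph_continuous a k).continuousOn ⟨h4, h3⟩
    have h5 := hp ξ
    simp only at hξ
    rw [hξ, Real.sin_pi_div_two, one_mul] at h5
    refine le_trans ?_ h5
    have h6 := Real.add_one_le_exp (-(ξ ^ 2 * S / 2))
    refine le_trans ?_ h6
    have h7 : ξ ^ 2 ≤ (223 / 100 / lam a k) ^ 2 := pow_le_pow_left₀ hξ0 hξ1 2
    have h8 : ξ ^ 2 * S ≤ 5 * (S / lam a k ^ 2) := by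
      calc ξ ^ 2 * S ≤ (223 / 100 / lam a k) ^ 2 * S := mul_le_mul_of_nonneg_right h7 hS0.le
        _ = (223 / 100) ^ 2 * (S / lam a k ^ 2) := by ring
        _ ≤ 5 * (S / lam a k ^ 2) := mul_le_mul_of_nonneg_right (by norm_num) (by positivity)
    linarith
  · refine le_trans ?_ hp0
    have h1 : 4 * a * lam a k < 223 / 100 := by
      rw [lt_div_iff₀ hL] at h
      exact h
    have h2 : lam a k ^ 2 ≤ 4 * a ^ 2 * S * (5 / 2 * (1 / (4 * a ^ 2))) := by
      have h3 : (4 * a * lam a k) ^ 2 ≤ (223 / 100) ^ 2 := pow_le_pow_left₀ (by positivity) h1.le 2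
      have h4 : lam a k ^ 2 ≤ (223 / 100) ^ 2 / 16 * (1 / a ^ 2) := by
        rw [mul_one_div, le_div_iff₀ (by positivity)]
        nlinarith
      refine h4.trans ?_
      have h5 : 4 * a ^ 2 * S * (5 / 2 * (1 / (4 * a ^ 2))) = 5 / 2 * S := by
        field_simp
      rw [h5]
      have h6 : 5 / 2 * (1 / (4 * a ^ 2)) ≤ 5 / 2 * S := mul_le_mul_of_nonneg_left hS (by norm_num)
      refine le_trans ?_ h6
      have h7 : 5 / 2 * (1 / (4 * a ^ 2)) = 5 / 8 * (1 / a ^ 2) := by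
        field_simp
        norm_num
      rw [h7]
      exact mul_le_mul_of_nonneg_right (by norm_num) (by positivity)
    have h8 : 4 * a ^ 2 * S * (5 / 2 * (1 / (4 * a ^ 2))) = 5 / 2 * S := by
      field_simp
    rw [h8] at h2
    have h9 : 1 ≤ 5 / 2 * (S / lam a k ^ 2) := by
      rw [mul_div_assoc', le_div_iff₀ (by positivity), one_mul]
      exact h2
    linarith

end Pool.Agent.DRWC
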