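import Pool.Agent.DRWC.Loc

/-!
# Visits to an arbitrary point

The probability that the walk from `0` visits `x` more than `k` times before it leaves `B` is at
most the probability of `k` returns to the starting point before the exit from `B - x`.
-/

namespace Pool.Agent.DRWC

open Pool.Agent.DRW

/-- Probability of the path `l` from `x`. -/
noncomputable def PF (w : ℤ × ℤ → Fin 4 → ℝ) (x : ℤ × ℤ) : List (Fin 4) → ℝ
  | [] => 1
  | i :: l => PF w x l * ((w (posF x l) i + ((trF x l).count (posF x l, i) : ℝ)) /
      (W w (posF x l) + ((srcF x l).count (posF x l) : ℝ)))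

theorem PF_zero (w : ℤ × ℤ → Fin 4 → ℝ) (l : List (Fin 4)) : PF w 0 l = P w l := by
  induction l with
  | nil => rfl
  | cons i l ih => rw [PF, P, ih]

private noncomputable def R {α : Type*} [BEq α] [LawfulBEq α] (f : α → ℝ) : List α → ℝ
  | [] => 1
  | b :: L => R f L * (f b + (L.count b : ℝ))

private theorem R_perm {α : Type*} [BEq α] [LawfulBEq α] (f : α → ℝ) {L L' : List α}
    (h : L.Perm L') : R f L = R f L' := by
  induction h with
  | nil => rfl
  | cons x h ih =>
    show R f _ * _ = R f _ * _
    rw [ih, h.count_eq]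
  | swap x y l =>
    show R f l * (f x + (l.count x : ℝ)) * (f y + ((x :: l).count y : ℝ)) =
      R f l * (f y + (l.count y : ℝ)) * (f x + ((y :: l).count x : ℝ))
    by_cases hxy : x = y
    · subst hxy; rfl
    · rw [List.count_cons_of_ne (fun h => hxy h), List.count_cons_of_ne (fun h => hxy h.symm)]
      ring
  | trans _ _ ih1 ih2 => exact ih1.trans ih2

private theorem R_append {α : Type*} [BEq α] [LawfulBEq α] (f : α → ℝ) (L1 L2 : List α) :
    R f (L2 ++ L1) = R f L1 * R (fun e => f e + (L1.count e : ℝ)) L2 := by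
  induction L2 with
  | nil =>
    show R f L1 = R f L1 * 1
    rw [mul_one]
  | cons b L2 ih =>
    show R f (L2 ++ L1) * (f b + ((L2 ++ L1).count b : ℝ)) =
      R f L1 * (R (fun e => f e + (L1.count e : ℝ)) L2 * (f b + (L1.count b : ℝ) +
        (L2.count b : ℝ)))
    rw [ih, List.count_append]
    push_cast
    ring

private theorem R_append' {α : Type*} [BEq α] [LawfulBEq α] (f : α → ℝ) (L1 L2 : List α) :
    R f (L2 ++ L1) = R f L2 * R (fun e => f e + (L2.count e : ℝ)) L1 := by
  rw [R_perm f (List.perm_append_comm : (L2 ++ L1).Perm (L1 ++ L2))]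
  exact R_append f L2 L1

private theorem PF_eq (w : ℤ × ℤ → Fin 4 → ℝ) (x : ℤ × ℤ) (l : List (Fin 4)) :
    PF w x l = R (fun e : (ℤ × ℤ) × Fin 4 => w e.1 e.2) (trF x l) / R (W w) (srcF x l) := by
  induction l with
  | nil =>
    show (1 : ℝ) = 1 / 1
    norm_num
  | cons i l ih =>
    show PF w x l * (_ / _) = (R _ (trF x l) * _) / (R _ (srcF x l) * _)
    rw [ih, div_mul_div_comm]
    rfl

theorem srcF_append (x : ℤ × ℤ) (l1 l2 : List (Fin 4)) :
    srcF x (l2 ++ l1) = srcF (posF x l1) l2 ++ srcF x l1 := by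
  unfold srcF
  rw [trF_append, List.map_append]

/-- Exchangeability: the first part of the path may be seen as the second one. -/
theorem P_append (w : ℤ × ℤ → Fin 4 → ℝ) (l1 l2 : List (Fin 4)) :
    P w (l2 ++ l1) = PF w (pos l1) l2 *
      P (fun y i => w y i + ((trF (pos l1) l2).count (y, i) : ℝ)) l1 := by
  rw [← PF_zero, ← PF_zero, PF_eq, PF_eq, PF_eq, trF_append, srcF_append, R_append', R_append']
  have hW : (fun e => W w e + ((srcF (posF 0 l1) l2).count e : ℝ)) =
      W (fun y i => w y i + ((trF (pos l1) l2).count (y, i) : ℝ)) := by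
    funext y
    unfold W
    rw [Finset.sum_add_distrib]
    congr 1
    have := sum_count y (trF (pos l1) l2)
    have h2 : ∑ i, ((trF (pos l1) l2).count (y, i) : ℝ) =
        ((((trF (pos l1) l2).map Prod.fst).count y : ℕ) : ℝ) := by
      exact_mod_cast this
    rw [h2]
    rfl
  rw [hW, mul_div_mul_comm]

theorem posF_shift (x : ℤ × ℤ) (l : List (Fin 4)) : posF x l = x + pos l := by
  induction l with
  | nil =>
    show x = x + 0
    rw [add_zero]
  | cons i l ih =>
    show posF x l + d i = x + (pos l + d i)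
    rw [ih, add_assoc]

theorem trF_shift (x : ℤ × ℤ) (l : List (Fin 4)) :
    trF x l = (tr l).map (fun e => (x + e.1, e.2)) := by
  induction l with
  | nil => rfl
  | cons i l ih =>
    show (posF x l, i) :: trF x l = (x + pos l, i) :: (tr l).map (fun e => (x + e.1, e.2))
    rw [ih, posF_shift]

theorem srcF_shift (x : ℤ × ℤ) (l : List (Fin 4)) : srcF x l = (src l).map (fun v => x + v) := by
  unfold src srcF
  rw [trF_shift, List.map_map, List.map_map]
  rfl

theorem PF_const (a : ℝ) (x : ℤ × ℤ) (l : List (Fin 4)) :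
    PF (wt a 0) x l = P (wt a 0) l := by
  induction l with
  | nil => rfl
  | cons i l ih =>
    have h1 : (trF x l).count (posF x l, i) = (tr l).count (pos l, i) := by
      rw [trF_shift, posF_shift]
      exact List.count_map_of_injective (tr l) (fun e : (ℤ × ℤ) × Fin 4 => (x + e.1, e.2))
        (fun e e' h => by
          obtain ⟨h1, h2⟩ := Prod.mk.inj h
          exact Prod.ext (add_left_cancel h1) h2) (pos l, i)
    have h2 : (srcF x l).count (posF x l) = (src l).count (pos l) := by
      rw [srcF_shift, posF_shift]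
      exact List.count_map_of_injective (src l) (fun v => x + v)
        (fun v v' h => add_left_cancel h) (pos l)
    rw [PF, P, ih, h1, h2, wt_zero, wt_zero, W_zero, W_zero]

open Classical in
/-- First visit to `x` at time `n`. -/
noncomputable def hitX (x : ℤ × ℤ) (n : ℕ) : Finset (List (Fin 4)) :=
  (words n).filter (fun l => pos l = x ∧ x ∉ src l)

open Classical in
/-- No visit to `x` up to time `n`. -/
noncomputable def offX (x : ℤ × ℤ) (n : ℕ) : Finset (List (Fin 4)) :=
  (words n).filter (fun l => x ∉ pos l :: src l)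

theorem hit_total {w : ℤ × ℤ → Fin 4 → ℝ} (hw : ∀ x i, 0 < w x i) (x : ℤ × ℤ) (n : ℕ) :
    (∑ m ∈ Finset.range (n + 1), ∑ l ∈ hitX x m, P w l) + ∑ l ∈ offX x n, P w l = 1 := by
  classical
  induction n with
  | zero =>
    rw [zero_add, Finset.sum_range_one]
    unfold hitX offX
    rw [Finset.sum_filter, Finset.sum_filter, ← Finset.sum_add_distrib]
    have h1 : words 0 = {[]} := rfl
    rw [h1, Finset.sum_singleton]
    have h2 : (pos [] = x ∧ x ∉ src []) ↔ x ∈ pos [] :: src [] := by
      constructor
      · rintro ⟨h, -⟩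
        rw [h]
        exact List.mem_cons_self
      · intro h
        have h' : x ∈ [(0 : ℤ × ℤ)] := h
        rw [List.mem_singleton] at h'
        exact ⟨h'.symm, List.not_mem_nil⟩
    by_cases h : x ∈ pos [] :: src []
    · rw [if_pos (h2.mpr h), if_neg (not_not.mpr h), add_zero]
      rfl
    · rw [if_neg (fun h3 => h (h2.mp h3)), if_pos h, zero_add]
      rfl
  | succ n ih =>
    rw [Finset.sum_range_succ _ (n + 1)]
    have h1 : (∑ l ∈ hitX x (n + 1), P w l) + ∑ l ∈ offX x (n + 1), P w l =
        ∑ l ∈ offX x n, P w l := by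
      unfold hitX offX
      rw [Finset.sum_filter, Finset.sum_filter, Finset.sum_filter, sum_words, sum_words,
        ← Finset.sum_add_distrib]
      refine Finset.sum_congr rfl fun l _ => ?_
      rw [← Finset.sum_add_distrib]
      by_cases h : x ∈ pos l :: src l
      · rw [if_neg (not_not.mpr h)]
        refine Finset.sum_eq_zero fun i _ => ?_
        have h3 : x ∈ pos (i :: l) :: src (i :: l) := List.mem_cons_of_mem _ h
        rw [if_neg (fun h2 => h2.2 h), if_neg (not_not.mpr h3), add_zero]
      · rw [if_pos h, ← sum_P hw l]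
        refine Finset.sum_congr rfl fun i _ => ?_
        by_cases h3 : pos (i :: l) = x
        · rw [if_pos ⟨h3, h⟩, if_neg, add_zero]
          rw [not_not, ← h3]
          exact List.mem_cons_self
        · rw [if_neg (fun h2 => h3 h2.1), if_pos, zero_add]
          intro h4
          rcases List.mem_cons.mp h4 with h5 | h5
          · exact h3 h5.symm
          · exact h h5
    linarith

theorem split_hit (x : ℤ × ℤ) : ∀ l : List (Fin 4), x ∈ pos l :: src l →
    ∃ l1 l2, l = l2 ++ l1 ∧ pos l1 = x ∧ x ∉ src l1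
  | [], h => by
    have h' : x ∈ [(0 : ℤ × ℤ)] := h
    rw [List.mem_singleton] at h'
    exact ⟨[], [], rfl, h'.symm, List.not_mem_nil⟩
  | i :: l, h => by
    by_cases h1 : x ∈ pos l :: src l
    · obtain ⟨l1, l2, h2, h3, h4⟩ := split_hit x l h1
      exact ⟨l1, i :: l2, by rw [h2]; rfl, h3, h4⟩
    · rcases List.mem_cons.mp h with h5 | h5
      · exact ⟨i :: l, [], rfl, h5.symm, h1⟩
      · exact absurd h5 h1

/-- Visit to `x` after exactly `k` earlier ones, inside `B`. -/
def VisK (x : ℤ × ℤ) (k : ℕ) (B : Finset (ℤ × ℤ)) (l : List (Fin 4)) : Prop :=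
  pos l = x ∧ (src l).count x = k ∧ ∀ v ∈ src l, v ∈ B

open Classical in
theorem vis_le {a : ℝ} (ha : 0 < a) {x : ℤ × ℤ} {k : ℕ} {B B' : Finset (ℤ × ℤ)}
    (hB : ∀ v, x + v ∈ B → v ∈ B') (n : ℕ) :
    ∑ m ∈ Finset.range (n + 1), ∑ l ∈ (words m).filter (VisK x k B), P (wt a 0) l ≤
      ∑ m ∈ Finset.range (n + 1), ∑ l ∈ retK k B' m, P (wt a 0) l := by
  have hw : ∀ x i, 0 < wt a 0 x i := fun x i => by rw [wt_zero]; exact ha
  set A : Finset (List (Fin 4)) := (Finset.range (n + 1)).biUnion (hitX x) with hA
  set C : Finset (List (Fin 4)) := (Finset.range (n + 1)).biUnion (retK k B') with hC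
  have e1 : ∑ m ∈ Finset.range (n + 1), ∑ l ∈ (words m).filter (VisK x k B), P (wt a 0) l =
      ∑ l ∈ (Finset.range (n + 1)).biUnion (fun m => (words m).filter (VisK x k B)),
        P (wt a 0) l := by
    rw [Finset.sum_biUnion]
    intro m _ m' _ hne
    rw [Function.onFun, Finset.disjoint_left]
    intro l h1 h2
    rw [Finset.mem_filter, mem_words] at h1 h2
    exact hne (h1.1.symm.trans h2.1)
  have e2 : ∑ m ∈ Finset.range (n + 1), ∑ l ∈ retK k B' m, P (wt a 0) l =
      ∑ l ∈ C, P (wt a 0) l := by
    rw [hC, Finset.sum_biUnion]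
    intro m _ m' _ hne
    rw [Function.onFun, Finset.disjoint_left]
    intro l h1 h2
    rw [retK, Finset.mem_filter, mem_words] at h1 h2
    exact hne (h1.1.symm.trans h2.1)
  rw [e1, e2]
  have hsub : (Finset.range (n + 1)).biUnion (fun m => (words m).filter (VisK x k B)) ⊆
      (C ×ˢ A).image (fun q : List (Fin 4) × List (Fin 4) => q.1 ++ q.2) := by
    intro l hl
    rw [Finset.mem_biUnion] at hl
    obtain ⟨m, hm, hl⟩ := hl
    rw [Finset.mem_filter, mem_words] at hl
    rw [Finset.mem_range] at hm
    obtain ⟨hlen, h1, h2, h3⟩ := hl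
    have hx : x ∈ pos l :: src l := by
      rw [h1]
      exact List.mem_cons_self
    obtain ⟨l1, l2, h4, h5, h6⟩ := split_hit x l hx
    have h7 : src l = srcF x l2 ++ src l1 := by
      rw [h4]
      show srcF 0 (l2 ++ l1) = _
      rw [srcF_append]
      show srcF (pos l1) l2 ++ src l1 = _
      rw [h5]
    have hlen' : l2.length + l1.length = m := by
      rw [← hlen, h4, List.length_append]
    rw [Finset.mem_image]
    refine ⟨(l2, l1), ?_, h4.symm⟩
    rw [Finset.mem_product]
    refine ⟨?_, ?_⟩
    · rw [hC, Finset.mem_biUnion]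
      refine ⟨l2.length, Finset.mem_range.mpr (by omega), ?_⟩
      rw [retK, Finset.mem_filter, mem_words]
      refine ⟨rfl, ?_, ?_, ?_⟩
      · have h8 : posF x l2 = x := by
          have h9 : pos l = posF (pos l1) l2 := by
            rw [h4]
            exact posF_append 0 l1 l2
          rw [h5] at h9
          rw [← h9, h1]
        rw [posF_shift] at h8
        exact add_eq_left.mp h8
      · rw [h7, List.count_append, List.count_eq_zero_of_not_mem h6, add_zero, srcF_shift] at h2
        have h9 := List.count_map_of_injective (src l2) (fun v => x + v)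
          (fun v v' h => add_left_cancel h) 0
        simp only [add_zero] at h9
        rw [← h9]
        exact h2
      · intro v hv
        apply hB
        apply h3
        rw [h7, List.mem_append, srcF_shift]
        exact Or.inl (List.mem_map_of_mem hv)
    · rw [hA, Finset.mem_biUnion]
      refine ⟨l1.length, Finset.mem_range.mpr (by omega), ?_⟩
      rw [hitX, Finset.mem_filter, mem_words]
      exact ⟨rfl, h5, h6⟩
  refine (Finset.sum_le_sum_of_subset_of_nonneg hsub fun l _ _ => P_nonneg ha l).trans ?_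
  refine (Finset.sum_image_le_of_nonneg (fun q _ => P_nonneg ha q)).trans ?_
  rw [Finset.sum_product]
  refine Finset.sum_le_sum fun l2 _ => ?_
  set w' : ℤ × ℤ → Fin 4 → ℝ := fun y i => wt a 0 y i + ((trF x l2).count (y, i) : ℝ) with hw'
  have hw'0 : ∀ y i, 0 < w' y i := fun y i => by
    have h1 := hw y i
    have h2 : (0 : ℝ) ≤ ((trF x l2).count (y, i) : ℝ) := Nat.cast_nonneg _
    rw [hw']
    show 0 < wt a 0 y i + ((trF x l2).count (y, i) : ℝ)
    linarith
  have h1 : ∀ l1 ∈ A, P (wt a 0) (l2 ++ l1) = P (wt a 0) l2 * P w' l1 := by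
    intro l1 hl1
    rw [hA, Finset.mem_biUnion] at hl1
    obtain ⟨m, -, hl1⟩ := hl1
    rw [hitX, Finset.mem_filter] at hl1
    rw [P_append, hl1.2.1, PF_const]
  rw [Finset.sum_congr rfl h1, ← Finset.mul_sum]
  have h2 : ∑ l ∈ A, P w' l ≤ 1 := by
    have h3 := hit_total hw'0 x n
    have h4 : ∑ l ∈ A, P w' l = ∑ m ∈ Finset.range (n + 1), ∑ l ∈ hitX x m, P w' l := by
      rw [hA, Finset.sum_biUnion]
      intro m _ m' _ hne
      rw [Function.onFun, Finset.disjoint_left]
      intro l h1 h2
      rw [hitX, Finset.mem_filter, mem_words] at h1 h2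
      exact hne (h1.1.symm.trans h2.1)
    have hPn : ∀ l, 0 ≤ P w' l := by
      intro l
      induction l with
      | nil => exact zero_le_one
      | cons i l ih =>
        rw [P]
        have h5 : 0 < W w' (pos l) := Finset.sum_pos (fun j _ => hw'0 _ j) Finset.univ_nonempty
        have h6 := hw'0 (pos l) i
        positivity
    have h5 : 0 ≤ ∑ l ∈ offX x n, P w' l := Finset.sum_nonneg fun l _ => hPn l
    rw [h4]
    linarith
  exact mul_le_of_le_one_right (P_nonneg ha l2) h2

end Pool.Agent.DRWC
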