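import Pool.Agent.DRWC.Any

/-!
# Displacement

Almost surely the walk leaves the ball of radius `N` within a power of `N` steps.
-/

namespace Pool.Agent.DRWC

open Pool.Agent.DRW Filter Topology

section law

variable {Ω : Type} [MeasurableSpace Ω]

theorem event_le {a : ℝ} (ha : 0 < a) {μ : MeasureTheory.Measure Ω} {X : ℕ → Ω → ℤ × ℤ}
    (hlaw : ∀ (n : ℕ) (s : ℕ → ℤ × ℤ), μ {ω | ∀ k ≤ n, X k ω = s k} =
     if s 0 = 0 then
       ENNReal.ofReal (∏ k ∈ Finset.range n,
        (if (s (k+1) - s k).1.natAbs + (s (k+1) - s k).2.natAbs = 1 then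
          (a + (((Finset.range k).filter (fun j => s j = s k ∧ s (j+1) = s (k+1))).card : ℝ)) /
          (4 * a + (((Finset.range k).filter (fun j => s j = s k)).card : ℝ))
        else 0))
     else 0) (Q : List (Fin 4) → Prop) [DecidablePred Q] {b : ℝ}
    (hb : ∀ n, ∑ m ∈ Finset.range (n + 1), ∑ l ∈ (words m).filter Q, P (wt a 0) l ≤ b) :
    μ (⋃ l : {l : List (Fin 4) // Q l}, {ω | Agree l.1 (fun k => X k ω)}) ≤ ENNReal.ofReal b := by
  classical
  have hE : ∀ l : List (Fin 4), μ {ω | Agree l (fun k => X k ω)} =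
      ENNReal.ofReal (P (wt a 0) l) := by
    intro l
    have h1 := hlaw l.length (fun k => pos (l.drop (l.length - k)))
    have h2 := (agree_path l).zero
    rw [if_pos h2, prod_eq (agree_path l)] at h1
    exact h1
  refine (MeasureTheory.measure_iUnion_le _).trans ?_
  rw [ENNReal.tsum_eq_iSup_sum]
  refine iSup_le fun F => ?_
  have h2 : ∑ l ∈ F, μ {ω | Agree l.1 (fun k => X k ω)} =
      ENNReal.ofReal (∑ l ∈ F, P (wt a 0) l.1) := by
    rw [ENNReal.ofReal_sum_of_nonneg fun l _ => P_nonneg ha l.1]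
    exact Finset.sum_congr rfl fun l _ => hE l.1
  rw [h2]
  apply ENNReal.ofReal_le_ofReal
  set n : ℕ := F.sup fun l => l.1.length with hn
  refine le_trans ?_ (hb n)
  have h3 : ∑ m ∈ Finset.range (n + 1), ∑ l ∈ (words m).filter Q, P (wt a 0) l =
      ∑ l ∈ (Finset.range (n + 1)).biUnion (fun m => (words m).filter Q), P (wt a 0) l := by
    rw [Finset.sum_biUnion]
    intro m _ m' _ hne
    rw [Function.onFun, Finset.disjoint_left]
    intro l h1 h2
    rw [Finset.mem_filter] at h1 h2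
    exact hne ((length_words h1.1).symm.trans (length_words h2.1))
  have h4 : ∑ l ∈ F, P (wt a 0) l.1 =
      ∑ l ∈ F.map ⟨Subtype.val, Subtype.val_injective⟩, P (wt a 0) l := by
    rw [Finset.sum_map]
    rfl
  rw [h3, h4]
  refine Finset.sum_le_sum_of_subset_of_nonneg ?_ fun l _ _ => P_nonneg ha l
  intro l hl
  rw [Finset.mem_map] at hl
  obtain ⟨l', hl', rfl⟩ := hl
  rw [Finset.mem_biUnion]
  refine ⟨l'.1.length, ?_, ?_⟩
  · rw [Finset.mem_range]
    have := Finset.le_sup (f := fun l : {l : List (Fin 4) // Q l} => l.1.length) hl'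
    show l'.1.length < n + 1
    omega
  · rw [Finset.mem_filter, mem_words]
    exact ⟨rfl, l'.2⟩

theorem visit_exists {s : ℕ → ℤ × ℤ} {x : ℤ × ℤ} {t k : ℕ}
    (h : k < ((Finset.range (t + 1)).filter (fun j => s j = x)).card) :
    ∃ u ≤ t, s u = x ∧ ((Finset.range u).filter (fun j => s j = x)).card = k := by
  have hex : ∃ u, k < ((Finset.range (u + 1)).filter (fun j => s j = x)).card := ⟨t, h⟩
  classical
  set u := Nat.find hex with hu
  have h1 : k < ((Finset.range (u + 1)).filter (fun j => s j = x)).card := Nat.find_spec hex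
  have h2 : u ≤ t := Nat.find_min' hex h
  have h3 : ((Finset.range u).filter (fun j => s j = x)).card ≤ k := by
    rcases Nat.eq_zero_or_pos u with h4 | h4
    · rw [h4]
      simp
    · have h5 := Nat.find_min hex (show u - 1 < u by omega)
      rw [Nat.sub_add_cancel h4] at h5
      omega
  rw [Finset.range_add_one, Finset.filter_insert] at h1
  by_cases h4 : s u = x
  · rw [if_pos h4, Finset.card_insert_of_notMem (by simp)] at h1
    exact ⟨u, h2, h4, by omega⟩
  · rw [if_neg h4] at h1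
    omega

theorem card_ball (N : ℕ) : (ball N).card ≤ (2 * N + 1) ^ 2 := by
  unfold ball
  refine (Finset.card_filter_le _ _).trans ?_
  rw [Finset.card_product, Int.card_Icc]
  have : ((N : ℤ) + 1 - -(N : ℤ)).toNat = 2 * N + 1 := by omega
  rw [this, sq]

/-- The exponent of the return probability. -/
noncomputable def ex (a : ℝ) (N k : ℕ) : ℝ :=
  min (lam a k ^ 2 / (4 * (2 * (1 + a) * (1 + Real.log N) / a ^ 2))) (4 / 3 * a * lam a k / 2)

theorem ret_ball {a : ℝ} (ha : 0 < a) {N : ℕ} (hN : 1 ≤ N) {k : ℕ} (hk : 1 ≤ k) (n : ℕ) :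
    ∑ m ∈ Finset.range (n + 1), ∑ l ∈ retK k (ball N) m, P (wt a 0) l ≤
      Real.exp (-ex a N k) := by
  have hlog : 0 ≤ Real.log N := Real.log_natCast_nonneg N
  have h0 : (0 : ℤ × ℤ) ∈ ball N := by
    rw [mem_ball]
    simp
    omega
  have hS : (1 / a ^ 2 + 1 / a) * ∑ x ∈ ball N, ∑ i, flow x i ^ 2 ≤
      2 * (1 + a) * (1 + Real.log N) / a ^ 2 := by
    calc (1 / a ^ 2 + 1 / a) * ∑ x ∈ ball N, ∑ i, flow x i ^ 2
        ≤ (1 / a ^ 2 + 1 / a) * (2 * (1 + Real.log N)) :=
          mul_le_mul_of_nonneg_left (flow_energy hN) (by positivity)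
      _ = 2 * (1 + a) * (1 + Real.log N) / a ^ 2 := by
        field_simp
  obtain ⟨γ, hγ0, hγg, hγ⟩ := choose_gamma (S := 2 * (1 + a) * (1 + Real.log N) / a ^ 2)
    (L := lam a k) (g := 4 / 3 * a) (by positivity) (lam_pos ha hk) (by positivity)
  have hγθ : ∀ x ∈ ball N, ∀ i, |γ * flow x i| ≤ 2 / 3 * a := by
    intro x _ i
    rw [abs_mul, abs_of_nonneg hγ0]
    have h1 := flow_abs x i
    have h2 : γ * |flow x i| ≤ 4 / 3 * a * (1 / 2) :=
      mul_le_mul hγg h1 (abs_nonneg _) (by positivity)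
    linarith
  refine (ret_le ha h0 flow_anti (fun x _ => flow_div x) hγθ hk n).trans ?_
  apply Real.exp_le_exp.mpr
  refine le_trans ?_ hγ
  have := mul_le_mul_of_nonneg_left hS (sq_nonneg γ)
  linarith

theorem stay_le {a : ℝ} (ha : 0 < a) {μ : MeasureTheory.Measure Ω} {X : ℕ → Ω → ℤ × ℤ}
    (hlaw : ∀ (n : ℕ) (s : ℕ → ℤ × ℤ), μ {ω | ∀ k ≤ n, X k ω = s k} =
     if s 0 = 0 then
       ENNReal.ofReal (∏ k ∈ Finset.range n,
        (if (s (k+1) - s k).1.natAbs + (s (k+1) - s k).2.natAbs = 1 then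
          (a + (((Finset.range k).filter (fun j => s j = s k ∧ s (j+1) = s (k+1))).card : ℝ)) /
          (4 * a + (((Finset.range k).filter (fun j => s j = s k)).card : ℝ))
        else 0))
     else 0) {N : ℕ} (hN : 1 ≤ N) {k : ℕ} (hk : 1 ≤ k) {t : ℕ}
    (ht : (2 * N + 1) ^ 2 * k < t + 1) :
    μ {ω | ∀ j ≤ t, X j ω ∈ ball N} ≤
      ENNReal.ofReal (((2 * N + 1) ^ 2 : ℝ) * Real.exp (-ex a (2 * N) k)) := by
  classical
  have hgood : ∀ᵐ ω ∂μ, ∀ n, X 0 ω = 0 ∧ ∀ k < n,
      (X (k + 1) ω - X k ω).1.natAbs + (X (k + 1) ω - X k ω).2.natAbs = 1 :=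
    MeasureTheory.ae_all_iff.mpr fun n => ae_good' hlaw n
  have h1 : μ {ω | ∀ j ≤ t, X j ω ∈ ball N} ≤ μ (⋃ x ∈ ball N,
      ⋃ l : {l : List (Fin 4) // VisK x k (ball N) l}, {ω | Agree l.1 (fun k => X k ω)}) := by
    apply MeasureTheory.measure_mono_ae
    filter_upwards [hgood] with ω hω hst
    have hst' : ∀ j ≤ t, X j ω ∈ ball N := hst
    obtain ⟨x, hx, hx2⟩ := Finset.exists_lt_card_fiber_of_mul_lt_card_of_maps_to
      (s := Finset.range (t + 1)) (t := ball N) (f := fun j => X j ω) (n := k)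
      (fun j hj => hst' j (by rw [Finset.mem_range] at hj; omega)) (by
        rw [Finset.card_range]
        exact lt_of_le_of_lt (Nat.mul_le_mul_right k (card_ball N)) ht)
    obtain ⟨u, hu, hux, hcard⟩ := visit_exists (s := fun j => X j ω) hx2
    obtain ⟨l, hl, hag⟩ := exists_agree (s := fun k => X k ω) (hω 0).1
      (fun k => (hω (k + 1)).2 k (Nat.lt_succ_self k)) u
    have hlast : X l.length ω = pos l := hag.last
    have hmem : ω ∈ ⋃ x ∈ ball N,
        ⋃ l : {l : List (Fin 4) // VisK x k (ball N) l}, {ω | Agree l.1 (fun k => X k ω)} := by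
      rw [Set.mem_iUnion₂]
      refine ⟨x, hx, ?_⟩
      rw [Set.mem_iUnion]
      refine ⟨⟨l, ?_, ?_, ?_⟩, hag⟩
      · rw [← hlast, hl]
        exact hux
      · rw [← count_src hag x, hl]
        exact hcard
      · intro v hv
        have h2 : 0 < (src l).count v := List.count_pos_iff.mpr hv
        rw [← count_src hag v, Finset.card_pos] at h2
        obtain ⟨j, hj'⟩ := h2
        rw [Finset.mem_filter, Finset.mem_range, hl] at hj'
        rw [← hj'.2]
        exact hst' j (by omega)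
    exact hmem
  refine h1.trans ((MeasureTheory.measure_biUnion_finset_le _ _).trans ?_)
  have h2 : ∀ x ∈ ball N, μ (⋃ l : {l : List (Fin 4) // VisK x k (ball N) l},
      {ω | Agree l.1 (fun k => X k ω)}) ≤ ENNReal.ofReal (Real.exp (-ex a (2 * N) k)) := by
    intro x hx
    refine event_le ha hlaw (VisK x k (ball N)) fun n => ?_
    refine (vis_le ha (B' := ball (2 * N)) (fun v hv => ?_) n).trans
      (ret_ball ha (by omega) hk n)
    rw [mem_ball] at hx hv ⊢
    have e1 : (x + v).1 = x.1 + v.1 := rfl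
    have e2 : (x + v).2 = x.2 + v.2 := rfl
    omega
  refine (Finset.sum_le_sum h2).trans ?_
  rw [Finset.sum_const, nsmul_eq_mul, ENNReal.ofReal_mul (by positivity)]
  refine mul_le_mul_left ?_ _
  have h3 : ((ball N).card : ℝ) ≤ ((2 * N + 1) ^ 2 : ℝ) := by exact_mod_cast card_ball N
  calc ((ball N).card : ENNReal) = ENNReal.ofReal ((ball N).card : ℝ) :=
        (ENNReal.ofReal_natCast _).symm
    _ ≤ _ := ENNReal.ofReal_le_ofReal h3

end law

end Pool.Agent.DRWC
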