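import Pool.Agent.DRWC.DispT

/-!
# The exponent of the exit time
-/

namespace Pool.Agent.DRWC

open Pool.Agent.DRW Filter Topology

theorem lam_mono {a : ℝ} (ha : 0 < a) {k k' : ℕ} (h : k ≤ k') : lam a k ≤ lam a k' := by
  unfold lam
  exact Finset.sum_le_sum_of_subset_of_nonneg (Finset.range_subset_range.mpr h)
    fun j _ _ => by positivity

theorem lam_nonneg {a : ℝ} (ha : 0 < a) (k : ℕ) : 0 ≤ lam a k :=
  Finset.sum_nonneg fun j _ => by positivity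

theorem lam_succ_le {a : ℝ} (ha : 0 < a) (k : ℕ) :
    lam a (k + 1) ≤ 1 / (4 * a) + Real.log (1 + k / (4 * a)) := by
  induction k with
  | zero =>
    unfold lam
    rw [Finset.sum_range_one]
    simp
  | succ k ih =>
    have h1 : lam a (k + 1 + 1) = lam a (k + 1) + 1 / (4 * a + ((k + 1 : ℕ) : ℝ)) := by
      unfold lam
      rw [Finset.sum_range_succ]
    rw [h1]
    have h2 : (0 : ℝ) < 4 * a + ((k + 1 : ℕ) : ℝ) := by positivity
    have h3 : 1 / (4 * a + ((k + 1 : ℕ) : ℝ)) ≤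
        Real.log (1 + ((k + 1 : ℕ) : ℝ) / (4 * a)) - Real.log (1 + k / (4 * a)) := by
      rw [← Real.log_div (by positivity) (by positivity)]
      have h4 : (1 + ((k + 1 : ℕ) : ℝ) / (4 * a)) / (1 + k / (4 * a)) =
          (1 - 1 / (4 * a + ((k + 1 : ℕ) : ℝ)))⁻¹ := by
        have h5 : (1 : ℝ) - 1 / (4 * a + ((k + 1 : ℕ) : ℝ)) =
            (4 * a + k) / (4 * a + ((k + 1 : ℕ) : ℝ)) := by
          rw [eq_div_iff h2.ne', sub_mul, div_mul_cancel₀ _ h2.ne']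
          push_cast
          ring
        rw [h5, inv_div]
        have h6 : (0 : ℝ) < 4 * a + k := by positivity
        rw [div_eq_div_iff (by positivity) h6.ne']
        field_simp
      rw [h4, Real.log_inv]
      have h7 : (0 : ℝ) < 1 - 1 / (4 * a + ((k + 1 : ℕ) : ℝ)) := by
        have : (1 : ℝ) < 4 * a + ((k + 1 : ℕ) : ℝ) := by
          push_cast
          have : (0 : ℝ) ≤ k := Nat.cast_nonneg k
          linarith
        rw [sub_pos, div_lt_one h2]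
        exact this
      have := Real.log_le_sub_one_of_pos h7
      linarith
    linarith

/-- The slope. -/
noncomputable def slp (a : ℝ) : ℝ := min 1 (a / √(1 + a))

/-- The exponent of the exit time. -/
noncomputable def dx (a : ℝ) : ℝ :=
  2 + 2 * (slp a * (√(1 + a) / a)) ^ 2 + 4 * (√(1 + a) / a) * (1 - slp a)

theorem slp_pos {a : ℝ} (ha : 0 < a) : 0 < slp a := lt_min one_pos (by positivity)

theorem slp_le (a : ℝ) : slp a ≤ 1 := min_le_left _ _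

theorem sqrt_le_iff' {a : ℝ} (ha : 0 < a) : √(1 + a) ≤ a ↔ 1 + a ≤ a ^ 2 := Real.sqrt_le_left ha.le

theorem slp_case {a : ℝ} (ha : 0 < a) :
    (1 + a ≤ a ^ 2 ∧ slp a = 1) ∨ (a ^ 2 < 1 + a ∧ slp a = a / √(1 + a)) := by
  have hs : 0 < √(1 + a) := Real.sqrt_pos.mpr (by linarith)
  by_cases h : 1 + a ≤ a ^ 2
  · left
    refine ⟨h, min_eq_left ?_⟩
    rw [one_le_div hs]
    exact (sqrt_le_iff' ha).mpr h
  · right
    refine ⟨not_le.mp h, min_eq_right ?_⟩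
    rw [div_le_one hs]
    by_contra h2
    exact h ((sqrt_le_iff' ha).mp (not_le.mp h2).le)

theorem dx_eq {a : ℝ} (ha : 0 < a) :
    dx a = if 1 + a ≤ a ^ 2 then 2 + 2 * (1 + a) / a ^ 2 else 4 * √(1 + a) / a := by
  have hs : 0 < √(1 + a) := Real.sqrt_pos.mpr (by linarith)
  rcases slp_case ha with ⟨h1, h2⟩ | ⟨h1, h2⟩
  · rw [if_pos h1, dx, h2, one_mul, div_pow, Real.sq_sqrt (by linarith)]
    ring
  · rw [if_neg (not_le.mpr h1), dx, h2]
    have h3 : a / √(1 + a) * (√(1 + a) / a) = 1 := by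
      field_simp
    rw [h3]
    have h4 : 4 * (√(1 + a) / a) * (1 - a / √(1 + a)) = 4 * (√(1 + a) / a) - 4 := by
      field_simp
    rw [h4]
    ring

/-- The main estimate of the exponents. -/
theorem ex_ge' {a : ℝ} (ha : 0 < a) {δ : ℝ} (hδ : 0 < δ) (hδ' : δ ≤ 1 / 4) {N : ℕ} (hN : 1 ≤ N)
    {ℓ : ℝ} (hℓ : ℓ = 1 + Real.log ((2 * N : ℕ) : ℝ)) (hℓ0 : 3 * (1 + 1 / (4 * a)) ≤ ℓ)
    {k : ℕ} (hk : lam a k ≤ 4 * (√(1 + a) / a) * (1 + δ) * ℓ + 1 + 1 / (4 * a)) :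
    slp a * lam a k - 2 * (slp a * (√(1 + a) / a)) ^ 2 * ℓ ≤ ex a (2 * N) k := by
  have hs : 0 < √(1 + a) := Real.sqrt_pos.mpr (by linarith)
  have hs1 : 1 ≤ √(1 + a) := by
    rw [Real.one_le_sqrt]
    linarith
  have hs2 : √(1 + a) ^ 2 = 1 + a := Real.sq_sqrt (by linarith)
  have hℓp : 0 < ℓ := by
    have : 0 < 3 * (1 + 1 / (4 * a)) := by positivity
    linarith
  have hlam := lam_nonneg ha k
  set L := lam a k with hL
  set u : ℝ := √(1 + a) / a with hu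
  have hu0 : 0 < u := by positivity
  have hau : a * u = √(1 + a) := by
    rw [hu]
    field_simp
  have hσ0 := slp_pos ha
  have hσ1 := slp_le a
  unfold ex
  rw [← hL, ← hℓ]
  have hu2 : 2 * (1 + a) * ℓ / a ^ 2 = 2 * u ^ 2 * ℓ := by
    rw [hu, div_pow, hs2]
    ring
  rw [hu2]
  refine le_min ?_ ?_
  · rw [le_div_iff₀ (by positivity)]
    have h1 : 0 ≤ (L - 4 * slp a * u ^ 2 * ℓ) ^ 2 := sq_nonneg _
    nlinarith
  · rcases slp_case ha with ⟨h1, h2⟩ | ⟨h1, h2⟩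
    · rw [h2, one_mul, one_mul]
      have h3 : 3 / 2 ≤ a := by
        by_contra h
        push Not at h
        nlinarith
      have h4 : 0 ≤ 2 * u ^ 2 * ℓ := by positivity
      nlinarith [mul_le_mul_of_nonneg_right h3 hlam]
    · have h3 : slp a * u = 1 := by
        rw [h2, hu]
        field_simp
      rw [h3, one_pow, mul_one]
      by_cases h4 : slp a ≤ 2 / 3 * a
      · have := mul_le_mul_of_nonneg_right h4 hlam
        linarith
      · push Not at h4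
        have h5 : (slp a - 2 / 3 * a) * L ≤
            (slp a - 2 / 3 * a) * (4 * u * (1 + δ) * ℓ + 1 + 1 / (4 * a)) :=
          mul_le_mul_of_nonneg_left hk (by linarith)
        have h6 : (slp a - 2 / 3 * a) * (4 * u * (1 + δ) * ℓ) ≤ 5 / 3 * ℓ := by
          have h7 : (slp a - 2 / 3 * a) * (4 * u * (1 + δ) * ℓ) =
              4 * (slp a * u - 2 / 3 * (a * u)) * ((1 + δ) * ℓ) := by ring
          rw [h7, h3, hau]
          have h8 : 4 * (1 - 2 / 3 * √(1 + a)) ≤ 4 / 3 := by linarith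
          have h9 : 0 ≤ (1 + δ) * ℓ := by positivity
          have h10 := mul_le_mul_of_nonneg_right h8 h9
          have h11 : (1 + δ) * ℓ ≤ 5 / 4 * ℓ := mul_le_mul_of_nonneg_right (by linarith) hℓp.le
          linarith
        have h7 : (slp a - 2 / 3 * a) * (1 + 1 / (4 * a)) ≤ 1 / 3 * ℓ := by
          have h8 : (slp a - 2 / 3 * a) * (1 + 1 / (4 * a)) ≤ 1 * (1 + 1 / (4 * a)) :=
            mul_le_mul_of_nonneg_right (by linarith) (by positivity)
          linarith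
        have h8 : (slp a - 2 / 3 * a) * (4 * u * (1 + δ) * ℓ + 1 + 1 / (4 * a)) =
            (slp a - 2 / 3 * a) * (4 * u * (1 + δ) * ℓ) +
              (slp a - 2 / 3 * a) * (1 + 1 / (4 * a)) := by ring
        rw [h8] at h5
        have h9 : (slp a - 2 / 3 * a) * L = slp a * L - 2 / 3 * a * L := by ring
        rw [h9] at h5
        linarith

/-- The number of visits. -/
noncomputable def kn (a δ ℓ : ℝ) : ℕ := ⌈4 * a * Real.exp (4 * (√(1 + a) / a) * (1 + δ) * ℓ)⌉₊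

theorem kn_pos {a δ ℓ : ℝ} (ha : 0 < a) : 1 ≤ kn a δ ℓ := by
  unfold kn
  rw [Nat.one_le_ceil_iff]
  positivity

theorem le_lam_kn {a δ ℓ : ℝ} (ha : 0 < a) :
    4 * (√(1 + a) / a) * (1 + δ) * ℓ ≤ lam a (kn a δ ℓ) := by
  refine le_trans ?_ (log_le_lam ha (kn a δ ℓ))
  set Λ := 4 * (√(1 + a) / a) * (1 + δ) * ℓ with hΛ
  have h1 : 4 * a * Real.exp Λ ≤ (kn a δ ℓ : ℝ) := Nat.le_ceil _
  have h2 : Real.exp Λ ≤ 1 + (kn a δ ℓ : ℝ) / (4 * a) := by
    have h3 : Real.exp Λ ≤ (kn a δ ℓ : ℝ) / (4 * a) := by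
      rw [le_div_iff₀ (by positivity)]
      linarith
    linarith
  calc Λ = Real.log (Real.exp Λ) := (Real.log_exp _).symm
    _ ≤ _ := Real.log_le_log (Real.exp_pos _) h2

theorem log_lt_kn {a δ ℓ : ℝ} (ha : 0 < a) (hδ : 0 < δ) (hℓ : 0 ≤ ℓ) {k : ℕ} (hk : k < kn a δ ℓ) :
    Real.log (1 + k / (4 * a)) ≤ 4 * (√(1 + a) / a) * (1 + δ) * ℓ + 1 := by
  set Λ := 4 * (√(1 + a) / a) * (1 + δ) * ℓ with hΛ
  have hΛ0 : 0 ≤ Λ := by positivity
  have h1 : (k : ℝ) < 4 * a * Real.exp Λ := Nat.lt_ceil.mp hk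
  have h2 : (k : ℝ) / (4 * a) ≤ Real.exp Λ := by
    rw [div_le_iff₀ (by positivity)]
    linarith
  have h3 : 1 + (k : ℝ) / (4 * a) ≤ Real.exp (Λ + 1) := by
    have h4 : 1 ≤ Real.exp Λ := Real.one_le_exp hΛ0
    have h5 : 2 ≤ Real.exp 1 := by
      have := Real.add_one_le_exp (1 : ℝ)
      linarith
    rw [Real.exp_add]
    nlinarith
  calc Real.log (1 + k / (4 * a)) ≤ Real.log (Real.exp (Λ + 1)) :=
        Real.log_le_log (by positivity) h3
    _ = Λ + 1 := Real.log_exp _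

theorem lam_kn_le {a δ ℓ : ℝ} (ha : 0 < a) (hδ : 0 < δ) (hℓ : 0 ≤ ℓ) {k : ℕ}
    (hk : k ≤ kn a δ ℓ) :
    lam a k ≤ 4 * (√(1 + a) / a) * (1 + δ) * ℓ + 1 + 1 / (4 * a) := by
  refine (lam_mono ha hk).trans ?_
  have h1 := kn_pos (δ := δ) (ℓ := ℓ) ha
  obtain ⟨j, hj⟩ : ∃ j, kn a δ ℓ = j + 1 := ⟨kn a δ ℓ - 1, by omega⟩
  rw [hj]
  have h2 := lam_succ_le ha j
  have h3 := log_lt_kn (δ := δ) (ℓ := ℓ) ha hδ hℓ (k := j) (by omega)
  linarith

theorem sum_exp_le {a : ℝ} (ha : 0 < a) {δ : ℝ} (hδ : 0 < δ) (hδ' : δ ≤ 1 / 4) {N : ℕ}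
    (hN : 1 ≤ N) {ℓ : ℝ} (hℓ : ℓ = 1 + Real.log ((2 * N : ℕ) : ℝ))
    (hℓ0 : 3 * (1 + 1 / (4 * a)) ≤ ℓ) :
    ∑ k ∈ Finset.Ico 1 (kn a δ ℓ), Real.exp (-ex a (2 * N) k) ≤
      Real.exp ((dx a - 2 + 4 * (√(1 + a) / a) * δ) * ℓ) *
        (Real.exp 1 * (4 * a * (4 * (√(1 + a) / a) * (1 + δ) * ℓ + 1) + 1)) := by
  have hℓp : 0 < ℓ := by
    have : 0 < 3 * (1 + 1 / (4 * a)) := by positivity
    linarith
  set u : ℝ := √(1 + a) / a with hu
  have hu0 : 0 < u := by positivity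
  set Λ := 4 * u * (1 + δ) * ℓ with hΛ
  have hΛ0 : 0 ≤ Λ := by positivity
  have hσ0 := slp_pos ha
  have hσ1 := slp_le a
  have h1 : ∀ k ∈ Finset.Ico 1 (kn a δ ℓ), Real.exp (-ex a (2 * N) k) ≤
      Real.exp (2 * (slp a * u) ^ 2 * ℓ + (1 - slp a) * (Λ + 1)) * (4 * a * (1 / (4 * a + k))) := by
    intro k hk
    rw [Finset.mem_Ico] at hk
    have h2 := ex_ge' ha hδ hδ' hN hℓ hℓ0 (lam_kn_le ha hδ hℓp.le hk.2.le)
    have h3 := log_le_lam ha k
    have h4 := log_lt_kn ha hδ hℓp.le hk.2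
    rw [← hu] at h2 h4
    rw [← hΛ] at h4
    have h5 : -ex a (2 * N) k ≤ 2 * (slp a * u) ^ 2 * ℓ + (1 - slp a) * (Λ + 1) +
        -Real.log (1 + k / (4 * a)) := by
      have h6 : slp a * Real.log (1 + k / (4 * a)) ≤ slp a * lam a k :=
        mul_le_mul_of_nonneg_left h3 hσ0.le
      have h7 : (1 - slp a) * Real.log (1 + k / (4 * a)) ≤ (1 - slp a) * (Λ + 1) :=
        mul_le_mul_of_nonneg_left h4 (by linarith)
      linarith
    have h8 : Real.exp (-Real.log (1 + k / (4 * a))) = 4 * a * (1 / (4 * a + k)) := by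
      have h9 : (0 : ℝ) < 1 + k / (4 * a) := by positivity
      rw [Real.exp_neg, Real.exp_log h9]
      have h10 : (0 : ℝ) < 4 * a + k := by positivity
      field_simp
    calc Real.exp (-ex a (2 * N) k) ≤ Real.exp (2 * (slp a * u) ^ 2 * ℓ +
          (1 - slp a) * (Λ + 1) + -Real.log (1 + k / (4 * a))) := Real.exp_le_exp.mpr h5
      _ = _ := by rw [Real.exp_add _ (-Real.log _), h8]
  refine (Finset.sum_le_sum h1).trans ?_
  rw [← Finset.mul_sum, ← Finset.mul_sum]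
  have h2 : ∑ k ∈ Finset.Ico 1 (kn a δ ℓ), 1 / (4 * a + (k : ℝ)) ≤ lam a (kn a δ ℓ) := by
    unfold lam
    exact Finset.sum_le_sum_of_subset_of_nonneg (fun k hk => by
      rw [Finset.mem_Ico] at hk
      rw [Finset.mem_range]
      exact hk.2) fun j _ _ => by positivity
  have h3 : 4 * a * ∑ k ∈ Finset.Ico 1 (kn a δ ℓ), 1 / (4 * a + (k : ℝ)) ≤
      4 * a * (Λ + 1) + 1 := by
    have h4 := h2.trans (lam_kn_le ha hδ hℓp.le le_rfl)
    rw [← hu, ← hΛ] at h4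
    have h5 := mul_le_mul_of_nonneg_left h4 (by positivity : 0 ≤ 4 * a)
    have h6 : 4 * a * (Λ + 1 + 1 / (4 * a)) = 4 * a * (Λ + 1) + 1 := by
      field_simp
    linarith
  have h4 : Real.exp (2 * (slp a * u) ^ 2 * ℓ + (1 - slp a) * (Λ + 1)) ≤
      Real.exp ((dx a - 2 + 4 * u * δ) * ℓ) * Real.exp 1 := by
    rw [← Real.exp_add]
    apply Real.exp_le_exp.mpr
    have h5 : dx a = 2 + 2 * (slp a * u) ^ 2 + 4 * u * (1 - slp a) := rfl
    rw [h5, hΛ]
    have h6 : 0 ≤ slp a * (4 * u * δ * ℓ) := by positivity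
    nlinarith
  calc _ ≤ (Real.exp ((dx a - 2 + 4 * u * δ) * ℓ) * Real.exp 1) * (4 * a * (Λ + 1) + 1) := by
        refine mul_le_mul h4 h3 ?_ (by positivity)
        exact mul_nonneg (by positivity) (Finset.sum_nonneg fun k _ => by positivity)
    _ = _ := by ring

end Pool.Agent.DRWC
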