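import Pool.Agent.DRWC.Disp

/-!
# Numbers of visits to arbitrary points before the exit from a ball, truncated expectations
-/

namespace Pool.Agent.DRWC

open Pool.Agent.DRW Filter Topology

section law

variable {Ω : Type} [MeasurableSpace Ω]

/-- More than `k` visits to `x` before the exit from the ball. -/
def many (X : ℕ → Ω → ℤ × ℤ) (N k : ℕ) (x : ℤ × ℤ) : Set Ω :=
  {ω | ∃ t, (∀ j ≤ t, (X j ω).1.natAbs + (X j ω).2.natAbs < N) ∧
    k < ((Finset.range (t + 1)).filter (fun j => X j ω = x)).card}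

theorem many_meas {X : ℕ → Ω → ℤ × ℤ} (hX : ∀ n, Measurable (X n)) (N k : ℕ) (x : ℤ × ℤ) :
    MeasurableSet (many X N k x) := by
  have h1 : many X N k x = ⋃ t, ((⋂ j, ⋂ (_ : j ≤ t), {ω | (X j ω).1.natAbs + (X j ω).2.natAbs < N}) ∩
      {ω | k < ((Finset.range (t + 1)).filter (fun j => X j ω = x)).card}) := by
    ext ω
    simp only [many, Set.mem_ofPred_eq, Set.mem_iUnion, Set.mem_inter_iff, Set.mem_iInter]
  rw [h1]
  refine MeasurableSet.iUnion fun n => MeasurableSet.inter ?_ ?_
  · refine MeasurableSet.iInter fun j => MeasurableSet.iInter fun _ => ?_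
    exact hX j (MeasurableSet.of_discrete (s := {x : ℤ × ℤ | x.1.natAbs + x.2.natAbs < N}))
  · have h2 : Measurable fun ω => ((Finset.range (n + 1)).filter (fun j => X j ω = x)).card := by
      have h3 : (fun ω => ((Finset.range (n + 1)).filter (fun j => X j ω = x)).card) =
          fun ω => ∑ j ∈ Finset.range (n + 1), if X j ω = x then 1 else 0 := by
        funext ω
        rw [Finset.card_filter]
      rw [h3]
      refine Finset.measurable_sum _ fun j _ => ?_
      exact Measurable.ite (hX j (measurableSet_singleton x)) measurable_const measurable_const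
    exact h2 (MeasurableSet.of_discrete (s := {c : ℕ | k < c}))

theorem many_le {a : ℝ} (ha : 0 < a) {μ : MeasureTheory.Measure Ω} {X : ℕ → Ω → ℤ × ℤ}
    (hlaw : ∀ (n : ℕ) (s : ℕ → ℤ × ℤ), μ {ω | ∀ k ≤ n, X k ω = s k} =
     if s 0 = 0 then
       ENNReal.ofReal (∏ k ∈ Finset.range n,
        (if (s (k+1) - s k).1.natAbs + (s (k+1) - s k).2.natAbs = 1 then
          (a + (((Finset.range k).filter (fun j => s j = s k ∧ s (j+1) = s (k+1))).card : ℝ)) /
          (4 * a + (((Finset.range k).filter (fun j => s j = s k)).card : ℝ))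
        else 0))
     else 0) {N : ℕ} (hN : 1 ≤ N) {k : ℕ} (hk : 1 ≤ k) (x : ℤ × ℤ) :
    μ (many X N k x) ≤ ENNReal.ofReal (Real.exp (-ex a (2 * N) k)) := by
  classical
  have hgood : ∀ᵐ ω ∂μ, ∀ n, X 0 ω = 0 ∧ ∀ k < n,
      (X (k + 1) ω - X k ω).1.natAbs + (X (k + 1) ω - X k ω).2.natAbs = 1 :=
    MeasureTheory.ae_all_iff.mpr fun n => ae_good' hlaw n
  by_cases hx : x ∈ ball N
  swap
  · have h0 : many X N k x = ∅ := by
      rw [Set.eq_empty_iff_forall_notMem]
      rintro ω ⟨t, h1, h2⟩
      have h3 : 0 < ((Finset.range (t + 1)).filter (fun j => X j ω = x)).card := by omega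
      rw [Finset.card_pos] at h3
      obtain ⟨j, hj⟩ := h3
      rw [Finset.mem_filter, Finset.mem_range] at hj
      apply hx
      rw [mem_ball, ← hj.2]
      exact h1 j (by omega)
    rw [h0, MeasureTheory.measure_empty]
    exact zero_le
  have h1 : μ (many X N k x) ≤ μ (⋃ l : {l : List (Fin 4) // VisK x k (ball N) l},
      {ω | Agree l.1 (fun k => X k ω)}) := by
    apply MeasureTheory.measure_mono_ae
    filter_upwards [hgood] with ω hω hst
    obtain ⟨t, hst', hx2⟩ : ∃ t, (∀ j ≤ t, (X j ω).1.natAbs + (X j ω).2.natAbs < N) ∧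
      k < ((Finset.range (t + 1)).filter (fun j => X j ω = x)).card := hst
    obtain ⟨u, hu, hux, hcard⟩ := visit_exists (s := fun j => X j ω) hx2
    obtain ⟨l, hl, hag⟩ := exists_agree (s := fun k => X k ω) (hω 0).1
      (fun k => (hω (k + 1)).2 k (Nat.lt_succ_self k)) u
    have hlast : X l.length ω = pos l := hag.last
    have hmem : ω ∈ ⋃ l : {l : List (Fin 4) // VisK x k (ball N) l},
        {ω | Agree l.1 (fun k => X k ω)} := by
      rw [Set.mem_iUnion]
      refine ⟨⟨l, ?_, ?_, ?_⟩, hag⟩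
      · rw [← hlast, hl]
        exact hux
      · rw [← count_src hag x, hl]
        exact hcard
      · intro v hv
        have h2 : 0 < (src l).count v := List.count_pos_iff.mpr hv
        rw [← count_src hag v, Finset.card_pos] at h2
        obtain ⟨j, hj'⟩ := h2
        rw [Finset.mem_filter, Finset.mem_range, hl] at hj'
        rw [← hj'.2, mem_ball]
        exact hst' j (by omega)
    exact hmem
  refine h1.trans (event_le ha hlaw (VisK x k (ball N)) fun n => ?_)
  refine (vis_le ha (B' := ball (2 * N)) (fun v hv => ?_) n).trans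
    (ret_ball ha (by omega) hk n)
  rw [mem_ball] at hx hv ⊢
  have e1 : (x + v).1 = x.1 + v.1 := rfl
  have e2 : (x + v).2 = x.2 + v.2 := rfl
  omega

/-- The probability to stay in the ball up to time `t`. -/
theorem stay_le' {a : ℝ} (ha : 0 < a) {μ : MeasureTheory.Measure Ω}
    [MeasureTheory.IsProbabilityMeasure μ] {X : ℕ → Ω → ℤ × ℤ} (hX : ∀ n, Measurable (X n))
    (hlaw : ∀ (n : ℕ) (s : ℕ → ℤ × ℤ), μ {ω | ∀ k ≤ n, X k ω = s k} =
     if s 0 = 0 then
       ENNReal.ofReal (∏ k ∈ Finset.range n,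
        (if (s (k+1) - s k).1.natAbs + (s (k+1) - s k).2.natAbs = 1 then
          (a + (((Finset.range k).filter (fun j => s j = s k ∧ s (j+1) = s (k+1))).card : ℝ)) /
          (4 * a + (((Finset.range k).filter (fun j => s j = s k)).card : ℝ))
        else 0))
     else 0) {N : ℕ} (hN : 1 ≤ N) {K : ℕ} (hK : 1 ≤ K) (t : ℕ) :
    μ {ω | ∀ j ≤ t, X j ω ∈ ball N} ≤
      ENNReal.ofReal (((2 * N + 1) ^ 2 : ℝ) * Real.exp (-ex a (2 * N) K) +
        ((2 * N + 1) ^ 2 : ℝ) * (1 + ∑ k ∈ Finset.Ico 1 K, Real.exp (-ex a (2 * N) k)) /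
          (t + 1)) := by
  classical
  set A : Set Ω := {ω | ∀ j ≤ t, X j ω ∈ ball N} with hA
  set f : Ω → ENNReal := fun ω => ∑ x ∈ ball N, ∑ k ∈ Finset.range K,
    (many X N k x).indicator (fun _ => (1 : ENNReal)) ω with hf
  have hfm : Measurable f := Finset.measurable_sum _ fun x _ => Finset.measurable_sum _ fun k _ =>
    measurable_const.indicator (many_meas hX N k x)
  have hsub : A ⊆ (⋃ x ∈ ball N, many X N K x) ∪ {ω | ((t + 1 : ℕ) : ENNReal) ≤ f ω} := by
    intro ω hω
    have hω' : ∀ j ≤ t, X j ω ∈ ball N := hω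
    by_cases h : ∃ x ∈ ball N, K < ((Finset.range (t + 1)).filter (fun j => X j ω = x)).card
    · left
      obtain ⟨x, hx, h2⟩ := h
      rw [Set.mem_iUnion₂]
      exact ⟨x, hx, t, fun j hj => mem_ball.mp (hω' j hj), h2⟩
    · right
      push Not at h
      show ((t + 1 : ℕ) : ENNReal) ≤ f ω
      have h1 : t + 1 = ∑ x ∈ ball N, ((Finset.range (t + 1)).filter (fun j => X j ω = x)).card := by
        rw [← Finset.card_eq_sum_card_fiberwise (f := fun j => X j ω) (s := Finset.range (t + 1))
          (t := ball N) (fun j hj => hω' j (by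
            rw [Finset.mem_coe, Finset.mem_range] at hj; omega)), Finset.card_range]
      rw [h1]
      push_cast
      refine Finset.sum_le_sum fun x hx => ?_
      set c := ((Finset.range (t + 1)).filter (fun j => X j ω = x)).card with hc
      have h2 : c ≤ K := h x hx
      calc (c : ENNReal) = ∑ k ∈ Finset.range c, (1 : ENNReal) := by
            rw [Finset.sum_const, Finset.card_range, nsmul_eq_mul, mul_one]
        _ = ∑ k ∈ Finset.range c, (many X N k x).indicator (fun _ => (1 : ENNReal)) ω := by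
            refine Finset.sum_congr rfl fun k hk => ?_
            rw [Finset.mem_range] at hk
            rw [Set.indicator_of_mem]
            exact ⟨t, fun j hj => mem_ball.mp (hω' j hj), hk⟩
        _ ≤ _ := Finset.sum_le_sum_of_subset (Finset.range_subset_range.mpr h2)
  have h3 : ((ball N).card : ℝ) ≤ ((2 * N + 1) ^ 2 : ℝ) := by exact_mod_cast card_ball N
  have h4 : μ (⋃ x ∈ ball N, many X N K x) ≤
      ENNReal.ofReal (((2 * N + 1) ^ 2 : ℝ) * Real.exp (-ex a (2 * N) K)) := by
    refine (MeasureTheory.measure_biUnion_finset_le _ _).trans ?_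
    refine (Finset.sum_le_sum fun x _ => many_le ha hlaw hN hK x).trans ?_
    rw [Finset.sum_const, nsmul_eq_mul, ENNReal.ofReal_mul (by positivity)]
    refine mul_le_mul_left ?_ _
    calc ((ball N).card : ENNReal) = ENNReal.ofReal ((ball N).card : ℝ) :=
          (ENNReal.ofReal_natCast _).symm
      _ ≤ _ := ENNReal.ofReal_le_ofReal h3
  have h5 : ∫⁻ ω, f ω ∂μ ≤ ENNReal.ofReal (((2 * N + 1) ^ 2 : ℝ) *
      (1 + ∑ k ∈ Finset.Ico 1 K, Real.exp (-ex a (2 * N) k))) := by
    have h6 : ∫⁻ ω, f ω ∂μ = ∑ x ∈ ball N, ∑ k ∈ Finset.range K, μ (many X N k x) := by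
      rw [hf, MeasureTheory.lintegral_finsetSum _ fun x _ => Finset.measurable_sum _ fun k _ =>
        measurable_const.indicator (many_meas hX N k x)]
      refine Finset.sum_congr rfl fun x _ => ?_
      rw [MeasureTheory.lintegral_finsetSum _ fun k _ =>
        measurable_const.indicator (many_meas hX N k x)]
      refine Finset.sum_congr rfl fun k _ => ?_
      rw [MeasureTheory.lintegral_indicator_const (many_meas hX N k x), one_mul]
    have h7 : ∀ x ∈ ball N, ∑ k ∈ Finset.range K, μ (many X N k x) ≤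
        ENNReal.ofReal (1 + ∑ k ∈ Finset.Ico 1 K, Real.exp (-ex a (2 * N) k)) := by
      intro x _
      rw [Finset.range_eq_Ico, Finset.sum_eq_sum_Ico_succ_bot (by omega : 0 < K)]
      rw [ENNReal.ofReal_add (by norm_num) (Finset.sum_nonneg fun k _ => (Real.exp_pos _).le),
        ENNReal.ofReal_one, ENNReal.ofReal_sum_of_nonneg fun k _ => (Real.exp_pos _).le]
      refine add_le_add MeasureTheory.prob_le_one ?_
      rw [zero_add]
      refine Finset.sum_le_sum fun k hk => ?_
      rw [Finset.mem_Ico] at hk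
      exact many_le ha hlaw hN hk.1 x
    rw [h6]
    refine (Finset.sum_le_sum h7).trans ?_
    rw [Finset.sum_const, nsmul_eq_mul, ENNReal.ofReal_mul (by positivity)]
    refine mul_le_mul_left ?_ _
    calc ((ball N).card : ENNReal) = ENNReal.ofReal ((ball N).card : ℝ) :=
          (ENNReal.ofReal_natCast _).symm
      _ ≤ _ := ENNReal.ofReal_le_ofReal h3
  have h8 : μ {ω | ((t + 1 : ℕ) : ENNReal) ≤ f ω} ≤
      ENNReal.ofReal (((2 * N + 1) ^ 2 : ℝ) *
        (1 + ∑ k ∈ Finset.Ico 1 K, Real.exp (-ex a (2 * N) k)) / (t + 1)) := by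
    refine (MeasureTheory.meas_ge_le_lintegral_div hfm.aemeasurable (by simp)
      (ENNReal.natCast_ne_top _)).trans ?_
    rw [ENNReal.ofReal_div_of_pos (by positivity)]
    refine ENNReal.div_le_div h5 (le_of_eq ?_)
    rw [show ((t : ℝ) + 1) = ((t + 1 : ℕ) : ℝ) by push_cast; ring, ENNReal.ofReal_natCast]
  calc μ A ≤ μ (⋃ x ∈ ball N, many X N K x) + μ {ω | ((t + 1 : ℕ) : ENNReal) ≤ f ω} :=
        (MeasureTheory.measure_mono hsub).trans (MeasureTheory.measure_union_le _ _)
    _ ≤ _ := by
        rw [ENNReal.ofReal_add (by positivity) (by positivity)]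
        exact add_le_add h4 h8

end law

end Pool.Agent.DRWC
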