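import Pool.Agent.DRWC.DispS

/-!
# Displacement with the better exponent
-/

namespace Pool.Agent.DRWC

open Pool.Agent.DRW Filter Topology

theorem ex_kn_ge {a : ℝ} (ha : 0 < a) {δ : ℝ} (hδ : 0 < δ) {N : ℕ}
    {ℓ : ℝ} (hℓ : ℓ = 1 + Real.log ((2 * N : ℕ) : ℝ)) (hℓp : 0 < ℓ) :
    (2 + δ) * ℓ ≤ ex a (2 * N) (kn a δ ℓ) := by
  have hs1 : 1 ≤ √(1 + a) := by
    rw [Real.one_le_sqrt]
    linarith
  have hs2 : √(1 + a) ^ 2 = 1 + a := Real.sq_sqrt (by linarith)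
  have h1 := le_lam_kn (a := a) (δ := δ) (ℓ := ℓ) ha
  set L := lam a (kn a δ ℓ) with hL
  set u : ℝ := √(1 + a) / a with hu
  have hu0 : 0 < u := by positivity
  have hau : a * u = √(1 + a) := by
    rw [hu]
    field_simp
  have hu2 : 2 * (1 + a) * ℓ / a ^ 2 = 2 * u ^ 2 * ℓ := by
    rw [hu, div_pow, hs2]
    ring
  unfold ex
  rw [← hL, ← hℓ, hu2]
  refine le_min ?_ ?_
  · rw [le_div_iff₀ (by positivity)]
    have h2 : (4 * u * (1 + δ) * ℓ) ^ 2 ≤ L ^ 2 := pow_le_pow_left₀ (by positivity) h1 2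
    refine le_trans ?_ h2
    have h3 : 0 ≤ u ^ 2 * ℓ ^ 2 * (24 * δ + 16 * δ ^ 2) := by positivity
    nlinarith
  · have h2 : a * (4 * u * (1 + δ) * ℓ) ≤ a * L := mul_le_mul_of_nonneg_left h1 ha.le
    have h3 : a * (4 * u * (1 + δ) * ℓ) = 4 * (a * u) * ((1 + δ) * ℓ) := by ring
    rw [h3, hau] at h2
    have h4 : 4 * 1 * ((1 + δ) * ℓ) ≤ 4 * √(1 + a) * ((1 + δ) * ℓ) :=
      mul_le_mul_of_nonneg_right (by linarith) (by positivity)
    have h5 : 0 ≤ δ * ℓ := by positivity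
    nlinarith

theorem lin_le_exp (c d : ℝ) {δ : ℝ} (hδ : 0 < δ) : ∀ᶠ ℓ : ℝ in atTop,
    c * ℓ + d ≤ Real.exp (δ * ℓ) := by
  have h1 : Tendsto (fun x : ℝ => Real.exp x / x ^ 1) atTop atTop :=
    Real.tendsto_exp_div_pow_atTop 1
  have h2 : Tendsto (fun ℓ : ℝ => δ * ℓ) atTop atTop := tendsto_id.const_mul_atTop hδ
  have h3 := (h1.comp h2).eventually_ge_atTop ((|c| + |d|) / δ)
  filter_upwards [h3, eventually_ge_atTop 1] with ℓ h4 h5
  have h6 : 0 < δ * ℓ := by positivity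
  have h7 : (|c| + |d|) / δ ≤ Real.exp (δ * ℓ) / (δ * ℓ) ^ 1 := h4
  rw [pow_one, le_div_iff₀ h6] at h7
  have h8 : (|c| + |d|) / δ * (δ * ℓ) = (|c| + |d|) * ℓ := by
    field_simp
  rw [h8] at h7
  have h9 : c * ℓ ≤ |c| * ℓ := mul_le_mul_of_nonneg_right (le_abs_self c) (by linarith)
  have h10 : d ≤ |d| * ℓ := (le_abs_self d).trans (by nlinarith [abs_nonneg d])
  nlinarith

section law

variable {Ω : Type} [MeasurableSpace Ω]

theorem core_bound {a : ℝ} (ha : 0 < a) {μ : MeasureTheory.Measure Ω}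
    [MeasureTheory.IsProbabilityMeasure μ] {X : ℕ → Ω → ℤ × ℤ} (hX : ∀ n, Measurable (X n))
    (hlaw : ∀ (n : ℕ) (s : ℕ → ℤ × ℤ), μ {ω | ∀ k ≤ n, X k ω = s k} =
     if s 0 = 0 then
       ENNReal.ofReal (∏ k ∈ Finset.range n,
        (if (s (k+1) - s k).1.natAbs + (s (k+1) - s k).2.natAbs = 1 then
          (a + (((Finset.range k).filter (fun j => s j = s k ∧ s (j+1) = s (k+1))).card : ℝ)) /
          (4 * a + (((Finset.range k).filter (fun j => s j = s k)).card : ℝ))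
        else 0))
     else 0) {δ : ℝ} (hδ : 0 < δ) (hδ' : δ ≤ 1 / 4) :
    ∃ ℓ0 : ℝ, ∀ N : ℕ, 1 ≤ N → ∀ ℓ : ℝ, ℓ = 1 + Real.log ((2 * N : ℕ) : ℝ) → ℓ0 ≤ ℓ →
      ∀ t : ℕ, Real.exp ((dx a + (4 * (√(1 + a) / a) + 2) * δ) * ℓ) ≤ t + 1 →
        μ {ω | ∀ j ≤ t, X j ω ∈ ball N} ≤ ENNReal.ofReal (2 * Real.exp (-(δ * ℓ))) := by
  set u : ℝ := √(1 + a) / a with hu
  have hu0 : 0 < u := by positivity
  obtain ⟨ℓ1, hℓ1⟩ := eventually_atTop.mp
    (lin_le_exp (Real.exp 1 * (4 * a * (4 * u * (1 + δ)))) (1 + Real.exp 1 * (4 * a + 1)) hδ)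
  refine ⟨max ℓ1 (3 * (1 + 1 / (4 * a))), ?_⟩
  intro N hN ℓ hℓ hℓ0 t ht
  have h1 := hℓ1 ℓ ((le_max_left _ _).trans hℓ0)
  have h2 : 3 * (1 + 1 / (4 * a)) ≤ ℓ := (le_max_right _ _).trans hℓ0
  have hℓp : 0 < ℓ := by
    have : 0 < 3 * (1 + 1 / (4 * a)) := by positivity
    linarith
  refine (stay_le' ha hX hlaw hN (kn_pos (δ := δ) (ℓ := ℓ) ha) t).trans
    (ENNReal.ofReal_le_ofReal ?_)
  have hb : ((2 * N + 1) ^ 2 : ℝ) ≤ Real.exp (2 * ℓ) := by
    have hN' : (1 : ℝ) ≤ N := by exact_mod_cast hN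
    have h3 : Real.exp ℓ = Real.exp 1 * (2 * N) := by
      rw [hℓ, Real.exp_add, Real.exp_log (by positivity)]
      push_cast
      ring
    have h4 : 2 ≤ Real.exp 1 := by
      have := Real.add_one_le_exp (1 : ℝ)
      linarith
    have h5 : (2 * N + 1 : ℝ) ≤ Real.exp ℓ := by
      rw [h3]
      nlinarith
    have h6 : Real.exp (2 * ℓ) = Real.exp ℓ ^ 2 := by
      rw [← Real.exp_nat_mul]
      push_cast
      ring_nf
    rw [h6]
    exact pow_le_pow_left₀ (by positivity) h5 2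
  have h3 : ((2 * N + 1) ^ 2 : ℝ) * Real.exp (-ex a (2 * N) (kn a δ ℓ)) ≤
      Real.exp (-(δ * ℓ)) := by
    have h4 := ex_kn_ge ha hδ hℓ hℓp
    calc ((2 * N + 1) ^ 2 : ℝ) * Real.exp (-ex a (2 * N) (kn a δ ℓ))
        ≤ Real.exp (2 * ℓ) * Real.exp (-((2 + δ) * ℓ)) :=
          mul_le_mul hb (Real.exp_le_exp.mpr (by linarith)) (Real.exp_pos _).le
            (Real.exp_pos _).le
      _ = Real.exp (-(δ * ℓ)) := by
          rw [← Real.exp_add]
          congr 1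
          ring
  have hdx : 2 ≤ dx a := by
    have h4 : 0 ≤ 4 * u * (1 - slp a) := by
      have := slp_le a
      have : 0 ≤ 1 - slp a := by linarith
      positivity
    have h5 : dx a = 2 + 2 * (slp a * u) ^ 2 + 4 * u * (1 - slp a) := rfl
    have h6 : 0 ≤ 2 * (slp a * u) ^ 2 := by positivity
    linarith
  have h4 : 1 + ∑ k ∈ Finset.Ico 1 (kn a δ ℓ), Real.exp (-ex a (2 * N) k) ≤
      Real.exp ((dx a - 2 + 4 * u * δ) * ℓ) * Real.exp (δ * ℓ) := by
    have h5 := sum_exp_le ha hδ hδ' hN hℓ h2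
    rw [← hu] at h5
    have h6 : 1 ≤ Real.exp ((dx a - 2 + 4 * u * δ) * ℓ) := by
      apply Real.one_le_exp
      have : 0 ≤ dx a - 2 := by linarith
      positivity
    calc 1 + ∑ k ∈ Finset.Ico 1 (kn a δ ℓ), Real.exp (-ex a (2 * N) k)
        ≤ Real.exp ((dx a - 2 + 4 * u * δ) * ℓ) * 1 +
          Real.exp ((dx a - 2 + 4 * u * δ) * ℓ) *
          (Real.exp 1 * (4 * a * (4 * u * (1 + δ) * ℓ + 1) + 1)) := by linarith
      _ = Real.exp ((dx a - 2 + 4 * u * δ) * ℓ) *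
          (Real.exp 1 * (4 * a * (4 * u * (1 + δ))) * ℓ + (1 + Real.exp 1 * (4 * a + 1))) := by
          ring
      _ ≤ _ := mul_le_mul_of_nonneg_left h1 (Real.exp_pos _).le
  have h5 : ((2 * N + 1) ^ 2 : ℝ) *
      (1 + ∑ k ∈ Finset.Ico 1 (kn a δ ℓ), Real.exp (-ex a (2 * N) k)) / (t + 1) ≤
      Real.exp (-(δ * ℓ)) := by
    rw [div_le_iff₀ (by positivity)]
    calc ((2 * N + 1) ^ 2 : ℝ) *
        (1 + ∑ k ∈ Finset.Ico 1 (kn a δ ℓ), Real.exp (-ex a (2 * N) k))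
        ≤ Real.exp (2 * ℓ) * (Real.exp ((dx a - 2 + 4 * u * δ) * ℓ) * Real.exp (δ * ℓ)) := by
          refine mul_le_mul hb h4 ?_ (Real.exp_pos _).le
          have : 0 ≤ ∑ k ∈ Finset.Ico 1 (kn a δ ℓ), Real.exp (-ex a (2 * N) k) :=
            Finset.sum_nonneg fun k _ => (Real.exp_pos _).le
          linarith
      _ = Real.exp (-(δ * ℓ)) * Real.exp ((dx a + (4 * u + 2) * δ) * ℓ) := by
          rw [← Real.exp_add, ← Real.exp_add, ← Real.exp_add]
          congr 1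
          ring
      _ ≤ _ := mul_le_mul_of_nonneg_left ht (Real.exp_pos _).le
  linarith

theorem displacement' {a : ℝ} (ha : 0 < a) {μ : MeasureTheory.Measure Ω}
    [MeasureTheory.IsProbabilityMeasure μ] {X : ℕ → Ω → ℤ × ℤ} (hX : ∀ n, Measurable (X n))
    (hlaw : ∀ (n : ℕ) (s : ℕ → ℤ × ℤ), μ {ω | ∀ k ≤ n, X k ω = s k} =
     if s 0 = 0 then
       ENNReal.ofReal (∏ k ∈ Finset.range n,
        (if (s (k+1) - s k).1.natAbs + (s (k+1) - s k).2.natAbs = 1 then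
          (a + (((Finset.range k).filter (fun j => s j = s k ∧ s (j+1) = s (k+1))).card : ℝ)) /
          (4 * a + (((Finset.range k).filter (fun j => s j = s k)).card : ℝ))
        else 0))
     else 0) {D : ℝ} (hD : dx a < D) :
    ∀ᵐ ω ∂μ, ∀ᶠ n : ℕ in atTop, ∃ j ≤ n,
      (n : ℝ) ^ (1 / D) ≤ (X j ω).1.natAbs + (X j ω).2.natAbs := by
  set u : ℝ := √(1 + a) / a with hu
  have hu0 : 0 < u := by positivity
  have hdx : 2 ≤ dx a := by
    have h4 : 0 ≤ 4 * u * (1 - slp a) := by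
      have := slp_le a
      have : 0 ≤ 1 - slp a := by linarith
      positivity
    have h5 : dx a = 2 + 2 * (slp a * u) ^ 2 + 4 * u * (1 - slp a) := rfl
    have h6 : 0 ≤ 2 * (slp a * u) ^ 2 := by positivity
    linarith
  set δ : ℝ := min (1 / 4) ((D - dx a) / (2 * (4 * u + 2))) with hδdef
  have hδ : 0 < δ := lt_min (by norm_num) (div_pos (by linarith) (by positivity))
  have hδ' : δ ≤ 1 / 4 := min_le_left _ _
  have hδ2 : (4 * u + 2) * δ ≤ (D - dx a) / 2 := by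
    have h1 : δ ≤ (D - dx a) / (2 * (4 * u + 2)) := min_le_right _ _
    rw [le_div_iff₀ (by positivity)] at h1
    linarith
  set E : ℝ := dx a + (4 * u + 2) * δ with hE
  have hE0 : 0 < E := by positivity
  have hED : E < D := by linarith
  have hD0 : 0 < D := by linarith
  obtain ⟨ℓ0, hcore⟩ := core_bound ha hX hlaw hδ hδ'
  have hl := log_two_bounds
  set ell : ℕ → ℝ := fun m => 1 + Real.log ((2 * 2 ^ m : ℕ) : ℝ) with hell
  have hell2 : ∀ m, ell m = 1 + Real.log 2 + m * Real.log 2 := by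
    intro m
    show 1 + Real.log ((2 * 2 ^ m : ℕ) : ℝ) = _
    push_cast
    rw [Real.log_mul (by norm_num) (by positivity), Real.log_pow]
    ring
  have hellt : Tendsto ell atTop atTop := by
    have h1 : Tendsto (fun m : ℕ => (m : ℝ) * Real.log 2) atTop atTop :=
      tendsto_natCast_atTop_atTop.atTop_mul_const (by linarith)
    have h2 := tendsto_atTop_add_const_left atTop (1 + Real.log 2) h1
    refine h2.congr fun m => ?_
    rw [hell2]
  obtain ⟨m0, hm0⟩ := eventually_atTop.mp (hellt.eventually_ge_atTop ℓ0)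
  set td : ℕ → ℕ := fun m => ⌈Real.exp (E * ell m)⌉₊ with htd
  have h1 : ∀ m, μ {ω | ∀ j ≤ td (m + m0), X j ω ∈ ball (2 ^ (m + m0))} ≤
      ENNReal.ofReal (2 * Real.exp (-(δ * Real.log 2)) ^ m) := by
    intro m
    have h2 := hcore (2 ^ (m + m0)) Nat.one_le_two_pow (ell (m + m0)) rfl
      (hm0 _ (Nat.le_add_left _ _)) (td (m + m0)) (by
        have := Nat.le_ceil (Real.exp (E * ell (m + m0)))
        have h3 : ((td (m + m0) : ℕ) : ℝ) = (⌈Real.exp (E * ell (m + m0))⌉₊ : ℝ) := rfl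
        rw [h3]
        linarith)
    refine h2.trans (ENNReal.ofReal_le_ofReal ?_)
    rw [← Real.exp_nat_mul]
    refine mul_le_mul_of_nonneg_left (Real.exp_le_exp.mpr ?_) (by norm_num)
    rw [hell2]
    push_cast
    have h3 : 0 ≤ δ * (1 + Real.log 2 + m0 * Real.log 2) := by positivity
    nlinarith
  have hsum : ∑' m, μ {ω | ∀ j ≤ td (m + m0), X j ω ∈ ball (2 ^ (m + m0))} ≠ ⊤ := by
    refine ne_top_of_le_ne_top ?_ (ENNReal.tsum_le_tsum h1)
    have h2 : Summable fun m : ℕ => 2 * Real.exp (-(δ * Real.log 2)) ^ m := by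
      refine Summable.mul_left 2 (summable_geometric_of_lt_one (Real.exp_pos _).le ?_)
      rw [Real.exp_lt_one_iff]
      have : 0 < δ * Real.log 2 := by
        have : 0 < Real.log 2 := by linarith
        positivity
      linarith
    rw [← ENNReal.ofReal_tsum_of_nonneg (fun m => by positivity) h2]
    exact ENNReal.ofReal_ne_top
  filter_upwards [MeasureTheory.ae_eventually_notMem hsum] with ω hω
  obtain ⟨m1, hm1⟩ := eventually_atTop.mp hω
  have hm1' : ∀ m, m1 + m0 ≤ m → ∃ j ≤ td m, X j ω ∉ ball (2 ^ m) := by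
    intro m hm
    have h2 := hm1 (m - m0) (by omega)
    have h3 : m - m0 + m0 = m := by omega
    rw [h3] at h2
    by_contra hcon
    push Not at hcon
    exact h2 hcon
  have he0 : 0 < 1 / D := by positivity
  have ht1 : Tendsto (fun n : ℕ => (n : ℝ) ^ (1 / D)) atTop atTop :=
    (tendsto_rpow_atTop he0).comp tendsto_natCast_atTop_atTop
  have hr0 : 0 < 1 - E / D := by
    rw [sub_pos, div_lt_one hD0]
    exact hED
  have ht2 : Tendsto (fun n : ℕ => (n : ℝ) ^ (1 - E / D)) atTop atTop :=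
    (tendsto_rpow_atTop hr0).comp tendsto_natCast_atTop_atTop
  filter_upwards [ht1.eventually_gt_atTop ((2 : ℝ) ^ (m1 + m0)), ht1.eventually_gt_atTop 1,
    ht2.eventually_ge_atTop ((4 * Real.exp 1) ^ E + 1), eventually_ge_atTop 1]
    with n h1 h2 h3 h4
  have hn1 : (1 : ℝ) ≤ n := by exact_mod_cast h4
  have hn0 : (0 : ℝ) < n := by linarith
  have hex : ∃ m : ℕ, (n : ℝ) ^ (1 / D) ≤ (2 : ℝ) ^ m := by
    obtain ⟨m, hm⟩ := pow_unbounded_of_one_lt ((n : ℝ) ^ (1 / D)) (by norm_num : (1 : ℝ) < 2)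
    exact ⟨m, hm.le⟩
  classical
  set m := Nat.find hex with hm
  have hm2 : (n : ℝ) ^ (1 / D) ≤ (2 : ℝ) ^ m := Nat.find_spec hex
  have hm3 : m1 + m0 ≤ m := by
    by_contra h
    push Not at h
    have : (2 : ℝ) ^ m ≤ (2 : ℝ) ^ (m1 + m0) := pow_le_pow_right₀ (by norm_num) h.le
    linarith
  have hm4 : 1 ≤ m := by
    by_contra h
    have h5 : m = 0 := by omega
    rw [h5, pow_zero] at hm2
    linarith
  have hm5 : (2 : ℝ) ^ (m - 1) < (n : ℝ) ^ (1 / D) := by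
    have := Nat.find_min hex (show m - 1 < m by omega)
    push Not at this
    exact this
  have hN2 : (2 : ℝ) ^ m ≤ 2 * (n : ℝ) ^ (1 / D) := by
    have h5 : (2 : ℝ) ^ m = 2 * (2 : ℝ) ^ (m - 1) := by
      rw [← pow_succ']
      congr 1
      omega
    rw [h5]
    linarith
  have hexp : Real.exp (E * ell m) ≤ (4 * Real.exp 1) ^ E * (n : ℝ) ^ (E / D) := by
    have h5 : Real.exp (ell m) ≤ 4 * Real.exp 1 * (n : ℝ) ^ (1 / D) := by
      show Real.exp (1 + Real.log ((2 * 2 ^ m : ℕ) : ℝ)) ≤ _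
      rw [Real.exp_add, Real.exp_log (by positivity)]
      push_cast
      have := mul_le_mul_of_nonneg_left hN2 (by positivity : 0 ≤ 2 * Real.exp 1)
      linarith
    have h6 : Real.exp (E * ell m) = Real.exp (ell m) ^ E := by
      rw [mul_comm, Real.exp_mul]
    rw [h6]
    refine (Real.rpow_le_rpow (Real.exp_pos _).le h5 hE0.le).trans (le_of_eq ?_)
    rw [Real.mul_rpow (by positivity) (by positivity), ← Real.rpow_mul hn0.le]
    congr 2
    ring
  have htdn : (td m : ℝ) ≤ n := by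
    have h5 : (td m : ℝ) < Real.exp (E * ell m) + 1 := Nat.ceil_lt_add_one (Real.exp_pos _).le
    have h6 : 1 ≤ (n : ℝ) ^ (E / D) := Real.one_le_rpow hn1 (by positivity)
    have h7 : (n : ℝ) ^ (E / D) * (n : ℝ) ^ (1 - E / D) = n := by
      rw [← Real.rpow_add hn0]
      have : E / D + (1 - E / D) = 1 := by ring
      rw [this, Real.rpow_one]
    have h8 : (n : ℝ) ^ (E / D) * ((4 * Real.exp 1) ^ E + 1) ≤
        (n : ℝ) ^ (E / D) * (n : ℝ) ^ (1 - E / D) :=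
      mul_le_mul_of_nonneg_left h3 (by positivity)
    rw [h7] at h8
    nlinarith
  obtain ⟨j, hj, hj2⟩ := hm1' m hm3
  refine ⟨j, ?_, ?_⟩
  · have h7 : (j : ℝ) ≤ n := by
      have : (j : ℝ) ≤ (td m : ℝ) := by exact_mod_cast hj
      linarith
    exact_mod_cast h7
  · rw [mem_ball, not_lt] at hj2
    have h7 : (2 : ℝ) ^ m ≤ (((X j ω).1.natAbs + (X j ω).2.natAbs : ℕ) : ℝ) := by
      exact_mod_cast hj2
    push_cast at h7
    exact hm2.trans h7

end law

end Pool.Agent.DRWC
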