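import Pool.Agent.DRWC.PongV

/-!
# Upper bound for the number of visited vertices
-/

namespace Pool.Agent.DRWC

open Pool.Agent.DRW Filter Topology

theorem rho_ge {a : ℝ} (ha : 0 < a) (j : ℕ) :
    Real.exp (-(3 * a / (a + ((j / 2 : ℕ) : ℝ)))) ≤ rho a j := by
  unfold rho
  set i : ℝ := ((j / 2 : ℕ) : ℝ) with hi
  have hi0 : 0 ≤ i := Nat.cast_nonneg _
  have h1 := Real.add_one_le_exp (3 * a / (a + i))
  rw [Real.exp_neg, inv_le_comm₀ (Real.exp_pos _) (by positivity), inv_div]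
  refine le_trans (le_of_eq ?_) h1
  field_simp
  ring

theorem sum_rho {a : ℝ} (ha : 0 < a) (n : ℕ) :
    ∑ j ∈ Finset.range (n + 2), 3 * a / (a + ((j / 2 : ℕ) : ℝ)) ≤
      6 + 6 * a * (harmonic n : ℝ) := by
  induction n with
  | zero =>
    rw [Finset.sum_range_succ, Finset.sum_range_succ, Finset.sum_range_zero, harmonic_zero]
    have h1 : ((0 / 2 : ℕ) : ℝ) = 0 := by norm_num
    rw [h1, add_zero]
    have h3 : 3 * a / a = 3 := by field_simp
    rw [h3]
    norm_num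
  | succ n ih =>
    rw [Finset.sum_range_succ, harmonic_succ]
    push_cast
    have h1 : ((n : ℝ) + 1) / 2 ≤ (((n + 2) / 2 : ℕ) : ℝ) := by
      have h2 : n + 1 ≤ 2 * ((n + 2) / 2) := by omega
      have h3 : ((n + 1 : ℕ) : ℝ) ≤ ((2 * ((n + 2) / 2) : ℕ) : ℝ) := by exact_mod_cast h2
      push_cast at h3
      linarith
    have h2 : 3 * a / (a + (((n + 1 + 1) / 2 : ℕ) : ℝ)) ≤ 6 * a * ((n : ℝ) + 1)⁻¹ := by
      have h4 : n + 1 + 1 = n + 2 := rfl
      rw [h4, div_le_iff₀ (by positivity)]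
      have h5 : 6 * a * ((n : ℝ) + 1)⁻¹ * (((n : ℝ) + 1) / 2) = 3 * a := by
        field_simp
        ring
      calc 3 * a = 6 * a * ((n : ℝ) + 1)⁻¹ * (((n : ℝ) + 1) / 2) := h5.symm
        _ ≤ 6 * a * ((n : ℝ) + 1)⁻¹ * (a + (((n + 2) / 2 : ℕ) : ℝ)) :=
          mul_le_mul_of_nonneg_left (by linarith) (by positivity)
    rw [mul_add, ← add_assoc]
    exact add_le_add ih h2

theorem sv_ge {a : ℝ} (ha : 0 < a) (n : ℕ) :
    Real.exp (-(6 + 6 * a * (1 + Real.log n))) ≤ sv a (n + 2) 0 := by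
  have h1 : ∏ j ∈ Finset.range (n + 2), Real.exp (-(3 * a / (a + ((j / 2 : ℕ) : ℝ)))) ≤
      ∏ j ∈ Finset.range (n + 2), rho a j :=
    Finset.prod_le_prod (fun j _ => (Real.exp_pos _).le) fun j _ => rho_ge ha j
  rw [← Real.exp_sum, Finset.sum_neg_distrib] at h1
  have h2 : sv a (n + 2) 0 = ∏ j ∈ Finset.range (n + 2), rho a j := by
    unfold sv
    rw [Finset.range_eq_Ico]
  rw [h2]
  refine le_trans (Real.exp_le_exp.mpr (neg_le_neg ?_)) h1
  refine (sum_rho ha n).trans ?_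
  have h3 := mul_le_mul_of_nonneg_left (harmonic_le_one_add_log n) (by positivity : 0 ≤ 6 * a)
  linarith

theorem prob_le {a : ℝ} (ha : 0 < a) (n J : ℕ) :
    (1 - sv a (n + 1 + 1) 0) ^ J / (1 - rho a (n + 1)) ≤
      (4 * a + n + 1) / (3 * a) *
        Real.exp (-(Real.exp (-(6 + 6 * a * (1 + Real.log n))) * J)) := by
  have h0 : 0 ≤ 1 - sv a (n + 1 + 1) 0 := by
    have := sv_lt ha (Nat.zero_le (n + 1))
    linarith
  have h1 := sv_ge ha n
  have h2 : (1 - sv a (n + 1 + 1) 0) ^ J ≤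
      Real.exp (-(Real.exp (-(6 + 6 * a * (1 + Real.log n))) * J)) := by
    have h3 : 1 - sv a (n + 1 + 1) 0 ≤ Real.exp (-Real.exp (-(6 + 6 * a * (1 + Real.log n)))) := by
      refine le_trans ?_ (Real.add_one_le_exp _)
      have h4 : n + 1 + 1 = n + 2 := rfl
      rw [h4]
      linarith
    refine (pow_le_pow_left₀ h0 h3 J).trans (le_of_eq ?_)
    rw [← Real.exp_nat_mul]
    congr 1
    ring
  have h3 : 3 * a / (4 * a + n + 1) ≤ 1 - rho a (n + 1) := by
    unfold rho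
    have h4 : (((n + 1) / 2 : ℕ) : ℝ) ≤ n + 1 := by
      have : (n + 1) / 2 ≤ n + 1 := Nat.div_le_self _ _
      exact_mod_cast this
    have h5 : (0 : ℝ) ≤ (((n + 1) / 2 : ℕ) : ℝ) := Nat.cast_nonneg _
    have h6 : 1 - (a + (((n + 1) / 2 : ℕ) : ℝ)) / (4 * a + (((n + 1) / 2 : ℕ) : ℝ)) =
        3 * a / (4 * a + (((n + 1) / 2 : ℕ) : ℝ)) := by
      field_simp
      ring
    rw [h6]
    exact div_le_div_of_nonneg_left (by positivity) (by positivity) (by linarith)
  have h4 : 0 < 3 * a / (4 * a + n + 1) := by positivity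
  calc (1 - sv a (n + 1 + 1) 0) ^ J / (1 - rho a (n + 1))
      ≤ Real.exp (-(Real.exp (-(6 + 6 * a * (1 + Real.log n))) * J)) /
        (3 * a / (4 * a + n + 1)) := div_le_div₀ (Real.exp_pos _).le h2 h4 h3
    _ = _ := by
        rw [div_div_eq_mul_div, div_eq_mul_inv, div_eq_mul_inv]
        ring

theorem eventually_small {a : ℝ} (ha : 0 < a) :
    ∀ᶠ n : ℕ in atTop, (4 * a + n + 1) / (3 * a) *
        Real.exp (-(Real.exp (-(6 + 6 * a * (1 + Real.log n))) *
          (⌊5 * Real.exp (6 + 6 * a) * (n : ℝ) ^ (6 * a) * Real.log n⌋₊ : ℕ))) ≤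
      1 / (n : ℝ) ^ 2 := by
  have hlog : Tendsto (fun n : ℕ => Real.log (n : ℝ)) atTop atTop :=
    Real.tendsto_log_atTop.comp tendsto_natCast_atTop_atTop
  filter_upwards [hlog.eventually_ge_atTop 1, eventually_ge_atTop 1,
    tendsto_natCast_atTop_atTop.eventually_ge_atTop (4 * a + 1),
    tendsto_natCast_atTop_atTop.eventually_ge_atTop (2 / (3 * a))] with n h3 h4 h5 h6
  have hn1 : (1 : ℝ) ≤ n := by exact_mod_cast h4
  have hn0 : (0 : ℝ) < n := by linarith
  set q : ℝ := Real.exp (-(6 + 6 * a * (1 + Real.log n))) with hq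
  have hq0 : 0 < q := Real.exp_pos _
  have hq1 : q ≤ 1 := by
    rw [hq, Real.exp_le_one_iff]
    have : 0 ≤ 6 * a * (1 + Real.log n) := by positivity
    linarith
  have h7 : q * (5 * Real.exp (6 + 6 * a) * (n : ℝ) ^ (6 * a) * Real.log n) =
      5 * Real.log n := by
    have h8 : q * (Real.exp (6 + 6 * a) * (n : ℝ) ^ (6 * a)) = 1 := by
      rw [hq, Real.rpow_def_of_pos hn0, ← Real.exp_add, ← Real.exp_add, Real.exp_eq_one_iff]
      ring
    calc q * (5 * Real.exp (6 + 6 * a) * (n : ℝ) ^ (6 * a) * Real.log n) =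
        q * (Real.exp (6 + 6 * a) * (n : ℝ) ^ (6 * a)) * (5 * Real.log n) := by ring
      _ = 5 * Real.log n := by rw [h8, one_mul]
  have h8 : 4 * Real.log n ≤ q *
      (⌊5 * Real.exp (6 + 6 * a) * (n : ℝ) ^ (6 * a) * Real.log n⌋₊ : ℕ) := by
    have h9 := (Nat.lt_floor_add_one
      (5 * Real.exp (6 + 6 * a) * (n : ℝ) ^ (6 * a) * Real.log n)).le
    have h10 := mul_le_mul_of_nonneg_left h9 hq0.le
    rw [h7, mul_add, mul_one] at h10
    linarith
  have h9 : Real.exp (-(q *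
      (⌊5 * Real.exp (6 + 6 * a) * (n : ℝ) ^ (6 * a) * Real.log n⌋₊ : ℕ))) ≤
      ((n : ℝ) ^ 4)⁻¹ := by
    refine (Real.exp_le_exp.mpr (neg_le_neg h8)).trans (le_of_eq ?_)
    have h10 : 4 * Real.log (n : ℝ) = Real.log ((n : ℝ) ^ 4) := by
      rw [Real.log_pow]
      norm_num
    rw [h10, Real.exp_neg, Real.exp_log (by positivity)]
  have h10 : (4 * a + n + 1) / (3 * a) ≤ (n : ℝ) ^ 2 := by
    rw [div_le_iff₀ (by positivity)]
    rw [div_le_iff₀ (by positivity)] at h6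
    nlinarith
  calc (4 * a + n + 1) / (3 * a) * Real.exp (-(q *
      (⌊5 * Real.exp (6 + 6 * a) * (n : ℝ) ^ (6 * a) * Real.log n⌋₊ : ℕ)))
      ≤ (n : ℝ) ^ 2 * ((n : ℝ) ^ 4)⁻¹ :=
        mul_le_mul h10 h9 (Real.exp_pos _).le (by positivity)
    _ = 1 / (n : ℝ) ^ 2 := by
        field_simp

theorem level {s : ℕ → ℤ × ℤ} (h0 : s 0 = 0)
    (hs : ∀ k, (s (k + 1) - s k).1.natAbs + (s (k + 1) - s k).2.natAbs = 1) (j : ℕ) :
    ∀ m ≤ (s j).1.natAbs + (s j).2.natAbs, ∃ i ≤ j, (s i).1.natAbs + (s i).2.natAbs = m := by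
  induction j with
  | zero =>
    intro m hm
    refine ⟨0, le_rfl, ?_⟩
    rw [h0] at hm ⊢
    simp at hm
    rw [hm]
    rfl
  | succ j ih =>
    intro m hm
    rcases Nat.lt_or_ge ((s j).1.natAbs + (s j).2.natAbs) m with h | h
    · refine ⟨j + 1, le_rfl, ?_⟩
      have h1 := hs j
      rw [Prod.fst_sub, Prod.snd_sub] at h1
      omega
    · obtain ⟨i, hi, h2⟩ := ih m h
      exact ⟨i, by omega, h2⟩

theorem dist_lt_card {s : ℕ → ℤ × ℤ} (h0 : s 0 = 0)
    (hs : ∀ k, (s (k + 1) - s k).1.natAbs + (s (k + 1) - s k).2.natAbs = 1) {j n : ℕ}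
    (hj : j ≤ n) : (s j).1.natAbs + (s j).2.natAbs + 1 ≤
      ((Finset.range (n + 1)).image s).card := by
  have h1 : Finset.range ((s j).1.natAbs + (s j).2.natAbs + 1) ⊆
      ((Finset.range (n + 1)).image s).image (fun x => x.1.natAbs + x.2.natAbs) := by
    intro m hm
    rw [Finset.mem_range] at hm
    obtain ⟨i, hi, h2⟩ := level h0 hs j m (by omega)
    rw [Finset.mem_image]
    refine ⟨s i, ?_, h2⟩
    rw [Finset.mem_image]
    exact ⟨i, by rw [Finset.mem_range]; omega, rfl⟩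
  have h2 := (Finset.card_le_card h1).trans Finset.card_image_le
  rwa [Finset.card_range] at h2

section law

variable {Ω : Type} [MeasurableSpace Ω]

theorem range_prob {a : ℝ} (ha : 0 < a) {μ : MeasureTheory.Measure Ω} {X : ℕ → Ω → ℤ × ℤ}
    (hlaw : ∀ (n : ℕ) (s : ℕ → ℤ × ℤ), μ {ω | ∀ k ≤ n, X k ω = s k} =
     if s 0 = 0 then
       ENNReal.ofReal (∏ k ∈ Finset.range n,
        (if (s (k+1) - s k).1.natAbs + (s (k+1) - s k).2.natAbs = 1 then
          (a + (((Finset.range k).filter (fun j => s j = s k ∧ s (j+1) = s (k+1))).card : ℝ)) /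
          (4 * a + (((Finset.range k).filter (fun j => s j = s k)).card : ℝ))
        else 0))
     else 0) (n J : ℕ) :
    μ {ω | 4 * J < ((Finset.range (n + 1)).image (fun j => X j ω)).card} ≤
      ENNReal.ofReal ((1 - sv a (n + 1 + 1) 0) ^ J / (1 - rho a (n + 1))) := by
  classical
  have hgood : ∀ᵐ ω ∂μ, ∀ n, X 0 ω = 0 ∧ ∀ k < n,
      (X (k + 1) ω - X k ω).1.natAbs + (X (k + 1) ω - X k ω).2.natAbs = 1 :=
    MeasureTheory.ae_all_iff.mpr fun n => ae_good' hlaw n
  have hE : ∀ l : List (Fin 4), μ {ω | Agree l (fun k => X k ω)} =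
      ENNReal.ofReal (P (wt a 0) l) := by
    intro l
    have h1 := hlaw l.length (fun k => pos (l.drop (l.length - k)))
    have h2 := (agree_path l).zero
    rw [if_pos h2, prod_eq (agree_path l)] at h1
    exact h1
  have h1 : μ {ω | 4 * J < ((Finset.range (n + 1)).image (fun j => X j ω)).card} ≤
      μ (⋃ l ∈ (words n).filter (fun l => J ≤ fl l), {ω | Agree l (fun k => X k ω)}) := by
    apply MeasureTheory.measure_mono_ae
    filter_upwards [hgood] with ω hω hc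
    have hc' : 4 * J < ((Finset.range (n + 1)).image (fun j => X j ω)).card := hc
    obtain ⟨l, hl, hag⟩ := exists_agree (s := fun k => X k ω) (hω 0).1
      (fun k => (hω (k + 1)).2 k (Nat.lt_succ_self k)) n
    have hsub : (Finset.range (n + 1)).image (fun j => X j ω) ⊆ vis l := by
      intro x hx
      rw [Finset.mem_image] at hx
      obtain ⟨j, hj, rfl⟩ := hx
      rw [Finset.mem_range] at hj
      rw [mem_vis]
      rcases Nat.lt_or_ge j n with h2 | h2
      · right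
        exact mem_src hag (by omega)
      · left
        have h3 : j = l.length := by omega
        rw [h3]
        exact hag.last
    have h2 := (Finset.card_le_card hsub).trans (card_vis l)
    have hmem : ω ∈ ⋃ l ∈ (words n).filter (fun l => J ≤ fl l),
        {ω | Agree l (fun k => X k ω)} := by
      rw [Set.mem_iUnion₂]
      refine ⟨l, ?_, hag⟩
      rw [Finset.mem_filter, mem_words]
      exact ⟨hl, by omega⟩
    exact hmem
  refine h1.trans ((MeasureTheory.measure_biUnion_finset_le _ _).trans ?_)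
  simp only [hE]
  rw [← ENNReal.ofReal_sum_of_nonneg fun l _ => P_nonneg ha l]
  exact ENNReal.ofReal_le_ofReal (fl_sum ha n (n + 1) J (Nat.le_succ n))

/-- almost surely the number of vertices visited up to time `n` is at most
`20 e ^ (6 + 6 a) n ^ (6 a) log n` for all large `n` -/
theorem range_le {a : ℝ} (ha : 0 < a) {μ : MeasureTheory.Measure Ω} {X : ℕ → Ω → ℤ × ℤ}
    (hlaw : ∀ (n : ℕ) (s : ℕ → ℤ × ℤ), μ {ω | ∀ k ≤ n, X k ω = s k} =
     if s 0 = 0 then
       ENNReal.ofReal (∏ k ∈ Finset.range n,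
        (if (s (k+1) - s k).1.natAbs + (s (k+1) - s k).2.natAbs = 1 then
          (a + (((Finset.range k).filter (fun j => s j = s k ∧ s (j+1) = s (k+1))).card : ℝ)) /
          (4 * a + (((Finset.range k).filter (fun j => s j = s k)).card : ℝ))
        else 0))
     else 0) :
    ∀ᵐ ω ∂μ, ∀ᶠ n : ℕ in atTop,
      (∀ j ≤ n, ((X j ω).1.natAbs : ℝ) + ((X j ω).2.natAbs : ℝ) ≤
        20 * Real.exp (6 + 6 * a) * (n : ℝ) ^ (6 * a) * Real.log n) ∧
      (((Finset.range (n + 1)).image (fun j => X j ω)).card : ℝ) ≤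
        20 * Real.exp (6 + 6 * a) * (n : ℝ) ^ (6 * a) * Real.log n := by
  obtain ⟨n0, hn0⟩ := eventually_atTop.mp (eventually_small ha)
  set J : ℕ → ℕ := fun n => ⌊5 * Real.exp (6 + 6 * a) * (n : ℝ) ^ (6 * a) * Real.log n⌋₊ with hJ
  have h1 : ∀ m : ℕ, μ {ω | 4 * J (m + n0) <
      ((Finset.range (m + n0 + 1)).image (fun j => X j ω)).card} ≤
      ENNReal.ofReal (1 / ((m + n0 : ℕ) : ℝ) ^ 2) := by
    intro m
    refine (range_prob ha hlaw (m + n0) _).trans (ENNReal.ofReal_le_ofReal ?_)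
    exact (prob_le ha (m + n0) _).trans (hn0 (m + n0) (Nat.le_add_left _ _))
  have hsum : ∑' m : ℕ, μ {ω | 4 * J (m + n0) <
      ((Finset.range (m + n0 + 1)).image (fun j => X j ω)).card} ≠ ⊤ := by
    refine ne_top_of_le_ne_top ?_ (ENNReal.tsum_le_tsum h1)
    have h2 : Summable fun m : ℕ => 1 / ((m + n0 : ℕ) : ℝ) ^ 2 :=
      (summable_nat_add_iff n0).mpr (Real.summable_one_div_nat_pow.mpr (by norm_num))
    rw [← ENNReal.ofReal_tsum_of_nonneg (fun m => by positivity) h2]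
    exact ENNReal.ofReal_ne_top
  have hgood : ∀ᵐ ω ∂μ, ∀ n, X 0 ω = 0 ∧ ∀ k < n,
      (X (k + 1) ω - X k ω).1.natAbs + (X (k + 1) ω - X k ω).2.natAbs = 1 :=
    MeasureTheory.ae_all_iff.mpr fun n => ae_good' hlaw n
  filter_upwards [MeasureTheory.ae_eventually_notMem hsum, hgood] with ω hω hgd
  obtain ⟨m1, hm1⟩ := eventually_atTop.mp hω
  filter_upwards [eventually_ge_atTop (m1 + n0)] with n hn
  have h2 := hm1 (n - n0) (by omega)
  have h3 : n - n0 + n0 = n := by omega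
  rw [h3] at h2
  have h4 : ((Finset.range (n + 1)).image (fun j => X j ω)).card ≤ 4 * J n := by
    by_contra h5
    push Not at h5
    exact h2 h5
  have h5 : ((4 * J n : ℕ) : ℝ) ≤
      20 * Real.exp (6 + 6 * a) * (n : ℝ) ^ (6 * a) * Real.log n := by
    have h7 : 0 ≤ Real.log (n : ℝ) := Real.log_natCast_nonneg n
    have h8 := Nat.floor_le
      (by positivity : 0 ≤ 5 * Real.exp (6 + 6 * a) * (n : ℝ) ^ (6 * a) * Real.log n)
    have h9 : (J n : ℝ) ≤ 5 * Real.exp (6 + 6 * a) * (n : ℝ) ^ (6 * a) * Real.log n := h8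
    push_cast
    linarith
  have h6 : (((Finset.range (n + 1)).image (fun j => X j ω)).card : ℝ) ≤
      ((4 * J n : ℕ) : ℝ) := by exact_mod_cast h4
  refine ⟨fun j hj => ?_, h6.trans h5⟩
  have h7 := dist_lt_card (s := fun j => X j ω) (hgd 0).1
    (fun k => (hgd (k + 1)).2 k (Nat.lt_succ_self k)) hj
  have h8 : (((X j ω).1.natAbs + (X j ω).2.natAbs : ℕ) : ℝ) ≤
      (((Finset.range (n + 1)).image (fun j => X j ω)).card : ℝ) := by
    exact_mod_cast (Nat.le_succ _).trans h7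
  push_cast at h8
  exact h8.trans (h6.trans h5)

end law

end Pool.Agent.DRWC
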