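import Pool.Agent.DRWC.DispU
import Pool.Agent.DRWC.PongM

/-!
# The maximal number of visits to a vertex
-/

namespace Pool.Agent.DRWC

open Pool.Agent.DRW Filter Topology

section law

variable {Ω : Type} [MeasurableSpace Ω]

theorem norm_le {s : ℕ → ℤ × ℤ} (h0 : s 0 = 0)
    (hs : ∀ k, (s (k + 1) - s k).1.natAbs + (s (k + 1) - s k).2.natAbs = 1) (j : ℕ) :
    (s j).1.natAbs + (s j).2.natAbs ≤ j := by
  induction j with
  | zero =>
    rw [h0]
    simp
  | succ j ih =>
    have h1 := hs j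
    rw [Prod.fst_sub, Prod.snd_sub] at h1
    omega

/-- some vertex is visited more than `kn a δ ℓ` times up to time `2 ^ m` -/
theorem fav_prob {a : ℝ} (ha : 0 < a) {μ : MeasureTheory.Measure Ω} {X : ℕ → Ω → ℤ × ℤ}
    (hlaw : ∀ (n : ℕ) (s : ℕ → ℤ × ℤ), μ {ω | ∀ k ≤ n, X k ω = s k} =
     if s 0 = 0 then
       ENNReal.ofReal (∏ k ∈ Finset.range n,
        (if (s (k+1) - s k).1.natAbs + (s (k+1) - s k).2.natAbs = 1 then
          (a + (((Finset.range k).filter (fun j => s j = s k ∧ s (j+1) = s (k+1))).card : ℝ)) /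
          (4 * a + (((Finset.range k).filter (fun j => s j = s k)).card : ℝ))
        else 0))
     else 0) {δ : ℝ} (hδ : 0 < δ) (m : ℕ) {ℓ : ℝ}
    (hℓ : ℓ = 1 + Real.log ((2 * 2 ^ (m + 1) : ℕ) : ℝ)) :
    μ {ω | ∃ x, kn a δ ℓ < ((Finset.range (2 ^ m + 1)).filter (fun j => X j ω = x)).card} ≤
      ENNReal.ofReal (Real.exp (-(δ * ℓ))) := by
  classical
  have hgood : ∀ᵐ ω ∂μ, ∀ n, X 0 ω = 0 ∧ ∀ k < n,
      (X (k + 1) ω - X k ω).1.natAbs + (X (k + 1) ω - X k ω).2.natAbs = 1 :=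
    MeasureTheory.ae_all_iff.mpr fun n => ae_good' hlaw n
  have hN : 1 ≤ 2 ^ (m + 1) := Nat.one_le_two_pow
  have hℓp : 0 < ℓ := by
    rw [hℓ]
    have := Real.log_natCast_nonneg (2 * 2 ^ (m + 1))
    linarith
  have h1 : μ {ω | ∃ x, kn a δ ℓ <
      ((Finset.range (2 ^ m + 1)).filter (fun j => X j ω = x)).card} ≤
      μ (⋃ x ∈ ball (2 ^ (m + 1)), many X (2 ^ (m + 1)) (kn a δ ℓ) x) := by
    apply MeasureTheory.measure_mono_ae
    filter_upwards [hgood] with ω hω hc
    obtain ⟨x, hx⟩ : ∃ x, kn a δ ℓ <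
      ((Finset.range (2 ^ m + 1)).filter (fun j => X j ω = x)).card := hc
    have h2 : ∀ j ≤ 2 ^ m, (X j ω).1.natAbs + (X j ω).2.natAbs < 2 ^ (m + 1) := by
      intro j hj
      have h3 := norm_le (s := fun j => X j ω) (hω 0).1
        (fun k => (hω (k + 1)).2 k (Nat.lt_succ_self k)) j
      have h4 : 0 < 2 ^ m := Nat.two_pow_pos m
      have h5 : (X j ω).1.natAbs + (X j ω).2.natAbs ≤ j := h3
      rw [pow_succ]
      omega
    have h3 : 0 < ((Finset.range (2 ^ m + 1)).filter (fun j => X j ω = x)).card := by omega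
    rw [Finset.card_pos] at h3
    obtain ⟨j, hj⟩ := h3
    rw [Finset.mem_filter, Finset.mem_range] at hj
    have hmem : ω ∈ ⋃ x ∈ ball (2 ^ (m + 1)), many X (2 ^ (m + 1)) (kn a δ ℓ) x := by
      rw [Set.mem_iUnion₂]
      refine ⟨x, ?_, 2 ^ m, h2, hx⟩
      rw [mem_ball, ← hj.2]
      exact h2 j (by omega)
    exact hmem
  refine h1.trans ((MeasureTheory.measure_biUnion_finset_le _ _).trans ?_)
  refine (Finset.sum_le_sum fun x _ =>
    many_le ha hlaw hN (kn_pos (δ := δ) (ℓ := ℓ) ha) x).trans ?_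
  have hb : ((ball (2 ^ (m + 1))).card : ℝ) ≤ Real.exp (2 * ℓ) := by
    have h3 : ((ball (2 ^ (m + 1))).card : ℝ) ≤ ((2 * (2 ^ (m + 1) : ℕ) + 1) ^ 2 : ℝ) := by
      exact_mod_cast card_ball (2 ^ (m + 1))
    refine h3.trans ?_
    have hN' : (1 : ℝ) ≤ ((2 ^ (m + 1) : ℕ) : ℝ) := by exact_mod_cast hN
    have h3 : Real.exp ℓ = Real.exp 1 * (2 * ((2 ^ (m + 1) : ℕ) : ℝ)) := by
      rw [hℓ, Real.exp_add, Real.exp_log (by positivity)]
      push_cast
      ring
    have h4 : 2 ≤ Real.exp 1 := by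
      have := Real.add_one_le_exp (1 : ℝ)
      linarith
    have h5 : (2 * ((2 ^ (m + 1) : ℕ) : ℝ) + 1 : ℝ) ≤ Real.exp ℓ := by
      rw [h3]
      nlinarith
    have h6 : Real.exp (2 * ℓ) = Real.exp ℓ ^ 2 := by
      rw [← Real.exp_nat_mul]
      push_cast
      ring_nf
    rw [h6]
    exact pow_le_pow_left₀ (by positivity) h5 2
  rw [Finset.sum_const, nsmul_eq_mul]
  have h4 := ex_kn_ge ha hδ hℓ hℓp
  calc ((ball (2 ^ (m + 1))).card : ENNReal) *
        ENNReal.ofReal (Real.exp (-ex a (2 * 2 ^ (m + 1)) (kn a δ ℓ)))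
      = ENNReal.ofReal (((ball (2 ^ (m + 1))).card : ℝ) *
        Real.exp (-ex a (2 * 2 ^ (m + 1)) (kn a δ ℓ))) := by
        rw [ENNReal.ofReal_mul (by positivity), ENNReal.ofReal_natCast]
    _ ≤ _ := by
        apply ENNReal.ofReal_le_ofReal
        calc ((ball (2 ^ (m + 1))).card : ℝ) *
              Real.exp (-ex a (2 * 2 ^ (m + 1)) (kn a δ ℓ))
            ≤ Real.exp (2 * ℓ) * Real.exp (-((2 + δ) * ℓ)) :=
              mul_le_mul hb (Real.exp_le_exp.mpr (by linarith)) (Real.exp_pos _).le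
                (Real.exp_pos _).le
          _ = Real.exp (-(δ * ℓ)) := by
              rw [← Real.exp_add]
              congr 1
              ring

/-- almost surely, for all large `n`, every vertex is visited at most `n ^ β` times up to time
`n`, and the range is at least `n ^ (1 - β)` -/
theorem fav {a : ℝ} (ha : 0 < a) {μ : MeasureTheory.Measure Ω} {X : ℕ → Ω → ℤ × ℤ}
    (hlaw : ∀ (n : ℕ) (s : ℕ → ℤ × ℤ), μ {ω | ∀ k ≤ n, X k ω = s k} =
     if s 0 = 0 then
       ENNReal.ofReal (∏ k ∈ Finset.range n,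
        (if (s (k+1) - s k).1.natAbs + (s (k+1) - s k).2.natAbs = 1 then
          (a + (((Finset.range k).filter (fun j => s j = s k ∧ s (j+1) = s (k+1))).card : ℝ)) /
          (4 * a + (((Finset.range k).filter (fun j => s j = s k)).card : ℝ))
        else 0))
     else 0) {β : ℝ} (hβ : 4 * √(1 + a) / a < β) :
    ∀ᵐ ω ∂μ, ∀ᶠ n : ℕ in atTop,
      (∀ x, (((Finset.range (n + 1)).filter (fun j => X j ω = x)).card : ℝ) ≤ (n : ℝ) ^ β) ∧
      (n : ℝ) ^ (1 - β) ≤ (((Finset.range (n + 1)).image (fun j => X j ω)).card : ℝ) := by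
  classical
  set u : ℝ := √(1 + a) / a with hu
  have hu0 : 0 < u := by positivity
  have hβ' : 4 * u < β := by
    rw [hu, ← mul_div_assoc]
    exact hβ
  set δ : ℝ := (β - 4 * u) / (8 * u) with hδd
  have hδ : 0 < δ := div_pos (by linarith) (by positivity)
  have hδ2 : 4 * u * (1 + δ) = (β + 4 * u) / 2 := by
    rw [hδd]
    field_simp
    ring
  set γ : ℝ := (β + 4 * u) / 2 with hγ
  have hγβ : γ < β := by rw [hγ]; linarith
  have hγ0 : 0 < γ := by rw [hγ]; linarith
  set ell : ℕ → ℝ := fun m => 1 + Real.log ((2 * 2 ^ (m + 1) : ℕ) : ℝ) with hell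
  have hell2 : ∀ m, ell m = 1 + 2 * Real.log 2 + m * Real.log 2 := by
    intro m
    show 1 + Real.log ((2 * 2 ^ (m + 1) : ℕ) : ℝ) = _
    push_cast
    rw [Real.log_mul (by norm_num) (by positivity), Real.log_pow]
    push_cast
    ring
  have hl := log_two_bounds
  have hlog2 : 0 < Real.log 2 := Real.log_pos (by norm_num)
  have h1 : ∀ m : ℕ, μ {ω | ∃ x, kn a δ (ell m) <
      ((Finset.range (2 ^ m + 1)).filter (fun j => X j ω = x)).card} ≤
      ENNReal.ofReal (Real.exp (-(δ * Real.log 2)) ^ m) := by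
    intro m
    refine (fav_prob ha hlaw hδ m (ℓ := ell m) rfl).trans (ENNReal.ofReal_le_ofReal ?_)
    rw [← Real.exp_nat_mul]
    refine Real.exp_le_exp.mpr ?_
    rw [hell2]
    have h3 : 0 ≤ δ * (1 + 2 * Real.log 2) := by positivity
    nlinarith
  have hsum : ∑' m : ℕ, μ {ω | ∃ x, kn a δ (ell m) <
      ((Finset.range (2 ^ m + 1)).filter (fun j => X j ω = x)).card} ≠ ⊤ := by
    refine ne_top_of_le_ne_top ?_ (ENNReal.tsum_le_tsum h1)
    have h2 : Summable fun m : ℕ => Real.exp (-(δ * Real.log 2)) ^ m := by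
      refine summable_geometric_of_lt_one (Real.exp_pos _).le ?_
      rw [Real.exp_lt_one_iff]
      have : 0 < δ * Real.log 2 := by positivity
      linarith
    rw [← ENNReal.ofReal_tsum_of_nonneg (fun m => by positivity) h2]
    exact ENNReal.ofReal_ne_top
  filter_upwards [MeasureTheory.ae_eventually_notMem hsum] with ω hω
  obtain ⟨m1, hm1⟩ := eventually_atTop.mp hω
  have hpow : Tendsto (fun n : ℕ => (n : ℝ) ^ (β - γ)) atTop atTop :=
    (tendsto_rpow_atTop (by linarith)).comp tendsto_natCast_atTop_atTop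
  filter_upwards [eventually_ge_atTop (2 ^ m1), eventually_ge_atTop 1,
    hpow.eventually_ge_atTop (4 * a * Real.exp (γ * (1 + 3 * Real.log 2)) + 1)] with n h2 h3 h4
  have hn1 : (1 : ℝ) ≤ n := by exact_mod_cast h3
  have hn0 : (0 : ℝ) < n := by linarith
  -- the power of two above `n`
  obtain ⟨m, hm1', hm2'⟩ : ∃ m : ℕ, 2 ^ m ≤ n ∧ n < 2 ^ (m + 1) :=
    ⟨Nat.log 2 n, Nat.pow_log_le_self 2 (by omega), Nat.lt_pow_succ_log_self (by norm_num) n⟩
  have hm3 : m1 ≤ m + 1 := by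
    by_contra h
    push Not at h
    have h5 : 2 ^ (m + 1) ≤ 2 ^ m1 := Nat.pow_le_pow_right (by norm_num) h.le
    omega
  have h5 := hm1 (m + 1) hm3
  have h6 : ∀ x, ((Finset.range (2 ^ (m + 1) + 1)).filter (fun j => X j ω = x)).card ≤
      kn a δ (ell (m + 1)) := by
    intro x
    by_contra h
    push Not at h
    exact h5 ⟨x, h⟩
  have h7 : (kn a δ (ell (m + 1)) : ℝ) ≤ (n : ℝ) ^ β := by
    have h8 : (kn a δ (ell (m + 1)) : ℝ) ≤
        4 * a * Real.exp (4 * u * (1 + δ) * ell (m + 1)) + 1 :=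
      (Nat.ceil_lt_add_one (by positivity)).le
    have h9 : (2 : ℝ) ^ m ≤ n := by exact_mod_cast hm1'
    have h10 : (m : ℝ) * Real.log 2 ≤ Real.log n := by
      rw [← Real.log_pow]
      exact Real.log_le_log (by positivity) h9
    have h11 : Real.exp (4 * u * (1 + δ) * ell (m + 1)) ≤
        Real.exp (γ * (1 + 3 * Real.log 2)) * (n : ℝ) ^ γ := by
      rw [Real.rpow_def_of_pos hn0, ← Real.exp_add, hδ2, hell2]
      apply Real.exp_le_exp.mpr
      push_cast
      have h12 := mul_le_mul_of_nonneg_left h10 hγ0.le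
      nlinarith
    have h12 : (1 : ℝ) ≤ (n : ℝ) ^ γ := Real.one_le_rpow hn1 hγ0.le
    calc (kn a δ (ell (m + 1)) : ℝ)
        ≤ 4 * a * (Real.exp (γ * (1 + 3 * Real.log 2)) * (n : ℝ) ^ γ) + 1 := by
          have := mul_le_mul_of_nonneg_left h11 (by positivity : 0 ≤ 4 * a)
          linarith
      _ ≤ (n : ℝ) ^ γ * (4 * a * Real.exp (γ * (1 + 3 * Real.log 2)) + 1) := by nlinarith
      _ ≤ (n : ℝ) ^ γ * (n : ℝ) ^ (β - γ) := mul_le_mul_of_nonneg_left h4 (by positivity)
      _ = (n : ℝ) ^ β := by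
          rw [← Real.rpow_add hn0]
          congr 1
          ring
  have h8 : ∀ x, (((Finset.range (n + 1)).filter (fun j => X j ω = x)).card : ℝ) ≤
      (n : ℝ) ^ β := by
    intro x
    have h9 : ((Finset.range (n + 1)).filter (fun j => X j ω = x)).card ≤
        ((Finset.range (2 ^ (m + 1) + 1)).filter (fun j => X j ω = x)).card := by
      apply Finset.card_le_card
      apply Finset.filter_subset_filter
      exact Finset.range_subset_range.mpr (by omega)
    have h10 : (((Finset.range (n + 1)).filter (fun j => X j ω = x)).card : ℝ) ≤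
        (kn a δ (ell (m + 1)) : ℝ) := by exact_mod_cast h9.trans (h6 x)
    exact h10.trans h7
  refine ⟨h8, ?_⟩
  set R : ℕ := ((Finset.range (n + 1)).image (fun j => X j ω)).card with hR
  have h9 : ((n + 1 : ℕ) : ℝ) ≤ R * (n : ℝ) ^ β := by
    have h10 : (Finset.range (n + 1)).card =
        ∑ x ∈ (Finset.range (n + 1)).image (fun j => X j ω),
          ((Finset.range (n + 1)).filter (fun j => X j ω = x)).card :=
      Finset.card_eq_sum_card_image _ _
    rw [Finset.card_range] at h10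
    rw [h10]
    push_cast
    refine (Finset.sum_le_sum fun x _ => h8 x).trans (le_of_eq ?_)
    rw [Finset.sum_const, nsmul_eq_mul]
  have h10 : 0 < (n : ℝ) ^ β := Real.rpow_pos_of_pos hn0 β
  have h11 : (n : ℝ) ^ (1 - β) * (n : ℝ) ^ β = n := by
    rw [← Real.rpow_add hn0]
    have : 1 - β + β = 1 := by ring
    rw [this, Real.rpow_one]
  have h12 : (n : ℝ) ^ (1 - β) * (n : ℝ) ^ β ≤ R * (n : ℝ) ^ β := by
    rw [h11]
    push_cast at h9
    linarith
  exact le_of_mul_le_mul_right h12 h10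

end law

end Pool.Agent.DRWC
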