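import Pool.Agent.DRWC.Stop

/-!
# From the law of the walk to the path sums
-/

namespace Pool.Agent.DRWC

open Pool.Agent.DRW Finset

theorem measure_exitK {a : ℝ} (ha : 0 < a) {Ω : Type} [MeasurableSpace Ω]
    (μ : MeasureTheory.Measure Ω) [MeasureTheory.IsProbabilityMeasure μ] (X : ℕ → Ω → ℤ × ℤ)
    (hX : ∀ n, Measurable (X n))
    (hlaw : ∀ (n : ℕ) (s : ℕ → ℤ × ℤ), μ {ω | ∀ k ≤ n, X k ω = s k} =
     if s 0 = 0 then
       ENNReal.ofReal (∏ k ∈ Finset.range n,
        (if (s (k+1) - s k).1.natAbs + (s (k+1) - s k).2.natAbs = 1 then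
          (a + (((Finset.range k).filter (fun j => s j = s k ∧ s (j+1) = s (k+1))).card : ℝ)) /
          (4 * a + (((Finset.range k).filter (fun j => s j = s k)).card : ℝ))
        else 0))
     else 0) {B : Finset (ℤ × ℤ)} (h0B : (0 : ℤ × ℤ) ∈ B) (n K : ℕ) :
    ENNReal.ofReal (∑ m ∈ Finset.range (n + 1), ∑ l ∈ exitK K B m, P (wt a 0) l) ≤
      μ {ω | ∃ n, X n ω ∉ B ∧
        ((Finset.range n).filter (fun j => 0 < j ∧ X j ω = 0)).card < K} := by
  classical
  have hexit : ∀ m, ∀ l ∈ exitK K B m, l.length = m ∧ ExitK K B l := by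
    intro m l hl
    rw [exitK, mem_filter] at hl
    exact ⟨length_words hl.1, hl.2⟩
  set S : Finset (List (Fin 4)) := (Finset.range (n + 1)).biUnion (fun m => exitK K B m) with hS
  have hSexit : ∀ l ∈ S, ExitK K B l := by
    intro l hl
    rw [hS, mem_biUnion] at hl
    obtain ⟨m, -, hm⟩ := hl
    exact (hexit m l hm).2
  let E : List (Fin 4) → Set Ω := fun l => {ω | Agree l (fun k => X k ω)}
  have hE : ∀ l, μ (E l) = ENNReal.ofReal (P (wt a 0) l) := by
    intro l
    have h1 := hlaw l.length (fun k => pos (l.drop (l.length - k)))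
    have h2 := (agree_path l).zero
    rw [if_pos h2, prod_eq (agree_path l)] at h1
    exact h1
  have hEm : ∀ l, MeasurableSet (E l) := by
    intro l
    have h1 : E l = ⋂ k ∈ Finset.range (l.length + 1), X k ⁻¹' {pos (l.drop (l.length - k))} := by
      ext ω
      simp only [E, Agree, Set.mem_ofPred_eq, Set.mem_iInter, mem_range, Set.mem_preimage,
        Set.mem_singleton_iff, Nat.lt_succ_iff]
    rw [h1]
    exact Finset.measurableSet_biInter _ fun k _ => hX k (measurableSet_singleton _)
  have hdisj : Set.PairwiseDisjoint (S : Set (List (Fin 4))) E := by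
    have key : ∀ l ∈ S, ∀ l' ∈ S, l.length ≤ l'.length → ∀ ω, ω ∈ E l → ω ∈ E l' → l = l' := by
      intro l hl l' hl' hle ω h1 h2
      have h1' : Agree l (fun k => X k ω) := h1
      have h2' : Agree l' (fun k => X k ω) := h2
      rcases hle.eq_or_lt with h3 | h3
      · exact agree_inj h1' h2' h3
      · exfalso
        have h4 := mem_src h2' h3
        have h5 := (hSexit l' hl').2.2 _ h4
        have h6 : X l.length ω = pos l := h1'.last
        have h7 : X l.length ω ∈ B := h5
        rw [h6] at h7
        exact (hSexit l hl).1 h7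
    intro l hl l' hl' hne
    rw [Function.onFun, Set.disjoint_left]
    intro ω h1 h2
    rcases le_total l.length l'.length with h | h
    · exact hne (key l hl l' hl' h ω h1 h2)
    · exact hne (key l' hl' l hl h ω h2 h1).symm
  have hsub : (⋃ l ∈ S, E l) ⊆ {ω | ∃ n, X n ω ∉ B ∧
        ((Finset.range n).filter (fun j => 0 < j ∧ X j ω = 0)).card < K} := by
    intro ω hω
    simp only [Set.mem_iUnion] at hω
    obtain ⟨l, hl, hω⟩ := hω
    have h1 : Agree l (fun k => X k ω) := hω
    obtain ⟨h2, h3, h4⟩ := hSexit l hl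
    have hlast : X l.length ω = pos l := h1.last
    have hlen : 0 < l.length := by
      rcases Nat.eq_zero_or_pos l.length with h5 | h5
      · exfalso
        rw [List.length_eq_zero_iff] at h5
        rw [h5] at h2
        exact h2 h0B
      · exact h5
    refine ⟨l.length, ?_, ?_⟩
    · rw [hlast]
      exact h2
    · have h6 := count_src h1 0
      have h7 : ((Finset.range l.length).filter (fun j => 0 < j ∧ X j ω = 0)) ⊂
          ((Finset.range l.length).filter (fun j => X j ω = 0)) := by
        rw [Finset.ssubset_iff_of_subset]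
        · refine ⟨0, ?_, ?_⟩
          · rw [mem_filter, mem_range]
            exact ⟨hlen, h1.zero⟩
          · rw [mem_filter]
            rintro ⟨-, h8, -⟩
            exact absurd h8 (lt_irrefl 0)
        · intro j hj
          rw [mem_filter] at hj ⊢
          exact ⟨hj.1, hj.2.2⟩
      have h8 := Finset.card_lt_card h7
      have h9 : ((Finset.range l.length).filter (fun j => X j ω = 0)).card = (src l).count 0 := h6
      rw [h9] at h8
      exact h8.trans_le h3
  have hsum : ∑ m ∈ Finset.range (n + 1), ∑ l ∈ exitK K B m, P (wt a 0) l =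
      ∑ l ∈ S, P (wt a 0) l := by
    rw [hS, Finset.sum_biUnion]
    intro m _ m' _ hne
    rw [Function.onFun, Finset.disjoint_left]
    intro l h1 h2
    exact hne ((hexit m l h1).1.symm.trans (hexit m' l h2).1)
  rw [hsum, ENNReal.ofReal_sum_of_nonneg fun l _ => P_nonneg ha l]
  calc ∑ l ∈ S, ENNReal.ofReal (P (wt a 0) l) = ∑ l ∈ S, μ (E l) :=
        Finset.sum_congr rfl fun l _ => (hE l).symm
    _ = μ (⋃ l ∈ S, E l) := (MeasureTheory.measure_biUnion_finset hdisj fun l _ => hEm l).symm
    _ ≤ _ := MeasureTheory.measure_mono hsub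

end Pool.Agent.DRWC
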