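import Pool.Agent.DRWC.Harm
import Pool.Agent.DRW.Meas

/-!
# The simple random walk leaves `B` before its first return with probability at most `cap B / 4`
-/

namespace Pool.Agent.DRWC

open Pool.Agent.DRW Finset

theorem gen_total {B : Finset (ℤ × ℤ)} (h0 : (0 : ℤ × ℤ) ∈ B) {k : ℕ} (hk : 1 ≤ k)
    (V : List (Fin 4) → ℝ) (hV : ∀ l, AliveK k B l → ∑ i, V (i :: l) = V l) (n : ℕ) :
    (∑ m ∈ range (n + 1), ∑ l ∈ retK k B m, V l) +
      (∑ m ∈ range (n + 1), ∑ l ∈ exitK k B m, V l) + ∑ l ∈ aliveK k B n, V l = V [] := by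
  classical
  induction n with
  | zero =>
    rw [zero_add, Finset.sum_range_one, Finset.sum_range_one, retK_zero hk, exitK_zero k h0,
      aliveK_zero hk h0, Finset.sum_empty, Finset.sum_singleton, zero_add, zero_add]
  | succ n ih =>
    rw [Finset.sum_range_succ _ (n + 1), Finset.sum_range_succ _ (n + 1)]
    have h1 : (∑ l ∈ retK k B (n + 1), V l) + (∑ l ∈ exitK k B (n + 1), V l) +
        ∑ l ∈ aliveK k B (n + 1), V l = ∑ l ∈ aliveK k B n, V l := by
      unfold retK exitK aliveK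
      rw [Finset.sum_filter, Finset.sum_filter, Finset.sum_filter, Finset.sum_filter, sum_words,
        sum_words, sum_words, ← Finset.sum_add_distrib, ← Finset.sum_add_distrib]
      refine Finset.sum_congr rfl fun l _ => ?_
      rw [← Finset.sum_add_distrib, ← Finset.sum_add_distrib]
      have h1 : ∀ i, (if RetK k B (i :: l) then V (i :: l) else 0) +
          (if ExitK k B (i :: l) then V (i :: l) else 0) +
          (if AliveK k B (i :: l) then V (i :: l) else 0) =
            if AliveK k B l then V (i :: l) else 0 :=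
        fun i => cases_iff h0 k i l _
      simp only [h1]
      by_cases h : AliveK k B l
      · simp only [if_pos h]
        exact hV l h
      · simp only [if_neg h, Finset.sum_const_zero]
    linarith

/-- The path sums of the simple random walk. -/
theorem srw_sum {B : Finset (ℤ × ℤ)} (h0 : (0 : ℤ × ℤ) ∈ B) (n : ℕ) :
    ∑ m ∈ range (n + 1), ∑ l ∈ exitK 1 B m, (1 / 4 : ℝ) ^ l.length ≤ cap B / 4 := by
  classical
  set V : List (Fin 4) → ℝ := fun l =>
    if l = [] then cap B / 4 else (1 / 4 : ℝ) ^ l.length * hh B (pos l) with hVdef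
  have hcons : ∀ i l, V (i :: l) = (1 / 4 : ℝ) ^ (l.length + 1) * hh B (pos l + d i) := by
    intro i l
    rw [hVdef]
    simp only [List.cons_ne_nil, if_false, List.length_cons]
    rfl
  have hV : ∀ l, AliveK 1 B l → ∑ i, V (i :: l) = V l := by
    intro l hl
    simp only [hcons]
    rw [← Finset.mul_sum]
    cases l with
    | nil =>
      have h1 : V [] = cap B / 4 := by
        rw [hVdef]
        simp
      rw [h1]
      show (1 / 4 : ℝ) ^ (0 + 1) * ∑ i, hh B (0 + d i) = cap B / 4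
      unfold cap
      ring
    | cons j l =>
      have h1 : pos (j :: l) ∈ B := hl.2 _ List.mem_cons_self
      have h2 : 0 < (src (j :: l)).count 0 := List.count_pos_iff.mpr (zero_mem_src j l)
      have h3 : pos (j :: l) ≠ 0 := by
        intro h
        have h4 := hl.1
        rw [h, List.count_cons_self] at h4
        omega
      have h5 := hh_harm h1 h3
      have h6 : V (j :: l) = (1 / 4 : ℝ) ^ (j :: l).length * hh B (pos (j :: l)) := by
        rw [hVdef]
        simp only [List.cons_ne_nil, if_false]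
      rw [h6, h5, pow_succ]
      ring
  have hVn : ∀ l, 0 ≤ V l := by
    intro l
    rw [hVdef]
    simp only
    split_ifs
    · have : 0 ≤ cap B := Finset.sum_nonneg fun i _ => hh_nonneg B _
      positivity
    · exact mul_nonneg (by positivity) (hh_nonneg B _)
  have htot := gen_total h0 le_rfl V hV n
  have h1 : V [] = cap B / 4 := by
    rw [hVdef]
    simp
  rw [h1] at htot
  have h2 : ∑ m ∈ range (n + 1), ∑ l ∈ exitK 1 B m, (1 / 4 : ℝ) ^ l.length =
      ∑ m ∈ range (n + 1), ∑ l ∈ exitK 1 B m, V l := by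
    refine Finset.sum_congr rfl fun m _ => Finset.sum_congr rfl fun l hl => ?_
    rw [exitK, Finset.mem_filter] at hl
    cases l with
    | nil => exact absurd h0 hl.2.1
    | cons j l =>
      have h6 : V (j :: l) = (1 / 4 : ℝ) ^ (j :: l).length * hh B (pos (j :: l)) := by
        rw [hVdef]
        simp only [List.cons_ne_nil, if_false]
      rw [h6, hh_out hl.2.1, mul_one]
  have h3 : 0 ≤ ∑ m ∈ range (n + 1), ∑ l ∈ retK 1 B m, V l :=
    Finset.sum_nonneg fun m _ => Finset.sum_nonneg fun l _ => hVn l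
  have h4 : 0 ≤ ∑ l ∈ aliveK 1 B n, V l := Finset.sum_nonneg fun l _ => hVn l
  rw [h2]
  linarith

theorem agree_cons {l : List (Fin 4)} {s : ℕ → ℤ × ℤ} (h : Agree l s) {i : Fin 4}
    (hi : s (l.length + 1) = pos l + d i) : Agree (i :: l) s := by
  intro k hk
  rw [List.length_cons] at hk ⊢
  rcases Nat.lt_or_ge l.length k with h1 | h1
  · have h2 : k = l.length + 1 := by omega
    rw [h2, Nat.sub_self, List.drop_zero, hi]
    rfl
  · rw [h k h1]
    have h2 : l.length + 1 - k = (l.length - k) + 1 := by omega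
    rw [h2, List.drop_succ_cons]

theorem exists_d {v : ℤ × ℤ} (hv : v.1.natAbs + v.2.natAbs = 1) : ∃ i, v = d i := by
  obtain ⟨x, y⟩ := v
  simp only at hv
  have h : (x = 1 ∧ y = 0) ∨ (x = 0 ∧ y = 1) ∨ (x = -1 ∧ y = 0) ∨ (x = 0 ∧ y = -1) := by omega
  rcases h with ⟨rfl, rfl⟩ | ⟨rfl, rfl⟩ | ⟨rfl, rfl⟩ | ⟨rfl, rfl⟩
  · exact ⟨0, rfl⟩
  · exact ⟨1, rfl⟩
  · exact ⟨2, rfl⟩
  · exact ⟨3, rfl⟩

theorem exists_agree {s : ℕ → ℤ × ℤ} (h0 : s 0 = 0)
    (hs : ∀ k, (s (k + 1) - s k).1.natAbs + (s (k + 1) - s k).2.natAbs = 1) (m : ℕ) :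
    ∃ l : List (Fin 4), l.length = m ∧ Agree l s := by
  induction m with
  | zero =>
    refine ⟨[], rfl, ?_⟩
    intro k hk
    have : k = 0 := by simpa using hk
    rw [this, h0]
    rfl
  | succ m ih =>
    obtain ⟨l, hl, h⟩ := ih
    obtain ⟨i, hi⟩ := exists_d (hs m)
    refine ⟨i :: l, by rw [List.length_cons, hl], agree_cons h ?_⟩
    rw [← h.last, hl, ← hi]
    abel

theorem prod_quarter {l : List (Fin 4)} {s : ℕ → ℤ × ℤ} (h : Agree l s) :
    (∏ k ∈ range l.length,
      (if (s (k + 1) - s k).1.natAbs + (s (k + 1) - s k).2.natAbs = 1 then (1 / 4 : ℝ) else 0)) =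
      (1 / 4 : ℝ) ^ l.length := by
  induction l with
  | nil => simp
  | cons i l ih =>
    rw [List.length_cons, Finset.prod_range_succ, ih h.tail, pow_succ]
    congr 1
    rw [h.head, h.tail.last, if_pos]
    rw [add_sub_cancel_left]
    exact natAbs_d i

section law

variable {Ω : Type} [MeasurableSpace Ω] {ν : MeasureTheory.Measure Ω} {Y : ℕ → Ω → ℤ × ℤ}

theorem ae_good (hlaw : ∀ (n : ℕ) (s : ℕ → ℤ × ℤ), ν {ω | ∀ k ≤ n, Y k ω = s k} =
     if s 0 = 0 then
       ENNReal.ofReal (∏ k ∈ Finset.range n,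
        (if (s (k+1) - s k).1.natAbs + (s (k+1) - s k).2.natAbs = 1 then (1 / 4 : ℝ) else 0))
     else 0) (n : ℕ) :
    ∀ᵐ ω ∂ν, Y 0 ω = 0 ∧ ∀ k < n,
      (Y (k + 1) ω - Y k ω).1.natAbs + (Y (k + 1) ω - Y k ω).2.natAbs = 1 := by
  rw [MeasureTheory.ae_iff]
  set e : (Fin (n + 1) → ℤ × ℤ) → ℕ → ℤ × ℤ :=
    fun s j => if h : j < n + 1 then s ⟨j, h⟩ else 0 with he
  refine MeasureTheory.measure_mono_null (t := ⋃ s : {s : Fin (n + 1) → ℤ × ℤ //
    ¬ (e s 0 = 0 ∧ ∀ k < n, (e s (k + 1) - e s k).1.natAbs + (e s (k + 1) - e s k).2.natAbs = 1)},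
    {ω | ∀ k ≤ n, Y k ω = e s.1 k}) ?_ (MeasureTheory.measure_iUnion_null fun s => ?_)
  · intro ω hω
    have hω' : ¬ (Y 0 ω = 0 ∧ ∀ k < n,
      (Y (k + 1) ω - Y k ω).1.natAbs + (Y (k + 1) ω - Y k ω).2.natAbs = 1) := hω
    set s : Fin (n + 1) → ℤ × ℤ := fun j => Y j ω with hs
    have hes : ∀ k ≤ n, e s k = Y k ω := by
      intro k hk
      rw [he]
      simp only
      rw [dif_pos (by omega)]
    rw [Set.mem_iUnion]
    refine ⟨⟨s, ?_⟩, fun k hk => (hes k hk).symm⟩
    rintro ⟨h1, h2⟩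
    apply hω'
    refine ⟨by rw [← hes 0 (Nat.zero_le _)]; exact h1, fun k hk => ?_⟩
    have h3 := h2 k hk
    rw [hes k hk.le, hes (k + 1) hk] at h3
    exact h3
  · obtain ⟨s, hs⟩ := s
    rw [hlaw]
    split_ifs with h0
    · have h1 : ∃ k < n, ¬ ((e s (k + 1) - e s k).1.natAbs +
          (e s (k + 1) - e s k).2.natAbs = 1) := by
        by_contra hcon
        push Not at hcon
        exact hs ⟨h0, hcon⟩
      obtain ⟨k, hk, h2⟩ := h1
      rw [Finset.prod_eq_zero (Finset.mem_range.mpr hk) (by rw [if_neg h2]), ENNReal.ofReal_zero]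
    · rfl

theorem srw_upper (hlaw : ∀ (n : ℕ) (s : ℕ → ℤ × ℤ), ν {ω | ∀ k ≤ n, Y k ω = s k} =
     if s 0 = 0 then
       ENNReal.ofReal (∏ k ∈ Finset.range n,
        (if (s (k+1) - s k).1.natAbs + (s (k+1) - s k).2.natAbs = 1 then (1 / 4 : ℝ) else 0))
     else 0) {B : Finset (ℤ × ℤ)} (h0B : (0 : ℤ × ℤ) ∈ B) :
    (ν {ω | ∃ n, Y n ω ∉ B ∧ ∀ j, 0 < j → j < n → Y j ω ≠ 0}).toReal ≤ cap B / 4 := by
  classical
  have hcap : 0 ≤ cap B / 4 := by
    have : 0 ≤ cap B := Finset.sum_nonneg fun i _ => hh_nonneg B _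
    positivity
  refine ENNReal.toReal_le_of_le_ofReal hcap ?_
  let E : List (Fin 4) → Set Ω := fun l => {ω | Agree l (fun k => Y k ω)}
  have hE : ∀ l, ν (E l) = ENNReal.ofReal ((1 / 4 : ℝ) ^ l.length) := by
    intro l
    have h1 := hlaw l.length (fun k => pos (l.drop (l.length - k)))
    have h2 := (agree_path l).zero
    rw [if_pos h2, prod_quarter (agree_path l)] at h1
    exact h1
  have hgood : ∀ᵐ ω ∂ν, ∀ n, Y 0 ω = 0 ∧ ∀ k < n,
      (Y (k + 1) ω - Y k ω).1.natAbs + (Y (k + 1) ω - Y k ω).2.natAbs = 1 :=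
    MeasureTheory.ae_all_iff.mpr fun n => ae_good hlaw n
  have h1 : ν {ω | ∃ n, Y n ω ∉ B ∧ ∀ j, 0 < j → j < n → Y j ω ≠ 0} ≤
      ν (⋃ l : {l : List (Fin 4) // ExitK 1 B l}, E l.1) := by
    apply MeasureTheory.measure_mono_ae
    filter_upwards [hgood] with ω hω hev
    obtain ⟨n, hn, hj⟩ := hev
    have hex : ∃ n, Y n ω ∉ B := ⟨n, hn⟩
    set n0 := Nat.find hex with hn0
    have hle : n0 ≤ n := Nat.find_min' hex hn
    have hout : Y n0 ω ∉ B := Nat.find_spec hex
    have hin : ∀ j < n0, Y j ω ∈ B := fun j hj => by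
      by_contra h
      exact Nat.find_min hex hj h
    obtain ⟨l, hl, hag⟩ := exists_agree (s := fun k => Y k ω) (hω 0).1
      (fun k => (hω (k + 1)).2 k (Nat.lt_succ_self k)) n0
    have hlast : Y l.length ω = pos l := hag.last
    have hmem : ω ∈ ⋃ l : {l : List (Fin 4) // ExitK 1 B l}, E l.1 := by
      rw [Set.mem_iUnion]
      refine ⟨⟨l, ?_, ?_, ?_⟩, hag⟩
      · rw [← hlast, hl]
        exact hout
      · rw [← count_src hag 0, hl]
        have h2 : (range n0).filter (fun j => Y j ω = 0) ⊆ {0} := by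
          intro j hj'
          rw [mem_filter, mem_range] at hj'
          rw [mem_singleton]
          by_contra h3
          exact hj j (Nat.pos_of_ne_zero h3) (by omega) hj'.2
        have h3 := Finset.card_le_card h2
        rwa [Finset.card_singleton] at h3
      · intro v hv
        have h2 : 0 < (src l).count v := List.count_pos_iff.mpr hv
        rw [← count_src hag v, Finset.card_pos] at h2
        obtain ⟨j, hj'⟩ := h2
        rw [mem_filter, mem_range, hl] at hj'
        rw [← hj'.2]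
        exact hin j hj'.1
    exact hmem
  refine h1.trans ((MeasureTheory.measure_iUnion_le _).trans ?_)
  rw [ENNReal.tsum_eq_iSup_sum]
  refine iSup_le fun F => ?_
  have h2 : ∑ l ∈ F, ν (E l.1) = ENNReal.ofReal (∑ l ∈ F, (1 / 4 : ℝ) ^ l.1.length) := by
    rw [ENNReal.ofReal_sum_of_nonneg fun l _ => by positivity]
    exact Finset.sum_congr rfl fun l _ => hE l.1
  rw [h2]
  apply ENNReal.ofReal_le_ofReal
  set n : ℕ := F.sup fun l => l.1.length with hn
  refine le_trans ?_ (srw_sum h0B n)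
  have h3 : ∑ m ∈ range (n + 1), ∑ l ∈ exitK 1 B m, (1 / 4 : ℝ) ^ l.length =
      ∑ l ∈ (range (n + 1)).biUnion (fun m => exitK 1 B m), (1 / 4 : ℝ) ^ l.length := by
    rw [Finset.sum_biUnion]
    intro m _ m' _ hne
    rw [Function.onFun, Finset.disjoint_left]
    intro l h1 h2
    rw [exitK, mem_filter] at h1 h2
    exact hne ((length_words h1.1).symm.trans (length_words h2.1))
  have h4 : ∑ l ∈ F, (1 / 4 : ℝ) ^ l.1.length =
      ∑ l ∈ F.map ⟨Subtype.val, Subtype.val_injective⟩, (1 / 4 : ℝ) ^ l.length := by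
    rw [Finset.sum_map]
    rfl
  rw [h3, h4]
  refine Finset.sum_le_sum_of_subset_of_nonneg ?_ fun l _ _ => by positivity
  intro l hl
  rw [mem_map] at hl
  obtain ⟨l', hl', rfl⟩ := hl
  rw [mem_biUnion]
  refine ⟨l'.1.length, ?_, ?_⟩
  · rw [mem_range]
    have := Finset.le_sup (f := fun l : {l : List (Fin 4) // ExitK 1 B l} => l.1.length) hl'
    show l'.1.length < n + 1
    omega
  · rw [exitK, mem_filter, mem_words]
    exact ⟨rfl, l'.2⟩

end law

end Pool.Agent.DRWC
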