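import Pool.Agent.DRWC.Ana
import Pool.Agent.DRWC.MeasK
import Pool.Agent.DRWC.Srw
import Pool.Agent.DRW.Flow

/-!
# Lower bounds for the escape probability
-/

namespace Pool.Agent.DRWC

open Pool.Agent.DRW

theorem energy_ge {θ : ℤ × ℤ → Fin 4 → ℝ} {B : Finset (ℤ × ℤ)} (h0 : (0 : ℤ × ℤ) ∈ B)
    (hdiv : ∀ x ∈ B, ∑ i, θ x i = if x = 0 then 1 else 0) :
    1 / 4 ≤ ∑ x ∈ B, ∑ i, θ x i ^ 2 := by
  have h1 := hdiv 0 h0
  rw [if_pos rfl, Fin.sum_univ_four] at h1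
  have h2 : ∑ i, θ 0 i ^ 2 ≤ ∑ x ∈ B, ∑ i, θ x i ^ 2 :=
    Finset.single_le_sum (f := fun x => ∑ i, θ x i ^ 2)
      (fun x _ => Finset.sum_nonneg fun i _ => sq_nonneg _) h0
  refine le_trans ?_ h2
  rw [Fin.sum_univ_four]
  nlinarith [sq_nonneg (θ 0 0 - 1 / 4), sq_nonneg (θ 0 1 - 1 / 4), sq_nonneg (θ 0 2 - 1 / 4),
    sq_nonneg (θ 0 3 - 1 / 4)]

/-- The choice of the parameter in the exponential bound. -/
theorem choose_gamma {S L g : ℝ} (hS : 0 < S) (hL : 0 < L) (hg : 0 < g) :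
    ∃ γ, 0 ≤ γ ∧ γ ≤ g ∧ γ ^ 2 * S - γ * L ≤ -min (L ^ 2 / (4 * S)) (g * L / 2) := by
  rcases le_or_gt (L / (2 * S)) g with h | h
  · refine ⟨L / (2 * S), by positivity, h, ?_⟩
    have h1 : (L / (2 * S)) ^ 2 * S - L / (2 * S) * L = -(L ^ 2 / (4 * S)) := by
      field_simp
      ring
    rw [h1]
    exact neg_le_neg (min_le_left _ _)
  · refine ⟨g, hg.le, le_rfl, ?_⟩
    have h1 : 2 * S * g < L := by
      rw [lt_div_iff₀ (by positivity)] at h
      linarith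
    have h2 : g ^ 2 * S - g * L ≤ -(g * L / 2) := by nlinarith
    exact h2.trans (neg_le_neg (min_le_right _ _))

section law

variable {Ω : Type} [MeasurableSpace Ω]

theorem lower_gen {a : ℝ} (ha : 0 < a) (μ : MeasureTheory.Measure Ω)
    [MeasureTheory.IsProbabilityMeasure μ] (X : ℕ → Ω → ℤ × ℤ) (hX : ∀ n, Measurable (X n))
    (hlaw : ∀ (n : ℕ) (s : ℕ → ℤ × ℤ), μ {ω | ∀ k ≤ n, X k ω = s k} =
     if s 0 = 0 then
       ENNReal.ofReal (∏ k ∈ Finset.range n,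
        (if (s (k+1) - s k).1.natAbs + (s (k+1) - s k).2.natAbs = 1 then
          (a + (((Finset.range k).filter (fun j => s j = s k ∧ s (j+1) = s (k+1))).card : ℝ)) /
          (4 * a + (((Finset.range k).filter (fun j => s j = s k)).card : ℝ))
        else 0))
     else 0) {B : Finset (ℤ × ℤ)} (h0 : (0 : ℤ × ℤ) ∈ B) {θ : ℤ × ℤ → Fin 4 → ℝ}
    (hθ : ∀ x i, θ (x + d i) (opp i) = -θ x i)
    (hdiv : ∀ x ∈ B, ∑ i, θ x i = if x = 0 then 1 else 0) {S g : ℝ}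
    (hS : (1 / a ^ 2 + 1 / a) * ∑ x ∈ B, ∑ i, θ x i ^ 2 ≤ S) (hg : 0 < g)
    (hgθ : ∀ x ∈ B, ∀ i, g * |θ x i| ≤ 2 / 3 * a) {k : ℕ} (hk : 1 ≤ k) {q : ℝ}
    (hq : q = (μ {ω | ∃ n, X n ω ∉ B ∧
      ((Finset.range n).filter (fun j => 0 < j ∧ X j ω = 0)).card < k}).toReal) :
    2 / 5 * min 1 (lam a k / √S) ≤ q ∧
      1 - Real.exp (-min (lam a k ^ 2 / (4 * S)) (g * lam a k / 2)) ≤ q := by
  have hE := energy_ge h0 hdiv
  have hS1 : 1 / (4 * a ^ 2) ≤ S := by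
    refine le_trans ?_ hS
    have h1 : (1 / a ^ 2) * (1 / 4) ≤ (1 / a ^ 2 + 1 / a) * ∑ x ∈ B, ∑ i, θ x i ^ 2 := by
      refine mul_le_mul ?_ hE (by norm_num) (by positivity)
      have : 0 < 1 / a := by positivity
      linarith
    refine le_trans (le_of_eq ?_) h1
    field_simp
  have hS0 : 0 < S := lt_of_lt_of_le (by positivity) hS1
  have hL := lam_pos ha hk
  have hex : ∀ n, exK a k B n ≤ q := by
    intro n
    rw [hq]
    have h := measure_exitK ha μ X hX hlaw h0 n k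
    exact (ENNReal.ofReal_le_iff_le_toReal (MeasureTheory.measure_ne_top μ _)).mp h
  have hp : ∀ ξ : ℝ, Real.sin (ph a ξ k) * Real.exp (-(ξ ^ 2 * S / 2)) ≤ q := by
    intro ξ
    have hq0 : 0 ≤ q := by
      rw [hq]
      exact ENNReal.toReal_nonneg
    rw [Real.exp_neg, ← div_eq_mul_inv, div_le_iff₀ (Real.exp_pos _)]
    refine le_of_forall_pos_le_add fun δ hδ => ?_
    set E : ℝ := Real.exp (ξ ^ 2 * ((1 / a ^ 2 + 1 / a) * ∑ x ∈ B, ∑ i, θ x i ^ 2) / 2) with hEdef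
    have hE0 : 0 < E := Real.exp_pos _
    obtain ⟨n, hn⟩ := key ha ξ h0 hθ hdiv hk (ε := δ / E) (by positivity)
    refine hn.trans ?_
    rw [← hEdef, mul_add, mul_div_cancel₀ _ hE0.ne']
    have h1 : E ≤ Real.exp (ξ ^ 2 * S / 2) := by
      apply Real.exp_le_exp.mpr
      have := mul_le_mul_of_nonneg_left hS (sq_nonneg ξ)
      linarith
    have h2 : E * exK a k B n ≤ Real.exp (ξ ^ 2 * S / 2) * q :=
      (mul_le_mul_of_nonneg_left (hex n) hE0.le).trans (mul_le_mul_of_nonneg_right h1 hq0)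
    linarith
  refine ⟨ana1 ha hk hS1 hp, ?_⟩
  obtain ⟨γ, hγ0, hγg, hγ⟩ := choose_gamma hS0 hL hg
  have hγθ : ∀ x ∈ B, ∀ i, |γ * θ x i| ≤ 2 / 3 * a := by
    intro x hx i
    rw [abs_mul, abs_of_nonneg hγ0]
    exact (mul_le_mul_of_nonneg_right hγg (abs_nonneg _)).trans (hgθ x hx i)
  refine le_of_forall_pos_le_add fun δ hδ => ?_
  obtain ⟨n, hn⟩ := exit_ge ha h0 hθ hdiv hγθ hk hδ
  have h1 := hex n
  unfold exK at h1
  have h2 : Real.exp (γ ^ 2 * ((1 / a ^ 2 + 1 / a) * ∑ x ∈ B, ∑ i, θ x i ^ 2) - γ * lam a k) ≤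
      Real.exp (-min (lam a k ^ 2 / (4 * S)) (g * lam a k / 2)) := by
    apply Real.exp_le_exp.mpr
    refine le_trans ?_ hγ
    have := mul_le_mul_of_nonneg_left hS (sq_nonneg γ)
    linarith
  linarith

theorem srw_lower {a : ℝ} (ha : 0 < a) (μ : MeasureTheory.Measure Ω)
    [MeasureTheory.IsProbabilityMeasure μ] (X : ℕ → Ω → ℤ × ℤ) (hX : ∀ n, Measurable (X n))
    (hlaw : ∀ (n : ℕ) (s : ℕ → ℤ × ℤ), μ {ω | ∀ k ≤ n, X k ω = s k} =
     if s 0 = 0 then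
       ENNReal.ofReal (∏ k ∈ Finset.range n,
        (if (s (k+1) - s k).1.natAbs + (s (k+1) - s k).2.natAbs = 1 then
          (a + (((Finset.range k).filter (fun j => s j = s k ∧ s (j+1) = s (k+1))).card : ℝ)) /
          (4 * a + (((Finset.range k).filter (fun j => s j = s k)).card : ℝ))
        else 0))
     else 0) {B : Finset (ℤ × ℤ)} (h0 : (0 : ℤ × ℤ) ∈ B) {k : ℕ} (hk : 1 ≤ k)
    {Ω' : Type} [MeasurableSpace Ω'] (ν : MeasureTheory.Measure Ω') (Y : ℕ → Ω' → ℤ × ℤ)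
    (hlawY : ∀ (n : ℕ) (s : ℕ → ℤ × ℤ), ν {ω | ∀ k ≤ n, Y k ω = s k} =
     if s 0 = 0 then
       ENNReal.ofReal (∏ k ∈ Finset.range n,
        (if (s (k+1) - s k).1.natAbs + (s (k+1) - s k).2.natAbs = 1 then (1 / 4 : ℝ) else 0))
     else 0) {p q : ℝ}
    (hp : p = (ν {ω | ∃ n, Y n ω ∉ B ∧ ∀ j, 0 < j → j < n → Y j ω ≠ 0}).toReal)
    (hq : q = (μ {ω | ∃ n, X n ω ∉ B ∧
      ((Finset.range n).filter (fun j => 0 < j ∧ X j ω = 0)).card < k}).toReal) :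
    2 / 5 * min 1 (a * lam a k * √(2 * p / (1 + a))) ≤ q ∧
      1 - Real.exp (-min (a ^ 2 * lam a k ^ 2 * p / (2 * (1 + a))) (a * lam a k / 3)) ≤ q := by
  have hL : 0 < lam a k := lam_pos ha hk
  have hq0 : 0 ≤ q := by
    rw [hq]
    exact ENNReal.toReal_nonneg
  have hp0 : 0 ≤ p := by
    rw [hp]
    exact ENNReal.toReal_nonneg
  rcases hp0.eq_or_lt with hpz | hpos
  · rw [← hpz]
    refine ⟨?_, ?_⟩
    · simpa using hq0
    · have h1 : (0 : ℝ) ≤ a * lam a k / 3 := by positivity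
      simpa [min_eq_left h1] using hq0
  have hcap : p ≤ cap B / 4 := by
    rw [hp]
    exact srw_upper hlawY h0
  have hc : 0 < cap B := by linarith
  have hS : (1 / a ^ 2 + 1 / a) * ∑ x ∈ B, ∑ i, th B x i ^ 2 ≤ (1 + a) / (2 * a ^ 2 * p) := by
    have h1 := th_energy h0 hc
    have h2 : 2 / cap B ≤ 1 / (2 * p) := by
      rw [div_le_div_iff₀ hc (by positivity)]
      linarith
    calc (1 / a ^ 2 + 1 / a) * ∑ x ∈ B, ∑ i, th B x i ^ 2
        ≤ (1 / a ^ 2 + 1 / a) * (1 / (2 * p)) :=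
          mul_le_mul_of_nonneg_left (h1.trans h2) (by positivity)
      _ = (1 + a) / (2 * a ^ 2 * p) := by
        field_simp
  obtain ⟨h1, h2⟩ := lower_gen ha μ X hX hlaw h0 (th_anti B) (th_div h0 hc) hS
    (g := 2 / 3 * a) (by positivity) (fun x hx i => by
      have := th_abs h0 hc x hx i
      exact mul_le_of_le_one_right (by positivity) this) hk hq
  have e1 : lam a k / √((1 + a) / (2 * a ^ 2 * p)) = a * lam a k * √(2 * p / (1 + a)) := by
    have h3 : (1 + a) / (2 * a ^ 2 * p) = (a ^ 2 * (2 * p / (1 + a)))⁻¹ := by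
      field_simp
    rw [h3, Real.sqrt_inv, Real.sqrt_mul (by positivity), Real.sqrt_sq ha.le, div_inv_eq_mul]
    ring
  have e2 : lam a k ^ 2 / (4 * ((1 + a) / (2 * a ^ 2 * p))) =
      a ^ 2 * lam a k ^ 2 * p / (2 * (1 + a)) := by
    field_simp
    ring
  have e3 : 2 / 3 * a * lam a k / 2 = a * lam a k / 3 := by ring
  rw [e1] at h1
  rw [e2, e3] at h2
  exact ⟨h1, h2⟩

theorem ball_lower {a : ℝ} (ha : 0 < a) (μ : MeasureTheory.Measure Ω)
    [MeasureTheory.IsProbabilityMeasure μ] (X : ℕ → Ω → ℤ × ℤ) (hX : ∀ n, Measurable (X n))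
    (hlaw : ∀ (n : ℕ) (s : ℕ → ℤ × ℤ), μ {ω | ∀ k ≤ n, X k ω = s k} =
     if s 0 = 0 then
       ENNReal.ofReal (∏ k ∈ Finset.range n,
        (if (s (k+1) - s k).1.natAbs + (s (k+1) - s k).2.natAbs = 1 then
          (a + (((Finset.range k).filter (fun j => s j = s k ∧ s (j+1) = s (k+1))).card : ℝ)) /
          (4 * a + (((Finset.range k).filter (fun j => s j = s k)).card : ℝ))
        else 0))
     else 0) {k : ℕ} (hk : 1 ≤ k) {N : ℕ} (hN : 1 ≤ N) {q : ℝ}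
    (hq : q = (μ {ω | ∃ n, N ≤ (X n ω).1.natAbs + (X n ω).2.natAbs ∧
      ((Finset.range n).filter (fun j => 0 < j ∧ X j ω = 0)).card < k}).toReal) :
    2 / 5 * min 1 (a * lam a k / √(2 * (1 + a) * (1 + Real.log N))) ≤ q ∧
      1 - Real.exp (-min (a ^ 2 * lam a k ^ 2 / (8 * (1 + a) * (1 + Real.log N)))
        (2 * a * lam a k / 3)) ≤ q := by
  have hlog : 0 ≤ Real.log N := Real.log_natCast_nonneg N
  have h0 : (0 : ℤ × ℤ) ∈ ball N := by
    rw [mem_ball]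
    simp
    omega
  have hq' : q = (μ {ω | ∃ n, X n ω ∉ ball N ∧
      ((Finset.range n).filter (fun j => 0 < j ∧ X j ω = 0)).card < k}).toReal := by
    rw [hq]
    congr 2
    ext ω
    simp only [mem_ball, not_lt]
  have hS : (1 / a ^ 2 + 1 / a) * ∑ x ∈ ball N, ∑ i, flow x i ^ 2 ≤
      2 * (1 + a) * (1 + Real.log N) / a ^ 2 := by
    calc (1 / a ^ 2 + 1 / a) * ∑ x ∈ ball N, ∑ i, flow x i ^ 2
        ≤ (1 / a ^ 2 + 1 / a) * (2 * (1 + Real.log N)) :=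
          mul_le_mul_of_nonneg_left (flow_energy hN) (by positivity)
      _ = 2 * (1 + a) * (1 + Real.log N) / a ^ 2 := by
        field_simp
  obtain ⟨h1, h2⟩ := lower_gen ha μ X hX hlaw h0 flow_anti (fun x _ => flow_div x) hS
    (g := 4 / 3 * a) (by positivity) (fun x _ i => by
      have := mul_le_mul_of_nonneg_left (flow_abs x i) (by positivity : (0 : ℝ) ≤ 4 / 3 * a)
      linarith) hk hq'
  have e1 : lam a k / √(2 * (1 + a) * (1 + Real.log N) / a ^ 2) =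
      a * lam a k / √(2 * (1 + a) * (1 + Real.log N)) := by
    rw [Real.sqrt_div' _ (by positivity), Real.sqrt_sq ha.le, div_div_eq_mul_div]
    ring
  have e2 : lam a k ^ 2 / (4 * (2 * (1 + a) * (1 + Real.log N) / a ^ 2)) =
      a ^ 2 * lam a k ^ 2 / (8 * (1 + a) * (1 + Real.log N)) := by
    field_simp
    ring
  have e3 : 4 / 3 * a * lam a k / 2 = 2 * a * lam a k / 3 := by ring
  rw [e1] at h1
  rw [e2, e3] at h2
  exact ⟨h1, h2⟩

end law

end Pool.Agent.DRWC
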