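import Pool.Agent.DRWC.Real

/-!
# The harmonic function of the simple random walk and its flow
-/

namespace Pool.Agent.DRWC

open Pool.Agent.DRW Filter Topology

/-- The probability that the simple random walk from `x` leaves `B` before `0` in `n` steps. -/
noncomputable def hs (B : Finset (ℤ × ℤ)) : ℕ → ℤ × ℤ → ℝ
  | 0, x => if x ∈ B then 0 else 1
  | n + 1, x => if x ∈ B then (if x = 0 then 0 else (∑ i, hs B n (x + d i)) / 4) else 1

theorem hs_bounds (B : Finset (ℤ × ℤ)) (n : ℕ) : ∀ x, 0 ≤ hs B n x ∧ hs B n x ≤ 1 := by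
  induction n with
  | zero =>
    intro x
    rw [hs]
    split_ifs <;> norm_num
  | succ n ih =>
    intro x
    rw [hs]
    split_ifs
    · norm_num
    · refine ⟨div_nonneg (Finset.sum_nonneg fun i _ => (ih _).1) (by norm_num), ?_⟩
      rw [div_le_one (by norm_num)]
      calc ∑ i, hs B n (x + d i) ≤ ∑ _i : Fin 4, (1 : ℝ) := Finset.sum_le_sum fun i _ => (ih _).2
        _ = 4 := by simp
    · norm_num

theorem hs_mono (B : Finset (ℤ × ℤ)) (n : ℕ) : ∀ x, hs B n x ≤ hs B (n + 1) x := by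
  induction n with
  | zero =>
    intro x
    by_cases hx : x ∈ B
    · have h1 : hs B 0 x = 0 := by rw [hs, if_pos hx]
      rw [h1]
      exact (hs_bounds B 1 x).1
    · have h1 : hs B 0 x = 1 := by rw [hs, if_neg hx]
      have h2 : hs B (0 + 1) x = 1 := by rw [hs, if_neg hx]
      rw [h1, h2]
  | succ n ih =>
    intro x
    by_cases hx : x ∈ B
    · by_cases h0 : x = 0
      · have h1 : ∀ m, hs B (m + 1) x = 0 := fun m => by rw [hs, if_pos hx, if_pos h0]
        rw [h1, h1]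
      · have h1 : ∀ m, hs B (m + 1) x = (∑ i, hs B m (x + d i)) / 4 := fun m => by
          rw [hs, if_pos hx, if_neg h0]
        rw [h1, h1]
        exact div_le_div_of_nonneg_right (Finset.sum_le_sum fun i _ => ih _) (by norm_num)
    · have h1 : ∀ m, hs B (m + 1) x = 1 := fun m => by rw [hs, if_neg hx]
      rw [h1, h1]

/-- The probability that the simple random walk from `x` leaves `B` before `0`. -/
noncomputable def hh (B : Finset (ℤ × ℤ)) (x : ℤ × ℤ) : ℝ := ⨆ n, hs B n x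

theorem hs_tendsto (B : Finset (ℤ × ℤ)) (x : ℤ × ℤ) :
    Tendsto (fun n => hs B n x) atTop (𝓝 (hh B x)) := by
  refine tendsto_atTop_ciSup (monotone_nat_of_le_succ fun n => hs_mono B n x) ⟨1, ?_⟩
  rintro _ ⟨n, rfl⟩
  exact (hs_bounds B n x).2

theorem hh_nonneg (B : Finset (ℤ × ℤ)) (x : ℤ × ℤ) : 0 ≤ hh B x :=
  ge_of_tendsto' (hs_tendsto B x) fun n => (hs_bounds B n x).1

theorem hh_le_one (B : Finset (ℤ × ℤ)) (x : ℤ × ℤ) : hh B x ≤ 1 :=
  le_of_tendsto' (hs_tendsto B x) fun n => (hs_bounds B n x).2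

theorem hh_out {B : Finset (ℤ × ℤ)} {x : ℤ × ℤ} (hx : x ∉ B) : hh B x = 1 := by
  refine tendsto_nhds_unique (hs_tendsto B x) ?_
  have h : (fun n => hs B n x) = fun _ => 1 := by
    funext n
    cases n with
    | zero => rw [hs, if_neg hx]
    | succ n => rw [hs, if_neg hx]
  rw [h]
  exact tendsto_const_nhds

theorem hh_zero {B : Finset (ℤ × ℤ)} (h0 : (0 : ℤ × ℤ) ∈ B) : hh B 0 = 0 := by
  refine tendsto_nhds_unique (hs_tendsto B 0) ?_
  have h : (fun n => hs B n 0) = fun _ => 0 := by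
    funext n
    cases n with
    | zero => rw [hs, if_pos h0]
    | succ n => rw [hs, if_pos h0, if_pos rfl]
  rw [h]
  exact tendsto_const_nhds

theorem hh_harm {B : Finset (ℤ × ℤ)} {x : ℤ × ℤ} (hx : x ∈ B) (h0 : x ≠ 0) :
    hh B x = (∑ i, hh B (x + d i)) / 4 := by
  refine tendsto_nhds_unique ((hs_tendsto B x).comp (tendsto_add_atTop_nat 1)) ?_
  have h : ((fun n => hs B n x) ∘ fun n => n + 1) = fun n => (∑ i, hs B n (x + d i)) / 4 := by
    funext n
    show hs B (n + 1) x = _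
    rw [hs, if_pos hx, if_neg h0]
  rw [h]
  exact (tendsto_finsetSum _ fun i _ => hs_tendsto B (x + d i)).div_const 4

theorem shift_le {A : Finset (ℤ × ℤ)} {u : ℤ × ℤ → ℝ} (hu : ∀ x, 0 ≤ u x)
    (hA : ∀ x, x ∉ A → u x = 0) (e : ℤ × ℤ) : ∑ x ∈ A, u (x + e) ≤ ∑ x ∈ A, u x := by
  have h1 : ∑ x ∈ A, u (x + e) = ∑ y ∈ A.map (addRightEmbedding e), u y := by
    rw [Finset.sum_map]
    rfl
  have h2 : ∑ y ∈ A.map (addRightEmbedding e), u y =
      ∑ y ∈ (A.map (addRightEmbedding e)).filter (fun y => y ∈ A), u y := by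
    refine (Finset.sum_filter_of_ne fun y _ hy => ?_).symm
    by_contra h
    exact hy (hA y h)
  rw [h1, h2]
  refine Finset.sum_le_sum_of_subset_of_nonneg ?_ fun y _ _ => hu y
  intro y hy
  exact (Finset.mem_filter.mp hy).2

theorem grad_nonneg {A : Finset (ℤ × ℤ)} {u : ℤ × ℤ → ℝ} (hu : ∀ x, 0 ≤ u x)
    (hA : ∀ x, x ∉ A → u x = 0) : 0 ≤ ∑ x ∈ A, ∑ i, (u x - u (x + d i)) := by
  rw [Finset.sum_comm]
  refine Finset.sum_nonneg fun i _ => ?_
  rw [Finset.sum_sub_distrib]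
  have := shift_le hu hA (d i)
  linarith

/-- Four times the escape probability of the simple random walk. -/
noncomputable def cap (B : Finset (ℤ × ℤ)) : ℝ := ∑ i, hh B (0 + d i)

theorem hh_lapl {B : Finset (ℤ × ℤ)} (h0 : (0 : ℤ × ℤ) ∈ B) {x : ℤ × ℤ} (hx : x ∈ B) :
    ∑ i, (hh B (x + d i) - hh B x) = if x = 0 then cap B else 0 := by
  rw [Finset.sum_sub_distrib]
  have h1 : ∑ _i : Fin 4, hh B x = 4 * hh B x := by simp
  rw [h1]
  split_ifs with h
  · rw [h, hh_zero h0, mul_zero, sub_zero]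
    rfl
  · rw [hh_harm hx h]
    ring

theorem hh_energy {B : Finset (ℤ × ℤ)} (h0 : (0 : ℤ × ℤ) ∈ B) :
    ∑ x ∈ B, ∑ i, (hh B (x + d i) - hh B x) ^ 2 ≤ 2 * cap B := by
  set h := hh B with hh'
  have h1 : ∑ x ∈ B, ∑ i, (h (x + d i) - h x) = cap B := by
    rw [Finset.sum_congr rfl fun x hx => hh_lapl h0 hx, Finset.sum_ite_eq' B 0, if_pos h0]
  have h2 : ∑ x ∈ B, ∑ i, h x * (h (x + d i) - h x) = 0 := by
    refine Finset.sum_eq_zero fun x hx => ?_
    rw [← Finset.mul_sum, hh', hh_lapl h0 hx]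
    split_ifs with hx0
    · rw [hx0, hh_zero h0, zero_mul]
    · rw [mul_zero]
  have h3 : 0 ≤ ∑ x ∈ B, ∑ i, ((1 - h x) ^ 2 - (1 - h (x + d i)) ^ 2) := by
    refine grad_nonneg (u := fun x => (1 - h x) ^ 2) (fun x => sq_nonneg _) fun x hx => ?_
    show (1 - h x) ^ 2 = 0
    rw [hh', hh_out hx]
    norm_num
  have h4 : ∑ x ∈ B, ∑ i, (h (x + d i) - h x) ^ 2 =
      2 * ∑ x ∈ B, ∑ i, (h (x + d i) - h x) -
        ∑ x ∈ B, ∑ i, ((1 - h x) ^ 2 - (1 - h (x + d i)) ^ 2) -
        2 * ∑ x ∈ B, ∑ i, h x * (h (x + d i) - h x) := by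
    rw [Finset.mul_sum, Finset.mul_sum, ← Finset.sum_sub_distrib, ← Finset.sum_sub_distrib]
    refine Finset.sum_congr rfl fun x _ => ?_
    rw [Finset.mul_sum, Finset.mul_sum, ← Finset.sum_sub_distrib, ← Finset.sum_sub_distrib]
    refine Finset.sum_congr rfl fun i _ => ?_
    ring
  rw [h4, h1, h2]
  linarith

theorem hh_up {B : Finset (ℤ × ℤ)} (h0 : (0 : ℤ × ℤ) ∈ B) {x : ℤ × ℤ} (hx : x ∈ B) (i : Fin 4)
    (hxy : hh B x ≤ hh B (x + d i)) : hh B (x + d i) - hh B x ≤ cap B := by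
  classical
  set h := hh B with hh'
  set c : ℝ := h x with hc
  set A : Finset (ℤ × ℤ) := B.filter (fun z => h z ≤ c) with hA
  have h0A : (0 : ℤ × ℤ) ∈ A := by
    rw [hA, Finset.mem_filter]
    refine ⟨h0, ?_⟩
    rw [hh', hh_zero h0]
    exact hh_nonneg B x
  have hxA : x ∈ A := by
    rw [hA, Finset.mem_filter]
    exact ⟨hx, le_rfl⟩
  have h1 : ∑ z ∈ A, ∑ j, (h (z + d j) - h z) = cap B := by
    rw [Finset.sum_congr rfl fun z hz => hh_lapl h0 (Finset.mem_filter.mp hz).1,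
      Finset.sum_ite_eq' A 0, if_pos h0A]
  have h2 : 0 ≤ ∑ z ∈ A, ∑ j, ((c - min (h z) c) - (c - min (h (z + d j)) c)) := by
    refine grad_nonneg (u := fun z => c - min (h z) c) (fun z => ?_) fun z hz => ?_
    · show 0 ≤ c - min (h z) c
      have := min_le_right (h z) c
      linarith
    · show c - min (h z) c = 0
      have h3 : c ≤ h z := by
        by_cases hzB : z ∈ B
        · by_contra h4
          push Not at h4
          exact hz (by rw [hA, Finset.mem_filter]; exact ⟨hzB, h4.le⟩)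
        · rw [hh', hh_out hzB]
          exact hh_le_one B x
      rw [min_eq_right h3, sub_self]
  have h3 : ∑ z ∈ A, ∑ j, (h (z + d j) - h z) =
      ∑ z ∈ A, ∑ j, ((c - min (h z) c) - (c - min (h (z + d j)) c)) +
        ∑ z ∈ A, ∑ j, (h (z + d j) - min (h (z + d j)) c) := by
    rw [← Finset.sum_add_distrib]
    refine Finset.sum_congr rfl fun z hz => ?_
    rw [← Finset.sum_add_distrib]
    refine Finset.sum_congr rfl fun j _ => ?_
    rw [hA, Finset.mem_filter] at hz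
    rw [min_eq_left hz.2]
    ring
  have hnn : ∀ y : ℤ × ℤ, 0 ≤ h y - min (h y) c := fun y => by
    have := min_le_left (h y) c
    linarith
  have h4 : h (x + d i) - c ≤ ∑ z ∈ A, ∑ j, (h (z + d j) - min (h (z + d j)) c) := by
    have h5 : h (x + d i) - c = h (x + d i) - min (h (x + d i)) c := by
      rw [min_eq_right hxy]
    rw [h5]
    refine (Finset.single_le_sum (f := fun j => h (x + d j) - min (h (x + d j)) c)
      (fun j _ => hnn _) (Finset.mem_univ i)).trans ?_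
    exact Finset.single_le_sum (f := fun z => ∑ j, (h (z + d j) - min (h (z + d j)) c))
      (fun z _ => Finset.sum_nonneg fun j _ => hnn _) hxA
  rw [← h1, h3]
  linarith

theorem hh_abs {B : Finset (ℤ × ℤ)} (h0 : (0 : ℤ × ℤ) ∈ B) {x : ℤ × ℤ} (hx : x ∈ B)
    (i : Fin 4) : |hh B (x + d i) - hh B x| ≤ cap B := by
  rcases le_total (hh B x) (hh B (x + d i)) with h | h
  · rw [abs_of_nonneg (by linarith)]
    exact hh_up h0 hx i h
  · rw [abs_of_nonpos (by linarith)]
    by_cases hy : x + d i ∈ B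
    · have e : x + d i + d (opp i) = x := back x i
      have h1 := hh_up h0 hy (opp i) (by rw [e]; exact h)
      rw [e] at h1
      linarith
    · have h1 := hh_out hy
      have h2 := hh_le_one B x
      have h3 : 0 ≤ cap B := Finset.sum_nonneg fun i _ => hh_nonneg B _
      linarith

/-- The unit flow of the simple random walk. -/
noncomputable def th (B : Finset (ℤ × ℤ)) (x : ℤ × ℤ) (i : Fin 4) : ℝ :=
  (hh B (x + d i) - hh B x) / cap B

theorem th_anti (B : Finset (ℤ × ℤ)) (x : ℤ × ℤ) (i : Fin 4) :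
    th B (x + d i) (opp i) = -th B x i := by
  unfold th
  rw [back]
  ring

theorem th_div {B : Finset (ℤ × ℤ)} (h0 : (0 : ℤ × ℤ) ∈ B) (hc : 0 < cap B) :
    ∀ x ∈ B, ∑ i, th B x i = if x = 0 then 1 else 0 := by
  intro x hx
  unfold th
  rw [← Finset.sum_div, hh_lapl h0 hx]
  split_ifs
  · exact div_self hc.ne'
  · exact zero_div _

theorem th_abs {B : Finset (ℤ × ℤ)} (h0 : (0 : ℤ × ℤ) ∈ B) (hc : 0 < cap B) :
    ∀ x ∈ B, ∀ i, |th B x i| ≤ 1 := by
  intro x hx i
  unfold th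
  rw [abs_div, abs_of_pos hc, div_le_one hc]
  exact hh_abs h0 hx i

theorem th_energy {B : Finset (ℤ × ℤ)} (h0 : (0 : ℤ × ℤ) ∈ B) (hc : 0 < cap B) :
    ∑ x ∈ B, ∑ i, th B x i ^ 2 ≤ 2 / cap B := by
  have h1 : ∑ x ∈ B, ∑ i, th B x i ^ 2 =
      (∑ x ∈ B, ∑ i, (hh B (x + d i) - hh B x) ^ 2) / cap B ^ 2 := by
    rw [Finset.sum_div]
    refine Finset.sum_congr rfl fun x _ => ?_
    rw [Finset.sum_div]
    refine Finset.sum_congr rfl fun i _ => ?_
    unfold th
    rw [div_pow]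
  rw [h1, div_le_div_iff₀ (by positivity) hc]
  have := hh_energy h0
  nlinarith

end Pool.Agent.DRWC
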