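import Pool.Agent.DRWC.Fin

/-!
# The number of visits to the origin

Almost surely, for all large `n`, the number of visits to the origin up to time `n` is at most
`exp (12 (√(1 + a) / a) √(log n * log log log n))`.
-/

namespace Pool.Agent.DRWC

open Pool.Agent.DRW Filter Topology

theorem log_le_lam {a : ℝ} (ha : 0 < a) (k : ℕ) : Real.log (1 + k / (4 * a)) ≤ lam a k := by
  induction k with
  | zero => simp [lam]
  | succ k ih =>
    have h1 : lam a (k + 1) = lam a k + 1 / (4 * a + (k : ℝ)) := by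
      unfold lam
      rw [Finset.sum_range_succ]
    have hk : (0 : ℝ) ≤ k := Nat.cast_nonneg k
    have h2 : 1 + ((k + 1 : ℕ) : ℝ) / (4 * a) =
        (1 + (k : ℝ) / (4 * a)) * (1 + 1 / (4 * a + (k : ℝ))) := by
      push_cast
      field_simp
      ring
    rw [h1, h2, Real.log_mul (by positivity) (by positivity)]
    have h3 := Real.log_le_sub_one_of_pos (by positivity : 0 < 1 + 1 / (4 * a + (k : ℝ)))
    linarith

section law

variable {Ω : Type} [MeasurableSpace Ω] {μ : MeasureTheory.Measure Ω} {X : ℕ → Ω → ℤ × ℤ}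

theorem ae_good' {a : ℝ} (hlaw : ∀ (n : ℕ) (s : ℕ → ℤ × ℤ), μ {ω | ∀ k ≤ n, X k ω = s k} =
     if s 0 = 0 then
       ENNReal.ofReal (∏ k ∈ Finset.range n,
        (if (s (k+1) - s k).1.natAbs + (s (k+1) - s k).2.natAbs = 1 then
          (a + (((Finset.range k).filter (fun j => s j = s k ∧ s (j+1) = s (k+1))).card : ℝ)) /
          (4 * a + (((Finset.range k).filter (fun j => s j = s k)).card : ℝ))
        else 0))
     else 0) (n : ℕ) :
    ∀ᵐ ω ∂μ, X 0 ω = 0 ∧ ∀ k < n,
      (X (k + 1) ω - X k ω).1.natAbs + (X (k + 1) ω - X k ω).2.natAbs = 1 := by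
  rw [MeasureTheory.ae_iff]
  set e : (Fin (n + 1) → ℤ × ℤ) → ℕ → ℤ × ℤ :=
    fun s j => if h : j < n + 1 then s ⟨j, h⟩ else 0 with he
  refine MeasureTheory.measure_mono_null (t := ⋃ s : {s : Fin (n + 1) → ℤ × ℤ //
    ¬ (e s 0 = 0 ∧ ∀ k < n, (e s (k + 1) - e s k).1.natAbs + (e s (k + 1) - e s k).2.natAbs = 1)},
    {ω | ∀ k ≤ n, X k ω = e s.1 k}) ?_ (MeasureTheory.measure_iUnion_null fun s => ?_)
  · intro ω hω
    have hω' : ¬ (X 0 ω = 0 ∧ ∀ k < n,
      (X (k + 1) ω - X k ω).1.natAbs + (X (k + 1) ω - X k ω).2.natAbs = 1) := hω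
    set s : Fin (n + 1) → ℤ × ℤ := fun j => X j ω with hs
    have hes : ∀ k ≤ n, e s k = X k ω := by
      intro k hk
      rw [he]
      simp only
      rw [dif_pos (by omega)]
    rw [Set.mem_iUnion]
    refine ⟨⟨s, ?_⟩, fun k hk => (hes k hk).symm⟩
    rintro ⟨h1, h2⟩
    apply hω'
    refine ⟨by rw [← hes 0 (Nat.zero_le _)]; exact h1, fun k hk => ?_⟩
    have h3 := h2 k hk
    rw [hes k hk.le, hes (k + 1) hk] at h3
    exact h3
  · obtain ⟨s, hs⟩ := s
    rw [hlaw]
    split_ifs with h0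
    · have h1 : ∃ k < n, ¬ ((e s (k + 1) - e s k).1.natAbs +
          (e s (k + 1) - e s k).2.natAbs = 1) := by
        by_contra hcon
        push Not at hcon
        exact hs ⟨h0, hcon⟩
      obtain ⟨k, hk, h2⟩ := h1
      rw [Finset.prod_eq_zero (Finset.mem_range.mpr hk) (by rw [if_neg h2]), ENNReal.ofReal_zero]
    · rfl

theorem dist_le {s : ℕ → ℤ × ℤ} (h0 : s 0 = 0)
    (hs : ∀ k, (s (k + 1) - s k).1.natAbs + (s (k + 1) - s k).2.natAbs = 1) (n : ℕ) :
    (s n).1.natAbs + (s n).2.natAbs ≤ n := by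
  induction n with
  | zero => rw [h0]; simp
  | succ n ih =>
    have h1 := hs n
    have e1 : (s (n + 1)).1 = (s n).1 + (s (n + 1) - s n).1 := by simp
    have e2 : (s (n + 1)).2 = (s n).2 + (s (n + 1) - s n).2 := by simp
    omega

/-- The event of leaving the ball before the `k`-th return. -/
def evt (X : ℕ → Ω → ℤ × ℤ) (N k : ℕ) : Set Ω :=
  {ω | ∃ n, N ≤ (X n ω).1.natAbs + (X n ω).2.natAbs ∧
    ((Finset.range n).filter (fun j => 0 < j ∧ X j ω = 0)).card < k}

theorem evt_meas (hX : ∀ n, Measurable (X n)) (N k : ℕ) : MeasurableSet (evt X N k) := by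
  have h1 : evt X N k = ⋃ n, ({ω | N ≤ (X n ω).1.natAbs + (X n ω).2.natAbs} ∩
      {ω | ((Finset.range n).filter (fun j => 0 < j ∧ X j ω = 0)).card < k}) := by
    ext ω
    simp only [evt, Set.mem_ofPred_eq, Set.mem_iUnion, Set.mem_inter_iff]
  rw [h1]
  refine MeasurableSet.iUnion fun n => MeasurableSet.inter ?_ ?_
  · exact hX n (MeasurableSet.of_discrete (s := {x : ℤ × ℤ | N ≤ x.1.natAbs + x.2.natAbs}))
  · have h2 : Measurable fun ω => ((Finset.range n).filter (fun j => 0 < j ∧ X j ω = 0)).card := by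
      have h3 : (fun ω => ((Finset.range n).filter (fun j => 0 < j ∧ X j ω = 0)).card) =
          fun ω => ∑ j ∈ Finset.range n, if 0 < j ∧ X j ω = 0 then 1 else 0 := by
        funext ω
        rw [Finset.card_filter]
      rw [h3]
      refine Finset.measurable_sum _ fun j _ => ?_
      by_cases hj : 0 < j
      · simp only [hj, true_and]
        exact Measurable.ite (hX j (measurableSet_singleton 0)) measurable_const measurable_const
      · simp only [hj, false_and, if_false]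
        exact measurable_const
    exact h2 (MeasurableSet.of_discrete (s := {c : ℕ | c < k}))

end law

/-- The levels. -/
noncomputable def tt (a : ℝ) (m : ℕ) : ℝ :=
  4 * (√(1 + a) / a) * √((1 + 2 ^ m * Real.log 2) * Real.log (m + 2))

/-- The numbers of returns. -/
noncomputable def kk (a : ℝ) (m : ℕ) : ℕ := ⌈4 * a * Real.exp (tt a m)⌉₊ + 1

theorem tt_nonneg {a : ℝ} (ha : 0 < a) (m : ℕ) : 0 ≤ tt a m := by
  unfold tt
  positivity

theorem tt_le_lam {a : ℝ} (ha : 0 < a) (m : ℕ) : tt a m ≤ lam a (kk a m) := by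
  refine le_trans ?_ (log_le_lam ha (kk a m))
  have h1 : 4 * a * Real.exp (tt a m) ≤ (kk a m : ℝ) := by
    unfold kk
    push_cast
    have := Nat.le_ceil (4 * a * Real.exp (tt a m))
    linarith
  have h2 : Real.exp (tt a m) ≤ 1 + (kk a m : ℝ) / (4 * a) := by
    have h3 : Real.exp (tt a m) ≤ (kk a m : ℝ) / (4 * a) := by
      rw [le_div_iff₀ (by positivity)]
      linarith
    linarith
  calc tt a m = Real.log (Real.exp (tt a m)) := (Real.log_exp _).symm
    _ ≤ Real.log (1 + (kk a m : ℝ) / (4 * a)) := Real.log_le_log (Real.exp_pos _) h2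

theorem kk_le {a : ℝ} (ha : 0 < a) (m : ℕ) : (kk a m : ℝ) ≤ (4 * a + 2) * Real.exp (tt a m) := by
  unfold kk
  push_cast
  have h1 := Nat.ceil_lt_add_one (by positivity : 0 ≤ 4 * a * Real.exp (tt a m))
  have h2 : 1 ≤ Real.exp (tt a m) := Real.one_le_exp (tt_nonneg ha m)
  linarith

theorem log_two_bounds : (1 : ℝ) / 2 ≤ Real.log 2 ∧ Real.log 2 ≤ 1 :=
  ⟨by have := Real.log_two_gt_d9; linarith, by have := Real.log_two_lt_d9; linarith⟩

theorem log_add_two_le (m : ℕ) : Real.log (m + 2) ≤ 1 + 2 ^ m * Real.log 2 := by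
  have h1 : ((m : ℝ) + 2) ≤ 2 ^ (m + 1) := by
    have h2 : m + 2 ≤ 2 ^ (m + 1) := by
      have := Nat.lt_two_pow_self (n := m + 1)
      omega
    exact_mod_cast h2
  have h2 : Real.log (m + 2) ≤ (m + 1 : ℝ) * Real.log 2 := by
    calc Real.log (m + 2) ≤ Real.log (2 ^ (m + 1)) := Real.log_le_log (by positivity) h1
      _ = (m + 1 : ℝ) * Real.log 2 := by
        rw [Real.log_pow]
        push_cast
        ring
  have h3 : (m : ℝ) ≤ 2 ^ m := by
    have := (Nat.lt_two_pow_self (n := m)).le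
    exact_mod_cast this
  have h4 := log_two_bounds
  nlinarith [mul_le_mul_of_nonneg_right h3 (by linarith : 0 ≤ Real.log 2)]

theorem exponent_ge {a : ℝ} (ha : 0 < a) (m : ℕ) : 2 * Real.log (m + 2) ≤
    min (a ^ 2 * lam a (kk a m) ^ 2 / (8 * (1 + a) * (1 + Real.log ((2 ^ 2 ^ m : ℕ) : ℝ))))
      (2 * a * lam a (kk a m) / 3) := by
  have hl0 : 0 ≤ Real.log ((m : ℝ) + 2) := Real.log_nonneg (by
    have : (0 : ℝ) ≤ m := Nat.cast_nonneg m
    linarith)
  have hlN : Real.log ((2 ^ 2 ^ m : ℕ) : ℝ) = 2 ^ m * Real.log 2 := by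
    push_cast
    rw [Real.log_pow]
    push_cast
    ring
  have h2 := log_two_bounds
  have hpos : 0 < 1 + 2 ^ m * Real.log 2 := by
    have : 0 < Real.log 2 := by linarith
    positivity
  have hT := tt_le_lam ha m
  have hT0 := tt_nonneg ha m
  have hsq : tt a m ^ 2 = 16 * ((1 + a) / a ^ 2) *
      ((1 + 2 ^ m * Real.log 2) * Real.log (m + 2)) := by
    unfold tt
    rw [mul_pow, mul_pow, div_pow, Real.sq_sqrt (by positivity), Real.sq_sqrt (by positivity)]
    ring
  rw [hlN]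
  refine le_min ?_ ?_
  · rw [le_div_iff₀ (by positivity)]
    have h3 : tt a m ^ 2 ≤ lam a (kk a m) ^ 2 := pow_le_pow_left₀ hT0 hT 2
    have h4 : a ^ 2 * tt a m ^ 2 ≤ a ^ 2 * lam a (kk a m) ^ 2 :=
      mul_le_mul_of_nonneg_left h3 (by positivity)
    refine le_trans (le_of_eq ?_) h4
    rw [hsq]
    field_simp
    ring
  · have h3 : 3 * Real.log (m + 2) ≤ a * tt a m := by
      refine le_of_sq_le_sq ?_ (by positivity)
      rw [mul_pow, mul_pow, hsq]
      have h4 := log_add_two_le m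
      have h5 : a ^ 2 * (16 * ((1 + a) / a ^ 2) * ((1 + 2 ^ m * Real.log 2) *
          Real.log (m + 2))) = 16 * (1 + a) * ((1 + 2 ^ m * Real.log 2) * Real.log (m + 2)) := by
        field_simp
      rw [h5]
      have h6 : Real.log (m + 2) ^ 2 ≤ (1 + 2 ^ m * Real.log 2) * Real.log (m + 2) := by
        rw [sq]
        exact mul_le_mul_of_nonneg_right h4 hl0
      have h7 : 0 ≤ (1 + 2 ^ m * Real.log 2) * Real.log (m + 2) := mul_nonneg hpos.le hl0
      nlinarith [mul_nonneg ha.le h7]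
    have h4 : a * tt a m ≤ a * lam a (kk a m) := mul_le_mul_of_nonneg_left hT ha.le
    linarith

section law2

variable {Ω : Type} [MeasurableSpace Ω]

theorem ae_evt {a : ℝ} (ha : 0 < a) (μ : MeasureTheory.Measure Ω)
    [MeasureTheory.IsProbabilityMeasure μ] (X : ℕ → Ω → ℤ × ℤ) (hX : ∀ n, Measurable (X n))
    (hlaw : ∀ (n : ℕ) (s : ℕ → ℤ × ℤ), μ {ω | ∀ k ≤ n, X k ω = s k} =
     if s 0 = 0 then
       ENNReal.ofReal (∏ k ∈ Finset.range n,
        (if (s (k+1) - s k).1.natAbs + (s (k+1) - s k).2.natAbs = 1 then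
          (a + (((Finset.range k).filter (fun j => s j = s k ∧ s (j+1) = s (k+1))).card : ℝ)) /
          (4 * a + (((Finset.range k).filter (fun j => s j = s k)).card : ℝ))
        else 0))
     else 0) :
    ∀ᵐ ω ∂μ, ∀ᶠ m in atTop, ω ∈ evt X (2 ^ 2 ^ m) (kk a m) := by
  have h1 : ∀ m, μ (evt X (2 ^ 2 ^ m) (kk a m))ᶜ ≤ ENNReal.ofReal (1 / ((m : ℝ) + 2) ^ 2) := by
    intro m
    have hk : 1 ≤ kk a m := by
      unfold kk
      omega
    obtain ⟨-, h2⟩ := ball_lower ha μ X hX hlaw hk (N := 2 ^ 2 ^ m) Nat.one_le_two_pow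
      (q := (μ (evt X (2 ^ 2 ^ m) (kk a m))).toReal) rfl
    have h3 := exponent_ge ha m
    have hm : (0 : ℝ) < (m : ℝ) + 2 := by positivity
    have h4 : Real.exp (-min (a ^ 2 * lam a (kk a m) ^ 2 / (8 * (1 + a) *
        (1 + Real.log ((2 ^ 2 ^ m : ℕ) : ℝ)))) (2 * a * lam a (kk a m) / 3)) ≤
        1 / ((m : ℝ) + 2) ^ 2 := by
      calc _ ≤ Real.exp (-(2 * Real.log (m + 2))) := Real.exp_le_exp.mpr (by linarith)
        _ = 1 / ((m : ℝ) + 2) ^ 2 := by
          rw [Real.exp_neg, two_mul, Real.exp_add, Real.exp_log hm, ← sq, one_div]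
    have h5 : (μ (evt X (2 ^ 2 ^ m) (kk a m))ᶜ).toReal =
        1 - (μ (evt X (2 ^ 2 ^ m) (kk a m))).toReal := by
      have := MeasureTheory.probReal_compl_eq_one_sub (μ := μ) (evt_meas hX (2 ^ 2 ^ m) (kk a m))
      exact this
    rw [← ENNReal.ofReal_toReal (MeasureTheory.measure_ne_top μ _), h5]
    apply ENNReal.ofReal_le_ofReal
    linarith
  have hsum : ∑' m, μ (evt X (2 ^ 2 ^ m) (kk a m))ᶜ ≠ ⊤ := by
    refine ne_top_of_le_ne_top ?_ (ENNReal.tsum_le_tsum h1)
    have h2 : Summable fun m : ℕ => 1 / ((m : ℝ) + 2) ^ 2 := by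
      have h3 := (summable_nat_add_iff 2).mpr
        (Real.summable_one_div_nat_pow.mpr (by norm_num : 1 < 2))
      refine h3.congr fun m => ?_
      push_cast
      rfl
    rw [← ENNReal.ofReal_tsum_of_nonneg (fun m => by positivity) h2]
    exact ENNReal.ofReal_ne_top
  filter_upwards [MeasureTheory.ae_eventually_notMem hsum] with ω hω
  filter_upwards [hω] with m hm
  by_contra h
  exact hm h

end law2

theorem final_ineq {a : ℝ} (ha : 0 < a) : ∀ᶠ n : ℕ in atTop, ∀ m : ℕ, 2 ^ 2 ^ m ≤ n →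
    (kk a (m + 1) : ℝ) ≤
      Real.exp (12 * (√(1 + a) / a) * √(Real.log n * Real.log (Real.log (Real.log n)))) := by
  have hx : Tendsto (fun n : ℕ => Real.log n) atTop atTop :=
    Real.tendsto_log_atTop.comp tendsto_natCast_atTop_atTop
  have hy : Tendsto (fun n : ℕ => Real.log (Real.log n)) atTop atTop :=
    Real.tendsto_log_atTop.comp hx
  have hz : Tendsto (fun n : ℕ => Real.log (Real.log (Real.log n))) atTop atTop :=
    Real.tendsto_log_atTop.comp hy
  have hW : Tendsto (fun n : ℕ => √(Real.log n * Real.log (Real.log (Real.log n)))) atTop atTop :=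
    Real.tendsto_sqrt_atTop.comp (hx.atTop_mul_atTop₀ hz)
  have hc : 0 < √(1 + a) / a := by positivity
  have hE : Tendsto (fun n : ℕ => Real.exp (2 * (√(1 + a) / a) *
      √(Real.log n * Real.log (Real.log (Real.log n))))) atTop atTop :=
    Real.tendsto_exp_atTop.comp (hW.const_mul_atTop (by positivity))
  filter_upwards [hx.eventually_ge_atTop 1, hy.eventually_ge_atTop 5, hz.eventually_ge_atTop 0,
    hE.eventually_ge_atTop (4 * a + 2), eventually_ge_atTop 1] with n hx1 hy1 hz1 hE1 hn1 m hm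
  set x : ℝ := Real.log n with hxdef
  set y : ℝ := Real.log x with hydef
  set z : ℝ := Real.log y with hzdef
  have hl := log_two_bounds
  have hnp : (0 : ℝ) < n := by exact_mod_cast hn1
  have h1 : (2 : ℝ) ^ m * Real.log 2 ≤ x := by
    have h2 : ((2 ^ 2 ^ m : ℕ) : ℝ) ≤ (n : ℝ) := by exact_mod_cast hm
    have h3 : Real.log ((2 ^ 2 ^ m : ℕ) : ℝ) = 2 ^ m * Real.log 2 := by
      push_cast
      rw [Real.log_pow]
      push_cast
      ring
    rw [← h3]
    exact Real.log_le_log (by positivity) h2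
  have h2 : (m : ℝ) * Real.log 2 ≤ Real.log 2 + y := by
    have h3 : (2 : ℝ) ^ m ≤ 2 * x := by
      have : (0 : ℝ) < 2 ^ m := by positivity
      nlinarith
    have h4 := Real.log_le_log (by positivity) h3
    rw [Real.log_pow, Real.log_mul (by norm_num) (by linarith)] at h4
    exact h4
  have h3 : (((m + 1 : ℕ) : ℝ) + 2) ≤ y ^ 2 := by
    push_cast
    have h4 : (m : ℝ) ≤ 1 + 2 * y := by
      by_contra h
      push Not at h
      nlinarith
    nlinarith
  have h4 : Real.log (((m + 1 : ℕ) : ℝ) + 2) ≤ 2 * z := by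
    have h5 := Real.log_le_log (by positivity) h3
    rw [Real.log_pow] at h5
    exact_mod_cast h5
  have h5 : tt a (m + 1) ≤ 10 * (√(1 + a) / a) * √(x * z) := by
    unfold tt
    have h6 : (1 + 2 ^ (m + 1) * Real.log 2) * Real.log (((m + 1 : ℕ) : ℝ) + 2) ≤
        6 * (x * z) := by
      have h7 : 1 + 2 ^ (m + 1) * Real.log 2 ≤ 3 * x := by
        rw [pow_succ]
        linarith
      have h8 : (1 + 2 ^ (m + 1) * Real.log 2) * Real.log (((m + 1 : ℕ) : ℝ) + 2) ≤
          (3 * x) * (2 * z) := by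
        refine mul_le_mul h7 h4 ?_ (by linarith)
        apply Real.log_nonneg
        push_cast
        have : (0 : ℝ) ≤ m := Nat.cast_nonneg m
        linarith
      linarith
    have h7 : √((1 + 2 ^ (m + 1) * Real.log 2) * Real.log (((m + 1 : ℕ) : ℝ) + 2)) ≤
        5 / 2 * √(x * z) := by
      refine (Real.sqrt_le_sqrt h6).trans ?_
      rw [Real.sqrt_mul (by norm_num)]
      refine mul_le_mul_of_nonneg_right ?_ (Real.sqrt_nonneg _)
      rw [Real.sqrt_le_left (by norm_num)]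
      norm_num
    calc 4 * (√(1 + a) / a) *
          √((1 + 2 ^ (m + 1) * Real.log 2) * Real.log (((m + 1 : ℕ) : ℝ) + 2))
        ≤ 4 * (√(1 + a) / a) * (5 / 2 * √(x * z)) :=
          mul_le_mul_of_nonneg_left h7 (by positivity)
      _ = 10 * (√(1 + a) / a) * √(x * z) := by ring
  calc (kk a (m + 1) : ℝ) ≤ (4 * a + 2) * Real.exp (tt a (m + 1)) := kk_le ha (m + 1)
    _ ≤ Real.exp (2 * (√(1 + a) / a) * √(x * z)) *
        Real.exp (10 * (√(1 + a) / a) * √(x * z)) :=
        mul_le_mul hE1 (Real.exp_le_exp.mpr h5) (Real.exp_pos _).le (Real.exp_pos _).le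
    _ = Real.exp (12 * (√(1 + a) / a) * √(x * z)) := by
        rw [← Real.exp_add]
        congr 1
        ring

section law3

variable {Ω : Type} [MeasurableSpace Ω]

theorem local_time {a : ℝ} (ha : 0 < a) (μ : MeasureTheory.Measure Ω)
    [MeasureTheory.IsProbabilityMeasure μ] (X : ℕ → Ω → ℤ × ℤ) (hX : ∀ n, Measurable (X n))
    (hlaw : ∀ (n : ℕ) (s : ℕ → ℤ × ℤ), μ {ω | ∀ k ≤ n, X k ω = s k} =
     if s 0 = 0 then
       ENNReal.ofReal (∏ k ∈ Finset.range n,
        (if (s (k+1) - s k).1.natAbs + (s (k+1) - s k).2.natAbs = 1 then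
          (a + (((Finset.range k).filter (fun j => s j = s k ∧ s (j+1) = s (k+1))).card : ℝ)) /
          (4 * a + (((Finset.range k).filter (fun j => s j = s k)).card : ℝ))
        else 0))
     else 0) :
    ∀ᵐ ω ∂μ, ∀ᶠ n : ℕ in atTop,
      (((Finset.range (n + 1)).filter (fun j => X j ω = 0)).card : ℝ) ≤
        Real.exp (12 * (√(1 + a) / a) *
          √(Real.log n * Real.log (Real.log (Real.log n)))) := by
  have hgood : ∀ᵐ ω ∂μ, ∀ n, X 0 ω = 0 ∧ ∀ k < n,
      (X (k + 1) ω - X k ω).1.natAbs + (X (k + 1) ω - X k ω).2.natAbs = 1 :=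
    MeasureTheory.ae_all_iff.mpr fun n => ae_good' hlaw n
  filter_upwards [hgood, ae_evt ha μ X hX hlaw] with ω hω hev
  obtain ⟨m0, hm0⟩ := eventually_atTop.mp hev
  filter_upwards [final_ineq ha, eventually_ge_atTop (2 ^ 2 ^ m0)] with n hn hnm
  have hex : ∃ m, n < 2 ^ 2 ^ m := by
    refine ⟨n, ?_⟩
    calc n < 2 ^ n := Nat.lt_two_pow_self
      _ ≤ 2 ^ 2 ^ n := Nat.pow_le_pow_right (by norm_num) Nat.lt_two_pow_self.le
  set m1 := Nat.find hex with hm1
  have hlt : n < 2 ^ 2 ^ m1 := Nat.find_spec hex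
  have hm01 : m0 < m1 := by
    by_contra h
    push Not at h
    have h1 : 2 ^ 2 ^ m1 ≤ 2 ^ 2 ^ m0 :=
      Nat.pow_le_pow_right (by norm_num) (Nat.pow_le_pow_right (by norm_num) h)
    omega
  obtain ⟨m, hm⟩ : ∃ m, m1 = m + 1 := ⟨m1 - 1, by omega⟩
  have hle : 2 ^ 2 ^ m ≤ n := by
    have h1 : ¬ n < 2 ^ 2 ^ m := Nat.find_min hex (by omega)
    omega
  refine le_trans ?_ (hn m hle)
  obtain ⟨n0, h1, h2⟩ := hm0 m1 hm01.le
  have hd := dist_le (s := fun k => X k ω) (hω 0).1
    (fun k => (hω (k + 1)).2 k (Nat.lt_succ_self k)) n0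
  have hn0 : n < n0 := by
    have hd' : (X n0 ω).1.natAbs + (X n0 ω).2.natAbs ≤ n0 := hd
    omega
  have h3 : ((Finset.range (n + 1)).filter (fun j => X j ω = 0)) ⊆
      insert 0 ((Finset.range n0).filter (fun j => 0 < j ∧ X j ω = 0)) := by
    intro j hj
    rw [Finset.mem_filter, Finset.mem_range] at hj
    rw [Finset.mem_insert, Finset.mem_filter, Finset.mem_range]
    rcases Nat.eq_zero_or_pos j with h4 | h4
    · exact Or.inl h4
    · exact Or.inr ⟨by omega, h4, hj.2⟩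
  have h4 := (Finset.card_le_card h3).trans (Finset.card_insert_le _ _)
  have h5 : ((Finset.range (n + 1)).filter (fun j => X j ω = 0)).card ≤ kk a (m + 1) := by
    rw [hm] at h2
    omega
  exact_mod_cast h5

end law3

end Pool.Agent.DRWC
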