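import Pool.Agent.DRWC.Stop
import Pool.Agent.DRWC.Stay

/-!
# The main inequality

`sin (ph a ξ k) * exp (-(ξ ^ 2 * S / 2))` is at most the probability to leave `B` before the `k`-th
return to the origin.
-/

namespace Pool.Agent.DRWC

open Pool.Agent.DRW

/-- The phase. -/
noncomputable def ph (a ξ : ℝ) (k : ℕ) : ℝ :=
  ∑ j ∈ Finset.range k, Real.arctan (ξ / (4 * a + (j : ℝ)))

theorem one_add_polar (x : ℝ) : (1 + (x : ℂ) * Complex.I) =
    ((Real.sqrt (1 + x ^ 2) : ℝ) : ℂ) * Complex.exp (((Real.arctan x : ℝ) : ℂ) * Complex.I) := by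
  have hs : (0 : ℝ) < Real.sqrt (1 + x ^ 2) := Real.sqrt_pos.mpr (by positivity)
  have hs' : ((Real.sqrt (1 + x ^ 2) : ℝ) : ℂ) ≠ 0 := by exact_mod_cast hs.ne'
  rw [Complex.exp_mul_I, ← Complex.ofReal_cos, ← Complex.ofReal_sin, Real.cos_arctan,
    Real.sin_arctan]
  push_cast
  field_simp

theorem zc_polar (a ξ : ℝ) (k : ℕ) : ∃ r : ℝ, 0 < r ∧
    zc a ξ k = (r : ℂ) * Complex.exp (((ph a ξ k : ℝ) : ℂ) * Complex.I) := by
  induction k with
  | zero => exact ⟨1, one_pos, by simp [zc, ph]⟩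
  | succ k ih =>
    obtain ⟨r, hr, h⟩ := ih
    refine ⟨r * Real.sqrt (1 + (ξ / (4 * a + (k : ℝ))) ^ 2), mul_pos hr
      (Real.sqrt_pos.mpr (by positivity)), ?_⟩
    rw [zc_succ, h, one_add_polar]
    have h1 : ph a ξ (k + 1) = ph a ξ k + Real.arctan (ξ / (4 * a + (k : ℝ))) := by
      unfold ph
      rw [Finset.sum_range_succ]
    rw [h1]
    push_cast
    rw [add_mul, Complex.exp_add]
    ring

/-- The sum of the exit probabilities up to time `n`. -/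
noncomputable def exK (a : ℝ) (k : ℕ) (B : Finset (ℤ × ℤ)) (n : ℕ) : ℝ :=
  ∑ m ∈ Finset.range (n + 1), ∑ l ∈ exitK k B m, P (wt a 0) l

theorem key {a : ℝ} (ha : 0 < a) (ξ : ℝ) {θ : ℤ × ℤ → Fin 4 → ℝ} {B : Finset (ℤ × ℤ)}
    (h0 : (0 : ℤ × ℤ) ∈ B) (hθ : ∀ x i, θ (x + d i) (opp i) = -θ x i)
    (hdiv : ∀ x ∈ B, ∑ i, θ x i = if x = 0 then 1 else 0) {k : ℕ} (hk : 1 ≤ k) {ε : ℝ}
    (hε : 0 < ε) : ∃ n, Real.sin (ph a ξ k) ≤
      Real.exp (ξ ^ 2 * ((1 / a ^ 2 + 1 / a) * ∑ x ∈ B, ∑ i, θ x i ^ 2) / 2) *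
        (exK a k B n + ε) := by
  classical
  have hw : ∀ x i, 0 < wt a 0 x i := fun x i => by rw [wt_zero]; exact ha
  obtain ⟨n, hn⟩ := stay_small hw B hε
  refine ⟨n, ?_⟩
  set E : ℝ := Real.exp (ξ ^ 2 * ((1 / a ^ 2 + 1 / a) * ∑ x ∈ B, ∑ i, θ x i ^ 2) / 2) with hE
  have hE0 : 0 < E := Real.exp_pos _
  obtain ⟨r, hr, hz⟩ := zc_polar a ξ k
  have htot := mass_total ha ξ h0 hdiv hk n
  set U : ℂ := ∑ m ∈ Finset.range (n + 1), ∑ l ∈ retK k B m, MQ a ξ θ l with hU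
  set X : ℂ := ∑ m ∈ Finset.range (n + 1), ∑ l ∈ exitK k B m, MQ a ξ θ l with hX
  set A : ℂ := ∑ l ∈ aliveK k B n, MQ a ξ θ l with hA
  have hreal : (zc a ξ k * U).im = 0 := by
    rw [← Complex.conj_eq_iff_im, hU, Finset.mul_sum, map_sum]
    refine Finset.sum_congr rfl fun m _ => ?_
    rw [ret_MQ]
    exact ret_real a ξ hθ k B m
  have hXn : ‖X‖ ≤ E * exK a k B n := by
    rw [hX, exK, Finset.mul_sum]
    refine (norm_sum_le _ _).trans (Finset.sum_le_sum fun m _ => ?_)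
    rw [Finset.mul_sum]
    refine (norm_sum_le _ _).trans (Finset.sum_le_sum fun l hl => ?_)
    rw [exitK, Finset.mem_filter] at hl
    rw [mul_comm]
    exact MQ_norm ha ξ θ hl.2.2.2
  have hAn : ‖A‖ ≤ E * ε := by
    have h1 : ‖A‖ ≤ E * ∑ l ∈ aliveK k B n, P (wt a 0) l := by
      rw [hA, Finset.mul_sum]
      refine (norm_sum_le _ _).trans (Finset.sum_le_sum fun l hl => ?_)
      rw [aliveK, Finset.mem_filter] at hl
      rw [mul_comm]
      exact MQ_norm ha ξ θ fun v hv => hl.2.2 v (List.mem_cons_of_mem _ hv)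
    refine h1.trans (mul_le_mul_of_nonneg_left ?_ hE0.le)
    refine (Finset.sum_le_sum_of_subset_of_nonneg ?_ fun l _ _ => P_nonneg ha l).trans hn
    intro l hl
    rw [aliveK, Finset.mem_filter] at hl
    rw [Finset.mem_filter]
    exact ⟨hl.1, fun v hv => hl.2.2 v (List.mem_cons_of_mem _ hv)⟩
  have hzn : ‖zc a ξ k‖ = r := by
    rw [hz, norm_mul, Complex.norm_exp_ofReal_mul_I, mul_one, Complex.norm_real, Real.norm_eq_abs,
      abs_of_pos hr]
  have hzi : (zc a ξ k).im = r * Real.sin (ph a ξ k) := by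
    rw [hz, Complex.im_ofReal_mul, Complex.exp_ofReal_mul_I_im]
  have h1 : zc a ξ k = zc a ξ k * U + zc a ξ k * (X + A) := by
    linear_combination (-(zc a ξ k)) * htot
  have h2 : (zc a ξ k).im = (zc a ξ k * (X + A)).im := by
    have h3 := congrArg Complex.im h1
    rw [Complex.add_im, hreal, zero_add] at h3
    exact h3
  have h4 : (zc a ξ k * (X + A)).im ≤ r * (E * exK a k B n + E * ε) := by
    refine (Complex.im_le_norm _).trans ?_
    rw [norm_mul, hzn]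
    exact mul_le_mul_of_nonneg_left ((norm_add_le _ _).trans (add_le_add hXn hAn)) hr.le
  rw [← h2, hzi] at h4
  have h5 := le_of_mul_le_mul_left h4 hr
  rw [mul_add]
  exact h5

end Pool.Agent.DRWC
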