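import Pool.Agent.DRW.Cons
import Pool.Agent.DRW.Pow
import Pool.Agent.DRW.Meas

/-!
# Complex path weights

`PQ a ξ θ l` is the probability of the path `l` for constant weights `a`, multiplied with
`∏ (1 + I ξ θ(e) / (a + j))` over the traversals of the edges.
-/

namespace Pool.Agent.DRWC

open Pool.Agent.DRW

/-- The complex weight of a path. -/
noncomputable def PQ (a ξ : ℝ) (θ : ℤ × ℤ → Fin 4 → ℝ) : List (Fin 4) → ℂ
  | [] => 1
  | i :: l => PQ a ξ θ l *
      ((((a : ℂ) + ((ξ * θ (pos l) i : ℝ) : ℂ) * Complex.I) + ((tr l).count (pos l, i) : ℂ)) /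
        (((4 * a : ℝ) : ℂ) + ((src l).count (pos l) : ℂ)))

/-- The quadratic error along a path. -/
noncomputable def qd (a : ℝ) (θ : ℤ × ℤ → Fin 4 → ℝ) : List (Fin 4) → ℝ
  | [] => 0
  | i :: l => qd a θ l + θ (pos l) i ^ 2 / (a + ((tr l).count (pos l, i) : ℝ)) ^ 2

theorem qd_eq {a : ℝ} {θ : ℤ × ℤ → Fin 4 → ℝ} {B : Finset (ℤ × ℤ)} :
    ∀ l : List (Fin 4), (∀ v ∈ src l, v ∈ B) →
    qd a θ l = ∑ x ∈ B, ∑ i, θ x i ^ 2 * pwG a ((tr l).count (x, i))
  | [], _ => by simp [qd, pwG, trF]
  | i :: l, hl => by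
    have hl' : ∀ v ∈ src l, v ∈ B := by
      intro v hv
      apply hl
      simp only [src, srcF, trF, List.map_cons, List.mem_cons] at hv ⊢
      exact Or.inr hv
    have hp : pos l ∈ B := by
      apply hl
      simp [srcF, trF]
    have ih := qd_eq (a := a) (θ := θ) l hl'
    have hstep : ∀ x : ℤ × ℤ, ∀ j : Fin 4,
        θ x j ^ 2 * pwG a ((tr (i :: l)).count (x, j)) =
          θ x j ^ 2 * pwG a ((tr l).count (x, j)) +
          (if (x, j) = (pos l, i) then
            θ (pos l) i ^ 2 / (a + ((tr l).count (pos l, i) : ℝ)) ^ 2 else 0) := by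
      intro x j
      have hc : (tr (i :: l)).count (x, j) =
          (tr l).count (x, j) + if (pos l, i) = (x, j) then 1 else 0 := by
        show ((pos l, i) :: tr l).count (x, j) = _
        rw [List.count_cons]
        congr 1
        by_cases h : (pos l, i) = (x, j)
        · simp [h]
        · simp [h]
      rw [hc]
      by_cases h : (x, j) = (pos l, i)
      · have h' : (pos l, i) = (x, j) := h.symm
        rw [if_pos h', if_pos h]
        obtain ⟨hx, hj⟩ := Prod.mk.inj h
        subst hx hj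
        have : pwG a ((tr l).count (pos l, j) + 1) = pwG a ((tr l).count (pos l, j)) +
            1 / (a + ((tr l).count (pos l, j) : ℝ)) ^ 2 := by
          unfold pwG
          rw [Finset.sum_range_succ]
        rw [this]
        ring
      · have h' : ¬ (pos l, i) = (x, j) := fun e => h e.symm
        rw [if_neg h', if_neg h]
        simp
    have hsum : ∑ x ∈ B, ∑ j, (if (x, j) = (pos l, i) then
            θ (pos l) i ^ 2 / (a + ((tr l).count (pos l, i) : ℝ)) ^ 2 else 0) =
            θ (pos l) i ^ 2 / (a + ((tr l).count (pos l, i) : ℝ)) ^ 2 := by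
      rw [Finset.sum_eq_single (pos l)]
      · rw [Finset.sum_eq_single i]
        · simp
        · intro j _ hj
          rw [if_neg]
          intro e
          exact hj (Prod.mk.inj e).2
        · intro h
          exact absurd (Finset.mem_univ _) h
      · intro x _ hx
        apply Finset.sum_eq_zero
        intro j _
        rw [if_neg]
        intro e
        exact hx (Prod.mk.inj e).1
      · intro h
        exact absurd hp h
    have : ∑ x ∈ B, ∑ j, θ x j ^ 2 * pwG a ((tr (i :: l)).count (x, j)) =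
        ∑ x ∈ B, ∑ j, θ x j ^ 2 * pwG a ((tr l).count (x, j)) +
        ∑ x ∈ B, ∑ j, (if (x, j) = (pos l, i) then
            θ (pos l) i ^ 2 / (a + ((tr l).count (pos l, i) : ℝ)) ^ 2 else 0) := by
      rw [← Finset.sum_add_distrib]
      apply Finset.sum_congr rfl
      intro x _
      rw [← Finset.sum_add_distrib]
      apply Finset.sum_congr rfl
      intro j _
      exact hstep x j
    rw [this, hsum, ← ih]
    rfl

theorem qd_le {a : ℝ} (ha : 0 < a) {θ : ℤ × ℤ → Fin 4 → ℝ} {B : Finset (ℤ × ℤ)}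
    {l : List (Fin 4)} (hl : ∀ v ∈ src l, v ∈ B) :
    qd a θ l ≤ (1 / a ^ 2 + 1 / a) * ∑ x ∈ B, ∑ i, θ x i ^ 2 := by
  rw [qd_eq l hl, Finset.mul_sum]
  apply Finset.sum_le_sum
  intro x _
  rw [Finset.mul_sum]
  apply Finset.sum_le_sum
  intro i _
  rw [mul_comm]
  exact mul_le_mul_of_nonneg_right (pwG_le ha _) (sq_nonneg _)

theorem norm_step {A t : ℝ} (hA : 0 < A) :
    ‖(A : ℂ) + (t : ℂ) * Complex.I‖ ≤ A * Real.exp (t ^ 2 / A ^ 2 / 2) := by
  have h1 : ‖(A : ℂ) + (t : ℂ) * Complex.I‖ ^ 2 = A ^ 2 + t ^ 2 := by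
    rw [Complex.sq_norm, Complex.normSq_add_mul_I]
  have h2 : (A * Real.exp (t ^ 2 / A ^ 2 / 2)) ^ 2 = A ^ 2 * Real.exp (t ^ 2 / A ^ 2) := by
    rw [mul_pow, ← Real.exp_nat_mul]
    congr 2
    push_cast
    ring
  refine le_of_sq_le_sq ?_ (by positivity)
  rw [h1, h2]
  have h3 := Real.add_one_le_exp (t ^ 2 / A ^ 2)
  have h4 : A ^ 2 * (t ^ 2 / A ^ 2 + 1) = A ^ 2 + t ^ 2 := by
    field_simp
    ring
  rw [← h4]
  exact mul_le_mul_of_nonneg_left h3 (by positivity)

theorem PQ_norm {a : ℝ} (ha : 0 < a) (ξ : ℝ) (θ : ℤ × ℤ → Fin 4 → ℝ) : ∀ l : List (Fin 4),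
    ‖PQ a ξ θ l‖ ≤ P (wt a 0) l * Real.exp (ξ ^ 2 * qd a θ l / 2)
  | [] => by simp [PQ, P, qd]
  | i :: l => by
    have ih := PQ_norm ha ξ θ l
    have hc : (0 : ℝ) ≤ ((tr l).count (pos l, i) : ℝ) := Nat.cast_nonneg _
    have hm : (0 : ℝ) ≤ ((src l).count (pos l) : ℝ) := Nat.cast_nonneg _
    have hA : 0 < a + ((tr l).count (pos l, i) : ℝ) := by linarith
    have hD : 0 < 4 * a + ((src l).count (pos l) : ℝ) := by linarith
    have h1 := norm_step (A := a + ((tr l).count (pos l, i) : ℝ)) (t := ξ * θ (pos l) i) hA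
    have e1 : ((a : ℂ) + ((ξ * θ (pos l) i : ℝ) : ℂ) * Complex.I) +
        ((tr l).count (pos l, i) : ℂ) =
        ((a + ((tr l).count (pos l, i) : ℝ) : ℝ) : ℂ) +
          ((ξ * θ (pos l) i : ℝ) : ℂ) * Complex.I := by
      push_cast
      ring
    have e2 : ((4 * a : ℝ) : ℂ) + ((src l).count (pos l) : ℂ) =
        ((4 * a + ((src l).count (pos l) : ℝ) : ℝ) : ℂ) := by
      push_cast
      ring
    have e3 : P (wt a 0) (i :: l) = P (wt a 0) l *
        ((a + ((tr l).count (pos l, i) : ℝ)) / (4 * a + ((src l).count (pos l) : ℝ))) := by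
      rw [P, wt_zero, W_zero]
    have e4 : qd a θ (i :: l) = qd a θ l +
        θ (pos l) i ^ 2 / (a + ((tr l).count (pos l, i) : ℝ)) ^ 2 := rfl
    have e5 : Real.exp (ξ ^ 2 * qd a θ (i :: l) / 2) = Real.exp (ξ ^ 2 * qd a θ l / 2) *
        Real.exp ((ξ * θ (pos l) i) ^ 2 / (a + ((tr l).count (pos l, i) : ℝ)) ^ 2 / 2) := by
      rw [← Real.exp_add, e4]
      congr 1
      ring
    have hP := P_nonneg ha l
    rw [PQ, norm_mul, norm_div, e1, e2, Complex.norm_real, Real.norm_eq_abs, abs_of_pos hD, e3, e5]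
    calc ‖PQ a ξ θ l‖ * (‖((a + ((tr l).count (pos l, i) : ℝ) : ℝ) : ℂ) +
          ((ξ * θ (pos l) i : ℝ) : ℂ) * Complex.I‖ / (4 * a + ((src l).count (pos l) : ℝ)))
        ≤ (P (wt a 0) l * Real.exp (ξ ^ 2 * qd a θ l / 2)) *
          ((a + ((tr l).count (pos l, i) : ℝ)) * Real.exp ((ξ * θ (pos l) i) ^ 2 /
            (a + ((tr l).count (pos l, i) : ℝ)) ^ 2 / 2) /
              (4 * a + ((src l).count (pos l) : ℝ))) := by
          refine mul_le_mul ih ?_ (by positivity) (by positivity)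
          exact div_le_div_of_nonneg_right h1 hD.le
      _ = _ := by ring

/-! ### Reversal of loops -/

private noncomputable def R {α : Type*} [BEq α] [LawfulBEq α] (f : α → ℂ) : List α → ℂ
  | [] => 1
  | b :: L => R f L * (f b + (L.count b : ℂ))

private theorem R_perm {α : Type*} [BEq α] [LawfulBEq α] (f : α → ℂ) {L L' : List α}
    (h : L.Perm L') : R f L = R f L' := by
  induction h with
  | nil => rfl
  | cons x h ih =>
    show R f _ * _ = R f _ * _
    rw [ih, h.count_eq]
  | swap x y l =>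
    show R f l * (f x + (l.count x : ℂ)) * (f y + ((x :: l).count y : ℂ)) =
      R f l * (f y + (l.count y : ℂ)) * (f x + ((y :: l).count x : ℂ))
    by_cases hxy : x = y
    · subst hxy; rfl
    · rw [List.count_cons_of_ne (fun h => hxy h), List.count_cons_of_ne (fun h => hxy h.symm)]
      ring
  | trans _ _ ih1 ih2 => exact ih1.trans ih2

private theorem R_map {α β : Type*} [BEq α] [LawfulBEq α] [BEq β] [LawfulBEq β] (g : α → β)
    (hg : Function.Injective g) (f : β → ℂ) (L : List α) :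
    R f (L.map g) = R (fun a => f (g a)) L := by
  induction L with
  | nil => rfl
  | cons b L ih =>
    show R f (L.map g) * (f (g b) + ((L.map g).count (g b) : ℂ)) = R _ L * _
    rw [ih, List.count_map_of_injective L g hg]

private theorem R_conj {α : Type*} [BEq α] [LawfulBEq α] (f : α → ℂ) (L : List α) :
    R (fun a => (starRingEnd ℂ) (f a)) L = (starRingEnd ℂ) (R f L) := by
  induction L with
  | nil =>
    show (1 : ℂ) = (starRingEnd ℂ) 1
    rw [map_one]
  | cons b L ih =>
    show R (fun a => (starRingEnd ℂ) (f a)) L * ((starRingEnd ℂ) (f b) + (L.count b : ℂ)) =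
      (starRingEnd ℂ) (R f L * (f b + (L.count b : ℂ)))
    rw [ih, map_mul, map_add, map_natCast]

private theorem PQ_eq (a ξ : ℝ) (θ : ℤ × ℤ → Fin 4 → ℝ) (l : List (Fin 4)) :
    PQ a ξ θ l = R (fun e : (ℤ × ℤ) × Fin 4 => (a : ℂ) + ((ξ * θ e.1 e.2 : ℝ) : ℂ) * Complex.I)
      (tr l) / R (fun _ : ℤ × ℤ => ((4 * a : ℝ) : ℂ)) (src l) := by
  induction l with
  | nil =>
    show (1 : ℂ) = 1 / 1
    norm_num
  | cons i l ih =>
    show PQ a ξ θ l * (_ / _) = (R _ (tr l) * _) / (R _ (src l) * _)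
    rw [ih, div_mul_div_comm]
    rfl

theorem opp_opp (i : Fin 4) : opp (opp i) = i := by
  fin_cases i <;> rfl

theorem d_opp (i : Fin 4) : d (opp i) = -d i := by
  fin_cases i <;> rfl

theorem posF_append (x : ℤ × ℤ) (l1 l2 : List (Fin 4)) :
    posF x (l2 ++ l1) = posF (posF x l1) l2 := by
  induction l2 with
  | nil => rfl
  | cons i l ih =>
    show posF x (l ++ l1) + d i = posF (posF x l1) l + d i
    rw [ih]

theorem trF_append (x : ℤ × ℤ) (l1 l2 : List (Fin 4)) :
    trF x (l2 ++ l1) = trF (posF x l1) l2 ++ trF x l1 := by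
  induction l2 with
  | nil => rfl
  | cons i l ih =>
    show (posF x (l ++ l1), i) :: trF x (l ++ l1) =
      (posF (posF x l1) l, i) :: (trF (posF x l1) l ++ trF x l1)
    rw [ih, posF_append]

/-- The reversed path. -/
def rv (l : List (Fin 4)) : List (Fin 4) := (l.map opp).reverse

private theorem rv_cons (i : Fin 4) (l : List (Fin 4)) : rv (i :: l) = rv l ++ [opp i] := by
  simp [rv]

theorem rv_rv (l : List (Fin 4)) : rv (rv l) = l := by
  unfold rv
  rw [List.map_reverse, List.reverse_reverse, List.map_map]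
  have : opp ∘ opp = id := funext opp_opp
  rw [this, List.map_id]

theorem rv_length (l : List (Fin 4)) : (rv l).length = l.length := by
  simp [rv]

theorem back (y : ℤ × ℤ) (i : Fin 4) : y + d i + d (opp i) = y := by
  rw [d_opp, add_assoc, add_neg_cancel, add_zero]

theorem posF_rv (x : ℤ × ℤ) (l : List (Fin 4)) : posF (posF x l) (rv l) = x := by
  induction l with
  | nil => rfl
  | cons i l ih =>
    rw [rv_cons, posF_append]
    show posF (posF x l + d i + d (opp i)) (rv l) = x
    rw [back, ih]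

/-- the reversed edge -/
def sg (e : (ℤ × ℤ) × Fin 4) : (ℤ × ℤ) × Fin 4 := (e.1 + d e.2, opp e.2)

theorem sg_sg (e : (ℤ × ℤ) × Fin 4) : sg (sg e) = e := by
  obtain ⟨y, i⟩ := e
  show (y + d i + d (opp i), opp (opp i)) = (y, i)
  rw [back, opp_opp]

theorem sg_inj : Function.Injective sg := fun a b h => by
  rw [← sg_sg a, h, sg_sg]

theorem trF_rv (x : ℤ × ℤ) (l : List (Fin 4)) :
    (trF (posF x l) (rv l)).Perm ((trF x l).map sg) := by
  induction l with
  | nil => exact List.Perm.refl _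
  | cons i l ih =>
    rw [rv_cons, trF_append]
    show (trF (posF x l + d i + d (opp i)) (rv l) ++ [(posF x l + d i, opp i)]).Perm
      ((posF x l + d i, opp i) :: (trF x l).map sg)
    rw [back]
    exact (List.perm_append_comm).trans (List.Perm.cons _ ih)

private theorem src_tgt (x : ℤ × ℤ) (l : List (Fin 4)) :
    (posF x l :: srcF x l).Perm (x :: (trF x l).map (fun e => e.1 + d e.2)) := by
  induction l with
  | nil => exact List.Perm.refl _
  | cons i l ih =>
    show ((posF x l + d i) :: posF x l :: srcF x l).Perm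
      (x :: (posF x l + d i) :: (trF x l).map (fun e => e.1 + d e.2))
    exact (List.Perm.cons _ ih).trans (List.Perm.swap _ _ _)

theorem src_rv {l : List (Fin 4)} (h : pos l = 0) : (src (rv l)).Perm (src l) := by
  have h1 := trF_rv 0 l
  have h' : posF 0 l = 0 := h
  rw [h'] at h1
  have h2 := h1.map Prod.fst
  rw [List.map_map] at h2
  have h3 := src_tgt 0 l
  rw [h'] at h3
  have h4 := (List.Perm.cons_inv h3).symm
  exact h2.trans h4

/-- The weight of the reversed loop is the complex conjugate. -/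
theorem PQ_rv (a ξ : ℝ) {θ : ℤ × ℤ → Fin 4 → ℝ} (hθ : ∀ x i, θ (x + d i) (opp i) = -θ x i)
    {l : List (Fin 4)} (h : pos l = 0) : PQ a ξ θ (rv l) = (starRingEnd ℂ) (PQ a ξ θ l) := by
  rw [PQ_eq, PQ_eq]
  have ht := trF_rv 0 l
  have h' : posF 0 l = 0 := h
  rw [h'] at ht
  rw [R_perm _ ht, R_map sg sg_inj, R_perm _ (src_rv h), map_div₀]
  congr 1
  · rw [← R_conj]
    congr 1
    funext e
    show (a : ℂ) + ((ξ * θ (e.1 + d e.2) (opp e.2) : ℝ) : ℂ) * Complex.I =
      (starRingEnd ℂ) ((a : ℂ) + ((ξ * θ e.1 e.2 : ℝ) : ℂ) * Complex.I)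
    rw [hθ, map_add, map_mul, Complex.conj_ofReal, Complex.conj_ofReal, Complex.conj_I]
    push_cast
    ring
  · rw [← R_conj]
    congr 1
    funext e
    exact (Complex.conj_ofReal _).symm

end Pool.Agent.DRWC
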