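import Pool.Agent.DRWC.Any

/-!
# Attempts to be trapped in an edge

When the walk visits a new vertex `x` with an unvisited neighbour `y`, an attempt starts: the
attempt goes on as long as the walk jumps back and forth between `x` and `y`. The number of
visited vertices is at most four times the number of started attempts.
-/

namespace Pool.Agent.DRWC

open Pool.Agent.DRW Finset

/-- the vertices of the path `l` -/
def vis (l : List (Fin 4)) : Finset (ℤ × ℤ) := insert (pos l) (src l).toFinset

open Classical in
/-- the attempt which starts at the end of `l`, if any -/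
noncomputable def fresh (l : List (Fin 4)) : Option (Fin 4 × ℕ) :=
  if h : pos l ∉ src l ∧ ∃ t, pos l + d t ∉ vis l then some (h.2.choose, 0) else none

/-- the current attempt: next direction and number of steps -/
noncomputable def st : List (Fin 4) → Option (Fin 4 × ℕ)
  | [] => some (0, 0)
  | i :: l => match st l with
    | some (t, k) => if i = t then some (opp t, k + 1) else fresh (i :: l)
    | none => fresh (i :: l)

/-- the number of attempts which are over -/
noncomputable def fl : List (Fin 4) → ℕ
  | [] => 0
  | i :: l => match st l with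
    | some (t, _) => if i = t then fl l else fl l + 1
    | none => fl l

theorem st_none {i : Fin 4} {l : List (Fin 4)} (h : st l = none) :
    st (i :: l) = fresh (i :: l) ∧ fl (i :: l) = fl l := by
  constructor
  · rw [st, h]
  · rw [fl, h]

theorem st_eq {t : Fin 4} {k : ℕ} {l : List (Fin 4)} (h : st l = some (t, k)) :
    st (t :: l) = some (opp t, k + 1) ∧ fl (t :: l) = fl l := by
  constructor
  · rw [st, h]
    simp
  · rw [fl, h]
    simp

theorem st_ne {t i : Fin 4} {k : ℕ} {l : List (Fin 4)} (h : st l = some (t, k)) (hi : i ≠ t) :
    st (i :: l) = fresh (i :: l) ∧ fl (i :: l) = fl l + 1 := by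
  constructor
  · rw [st, h]
    simp [hi]
  · rw [fl, h]
    simp [hi]

theorem fresh_spec {l : List (Fin 4)} {t : Fin 4} {k : ℕ} (h : fresh l = some (t, k)) :
    k = 0 ∧ pos l ∉ src l ∧ pos l + d t ∉ vis l := by
  unfold fresh at h
  split_ifs at h with h1
  rw [Option.some.injEq, Prod.mk.injEq] at h
  obtain ⟨h2, h3⟩ := h
  refine ⟨h3.symm, h1.1, ?_⟩
  rw [← h2]
  exact h1.2.choose_spec

theorem fresh_none {l : List (Fin 4)} (h : fresh l = none) (h1 : pos l ∉ src l) (t : Fin 4) :
    pos l + d t ∈ vis l := by
  unfold fresh at h
  split_ifs at h with h2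
  by_contra h3
  exact h2 ⟨h1, t, h3⟩

theorem d_ne (i : Fin 4) (x : ℤ × ℤ) : x + d i ≠ x := by
  intro h
  have h1 : d i = 0 := by
    have := congrArg (fun y => y - x) h
    simpa using this
  have h2 := natAbs_d i
  rw [h1] at h2
  simp at h2

theorem mem_vis {l : List (Fin 4)} {x : ℤ × ℤ} : x ∈ vis l ↔ x = pos l ∨ x ∈ src l := by
  rw [vis, mem_insert, List.mem_toFinset]

theorem vis_cons (i : Fin 4) (l : List (Fin 4)) : vis (i :: l) = insert (pos (i :: l)) (vis l) := by
  ext x
  rw [mem_vis, mem_insert, mem_vis]
  have h : src (i :: l) = pos l :: src l := rfl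
  rw [h, List.mem_cons]

theorem tr_le (l : List (Fin 4)) (x : ℤ × ℤ) (i : Fin 4) :
    (tr l).count (x, i) ≤ (src l).count x := by
  have h := sum_count x (tr l)
  have h2 : (tr l).count (x, i) ≤ ∑ i, (tr l).count (x, i) :=
    Finset.single_le_sum (f := fun i => (tr l).count (x, i)) (fun _ _ => Nat.zero_le _)
      (Finset.mem_univ i)
  exact h2.trans (le_of_eq h)

/-- the local times of the two vertices of an attempt -/
theorem st_inv (l : List (Fin 4)) : ∀ (t : Fin 4) (k : ℕ), st l = some (t, k) →
    (src l).count (pos l) = k / 2 ∧ (tr l).count (pos l, t) = k / 2 ∧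
    (src l).count (pos l + d t) = (k + 1) / 2 ∧
    (tr l).count (pos l + d t, opp t) = (k + 1) / 2 ∧ k ≤ l.length := by
  have hfresh : ∀ (l : List (Fin 4)) (t : Fin 4) (k : ℕ), fresh l = some (t, k) →
      (src l).count (pos l) = k / 2 ∧ (tr l).count (pos l, t) = k / 2 ∧
      (src l).count (pos l + d t) = (k + 1) / 2 ∧
      (tr l).count (pos l + d t, opp t) = (k + 1) / 2 ∧ k ≤ l.length := by
    intro l t k h
    obtain ⟨rfl, h1, h2⟩ := fresh_spec h
    rw [mem_vis, not_or] at h2
    have h3 := List.count_eq_zero.mpr h1
    have h4 := List.count_eq_zero.mpr h2.2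
    have h5 := tr_le l (pos l) t
    have h6 := tr_le l (pos l + d t) (opp t)
    refine ⟨?_, ?_, ?_, ?_, Nat.zero_le _⟩ <;> omega
  induction l with
  | nil =>
    intro t k h
    rw [st, Option.some.injEq, Prod.mk.injEq] at h
    obtain ⟨rfl, rfl⟩ := h
    simp [srcF, trF]
  | cons i l ih =>
    intro t k h
    cases hs : st l with
    | none =>
      rw [(st_none hs).1] at h
      exact hfresh _ t k h
    | some o =>
      obtain ⟨t', k'⟩ := o
      by_cases hi : i = t'
      · subst hi
        rw [(st_eq hs).1, Option.some.injEq, Prod.mk.injEq] at h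
        obtain ⟨rfl, rfl⟩ := h
        obtain ⟨h1, h2, h3, h4, h5⟩ := ih i k' hs
        have e1 : src (i :: l) = pos l :: src l := rfl
        have e2 : tr (i :: l) = (pos l, i) :: tr l := rfl
        have e3 : pos (i :: l) = pos l + d i := rfl
        have e4 : pos l + d i + d (opp i) = pos l := back _ _
        rw [e1, e2, e3, e4, opp_opp]
        refine ⟨?_, ?_, ?_, ?_, ?_⟩
        · rw [List.count_cons_of_ne (d_ne i (pos l)).symm]
          exact h3
        · rw [List.count_cons_of_ne, h4]
          intro h
          rw [Prod.mk.injEq] at h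
          exact d_ne i (pos l) h.1.symm
        · rw [List.count_cons_self, h1]
          omega
        · rw [List.count_cons_self, h2]
          omega
        · rw [List.length_cons]
          omega
      · rw [(st_ne hs hi).1] at h
        exact hfresh _ t k h

/-- one if an attempt is going on -/
def oo (o : Option (Fin 4 × ℕ)) : ℕ := match o with
  | some _ => 1
  | none => 0

/-- one if an attempt has just started -/
def zz (o : Option (Fin 4 × ℕ)) : ℕ := match o with
  | some (_, 0) => 1
  | _ => 0

theorem comb (l : List (Fin 4)) : ∃ A B : Finset (ℤ × ℤ), vis l ⊆ A ∪ B ∧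
    (∀ v ∈ B, v + d 0 ∈ A) ∧ (∀ u ∈ vis l, ∀ t, u + d t ∉ vis l → u ∈ A) ∧
    A.card + zz (st l) ≤ 2 * (fl l + oo (st l)) := by
  -- the step in which the current attempt is over
  have key : ∀ (i : Fin 4) (l : List (Fin 4)) (A B : Finset (ℤ × ℤ)), vis l ⊆ A ∪ B →
      (∀ v ∈ B, v + d 0 ∈ A) → (∀ u ∈ vis l, ∀ t, u + d t ∉ vis l → u ∈ A) →
      A.card ≤ 2 * fl (i :: l) → st (i :: l) = fresh (i :: l) →
      ∃ A B : Finset (ℤ × ℤ), vis (i :: l) ⊆ A ∪ B ∧
      (∀ v ∈ B, v + d 0 ∈ A) ∧ (∀ u ∈ vis (i :: l), ∀ t, u + d t ∉ vis (i :: l) → u ∈ A) ∧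
      A.card + zz (st (i :: l)) ≤ 2 * (fl (i :: l) + oo (st (i :: l))) := by
    intro i l A B h1 h2 h3 h4 h5
    have hsv : ∀ x, x ∈ src (i :: l) ↔ x ∈ vis l := by
      intro x
      have h : src (i :: l) = pos l :: src l := rfl
      rw [h, List.mem_cons, mem_vis]
    rw [h5]
    cases hf : fresh (i :: l) with
    | none =>
      by_cases hv : pos (i :: l) ∈ vis l
      · have e : vis (i :: l) = vis l := by
          rw [vis_cons, Finset.insert_eq_of_mem hv]
        refine ⟨A, B, ?_, h2, ?_, ?_⟩
        · rw [e]
          exact h1
        · rw [e]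
          exact h3
        · show A.card + 0 ≤ 2 * (fl (i :: l) + 0)
          omega
      · have hb : ∀ t, pos (i :: l) + d t ∈ vis l := by
          intro t
          have h6 := fresh_none hf (fun h => hv ((hsv _).mp h)) t
          rw [vis_cons, mem_insert] at h6
          rcases h6 with h6 | h6
          · exact absurd h6 (d_ne t _)
          · exact h6
        refine ⟨A, insert (pos (i :: l)) B, ?_, ?_, ?_, ?_⟩
        · rw [vis_cons, Finset.union_insert]
          exact Finset.insert_subset_insert _ h1
        · intro v hv'
          rw [mem_insert] at hv'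
          rcases hv' with rfl | hv'
          · refine h3 _ (hb 0) (opp 0) ?_
            rw [back]
            exact hv
          · exact h2 v hv'
        · intro u hu t ht
          rw [vis_cons, mem_insert] at hu ht
          rw [not_or] at ht
          rcases hu with rfl | hu
          · exact absurd (hb t) ht.2
          · exact h3 u hu t ht.2
        · show A.card + 0 ≤ 2 * (fl (i :: l) + 0)
          omega
    | some o =>
      obtain ⟨t, k⟩ := o
      obtain ⟨rfl, h6, h7⟩ := fresh_spec hf
      refine ⟨insert (pos (i :: l)) A, B, ?_, ?_, ?_, ?_⟩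
      · rw [vis_cons, Finset.insert_union]
        exact Finset.insert_subset_insert _ h1
      · intro v hv
        exact mem_insert_of_mem (h2 v hv)
      · intro u hu t ht
        rw [vis_cons, mem_insert] at hu ht
        rw [not_or] at ht
        rcases hu with rfl | hu
        · exact mem_insert_self _ _
        · exact mem_insert_of_mem (h3 u hu t ht.2)
      · show (insert (pos (i :: l)) A).card + 1 ≤ 2 * (fl (i :: l) + 1)
        have := Finset.card_insert_le (pos (i :: l)) A
        omega
  induction l with
  | nil =>
    refine ⟨{0}, ∅, ?_, ?_, ?_, ?_⟩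
    · intro x hx
      rw [mem_vis] at hx
      rcases hx with rfl | hx
      · exact mem_union_left _ (mem_singleton_self _)
      · simp [srcF, trF] at hx
    · intro v hv
      simp at hv
    · intro u hu t _
      rw [mem_vis] at hu
      rcases hu with rfl | hu
      · exact mem_singleton_self _
      · simp [srcF, trF] at hu
    · simp [st, fl, oo, zz]
  | cons i l ih =>
    obtain ⟨A, B, h1, h2, h3, h4⟩ := ih
    cases hs : st l with
    | none =>
      rw [hs] at h4
      obtain ⟨h5, h6⟩ := st_none (i := i) hs
      refine key i l A B h1 h2 h3 ?_ h5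
      rw [h6]
      have : A.card + 0 ≤ 2 * (fl l + 0) := h4
      omega
    | some o =>
      obtain ⟨t, k⟩ := o
      by_cases hi : i = t
      · subst hi
        obtain ⟨h5, h6⟩ := st_eq hs
        rw [h5, h6]
        have h7 : oo (some (opp i, k + 1)) = 1 := rfl
        have h8 : zz (some (opp i, k + 1)) = 0 := rfl
        rw [h7, h8]
        rcases Nat.eq_zero_or_pos k with hk | hk
        · subst hk
          rw [hs] at h4
          have h9 : A.card + 1 ≤ 2 * (fl l + 1) := h4
          refine ⟨insert (pos (i :: l)) A, B, ?_, ?_, ?_, ?_⟩
          · rw [vis_cons, Finset.insert_union]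
            exact Finset.insert_subset_insert _ h1
          · intro v hv
            exact mem_insert_of_mem (h2 v hv)
          · intro u hu t ht
            rw [vis_cons, mem_insert] at hu ht
            rw [not_or] at ht
            rcases hu with rfl | hu
            · exact mem_insert_self _ _
            · exact mem_insert_of_mem (h3 u hu t ht.2)
          · have := Finset.card_insert_le (pos (i :: l)) A
            omega
        · obtain ⟨-, -, h10, -, -⟩ := st_inv l i k hs
          have h11 : pos (i :: l) ∈ vis l := by
            rw [mem_vis]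
            right
            have : 0 < (src l).count (pos l + d i) := by omega
            exact List.count_pos_iff.mp this
          have e : vis (i :: l) = vis l := by
            rw [vis_cons, Finset.insert_eq_of_mem h11]
          rw [hs] at h4
          have h12 : A.card + zz (some (i, k)) ≤ 2 * (fl l + 1) := h4
          refine ⟨A, B, ?_, h2, ?_, by omega⟩
          · rw [e]
            exact h1
          · rw [e]
            exact h3
      · obtain ⟨h5, h6⟩ := st_ne hs hi
        refine key i l A B h1 h2 h3 ?_ h5
        rw [h6]
        rw [hs] at h4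
        have : A.card + zz (some (t, k)) ≤ 2 * (fl l + 1) := h4
        omega

/-- the number of visited vertices is at most four times the number of started attempts -/
theorem card_vis (l : List (Fin 4)) : (vis l).card ≤ 4 * (fl l + 1) := by
  obtain ⟨A, B, h1, h2, -, h4⟩ := comb l
  have h5 : B.card ≤ A.card := by
    refine Finset.card_le_card_of_injOn (fun v => v + d 0) (fun v hv => h2 v hv) ?_
    intro x _ y _ h
    exact add_right_cancel h
  have h6 := (Finset.card_le_card h1).trans (Finset.card_union_le A B)
  have h7 : oo (st l) ≤ 1 := by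
    cases st l with
    | none => exact Nat.zero_le _
    | some o => exact le_refl _
  omega

end Pool.Agent.DRWC
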