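import Pool.Agent.DRWC.Pong

/-!
# The number of attempts which are over

With horizon `N`, an attempt which has lasted `k` steps lasts until the horizon with probability
`sv a N k`; the weights `vv` give a martingale.
-/

namespace Pool.Agent.DRWC

open Pool.Agent.DRW Finset

/-- the probability that an attempt which has lasted `k` steps goes on -/
noncomputable def rho (a : ℝ) (k : ℕ) : ℝ := (a + ((k / 2 : ℕ) : ℝ)) / (4 * a + ((k / 2 : ℕ) : ℝ))

theorem rho_pos {a : ℝ} (ha : 0 < a) (k : ℕ) : 0 < rho a k := by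
  unfold rho
  positivity

theorem rho_lt {a : ℝ} (ha : 0 < a) (k : ℕ) : rho a k < 1 := by
  unfold rho
  rw [div_lt_one (by positivity)]
  linarith

noncomputable def sv (a : ℝ) (N k : ℕ) : ℝ := ∏ j ∈ Ico k N, rho a j

theorem sv_pos {a : ℝ} (ha : 0 < a) (N k : ℕ) : 0 < sv a N k :=
  Finset.prod_pos fun j _ => rho_pos ha j

theorem sv_succ (a : ℝ) {N k : ℕ} (h : k < N) : sv a N k = rho a k * sv a N (k + 1) := by
  unfold sv
  rw [Finset.prod_eq_prod_Ico_succ_bot h]

theorem sv_le {a : ℝ} (ha : 0 < a) {N k : ℕ} (h : k ≤ N) : sv a (N + 1) k ≤ rho a N := by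
  unfold sv
  rw [Finset.prod_Ico_succ_top h]
  have h1 : ∏ j ∈ Ico k N, rho a j ≤ 1 :=
    Finset.prod_le_one (fun j _ => (rho_pos ha j).le) fun j _ => (rho_lt ha j).le
  calc (∏ j ∈ Ico k N, rho a j) * rho a N ≤ 1 * rho a N :=
        mul_le_mul_of_nonneg_right h1 (rho_pos ha N).le
    _ = rho a N := one_mul _

theorem sv_lt {a : ℝ} (ha : 0 < a) {N k : ℕ} (h : k ≤ N) : sv a (N + 1) k < 1 :=
  (sv_le ha h).trans_lt (rho_lt ha N)

/-- the weight of the current attempt -/
noncomputable def gg (a : ℝ) (N : ℕ) (o : Option (Fin 4 × ℕ)) : ℝ := match o with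
  | some (_, k) => (1 - sv a N k) / (1 - sv a N 0)
  | none => 1

noncomputable def vv (a : ℝ) (N : ℕ) (l : List (Fin 4)) : ℝ :=
  (1 - sv a N 0)⁻¹ ^ fl l * gg a N (st l)

theorem gg_fresh {a : ℝ} (ha : 0 < a) (N : ℕ) (l : List (Fin 4)) :
    gg a (N + 1) (fresh l) = 1 := by
  cases hf : fresh l with
  | none => rfl
  | some o =>
    obtain ⟨t, k⟩ := o
    obtain ⟨rfl, -, -⟩ := fresh_spec hf
    show (1 - sv a (N + 1) 0) / (1 - sv a (N + 1) 0) = 1
    have := sv_lt ha (Nat.zero_le N)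
    exact div_self (by linarith)

theorem vv_step {a : ℝ} (ha : 0 < a) {N : ℕ} {l : List (Fin 4)} (hl : l.length < N + 1) :
    ∑ i, P (wt a 0) (i :: l) * vv a (N + 1) (i :: l) = P (wt a 0) l * vv a (N + 1) l := by
  have hw : ∀ x i, 0 < wt a 0 x i := fun x i => by
    rw [wt_zero]
    exact ha
  have hq : 0 < 1 - sv a (N + 1) 0 := by
    have := sv_lt ha (Nat.zero_le N)
    linarith
  set q : ℝ := sv a (N + 1) 0 with hqd
  cases hs : st l with
  | none =>
    have h1 : ∀ i, vv a (N + 1) (i :: l) = vv a (N + 1) l := by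
      intro i
      obtain ⟨h2, h3⟩ := st_none (i := i) hs
      unfold vv
      rw [h2, h3, gg_fresh ha, hs]
      rfl
    simp only [h1]
    rw [← Finset.sum_mul, sum_P hw]
  | some o =>
    obtain ⟨t, k⟩ := o
    obtain ⟨h1, h2, -, -, h5⟩ := st_inv l t k hs
    have hk : k < N + 1 := by omega
    have hP : P (wt a 0) (t :: l) = P (wt a 0) l * rho a k := by
      rw [P, wt_zero, W_zero, h1, h2]
      rfl
    have hv : ∀ i, vv a (N + 1) (i :: l) = (1 - q)⁻¹ ^ (fl l + 1) -
        if i = t then (1 - q)⁻¹ ^ (fl l + 1) * sv a (N + 1) (k + 1) else 0 := by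
      intro i
      by_cases hi : i = t
      · subst hi
        obtain ⟨h6, h7⟩ := st_eq hs
        unfold vv
        rw [h6, h7, if_pos rfl]
        show (1 - q)⁻¹ ^ fl l * ((1 - sv a (N + 1) (k + 1)) / (1 - q)) = _
        rw [pow_succ, div_eq_mul_inv]
        ring
      · obtain ⟨h6, h7⟩ := st_ne hs hi
        unfold vv
        rw [h6, h7, if_neg hi, gg_fresh ha, sub_zero, mul_one]
    simp only [hv, mul_sub, mul_ite, mul_zero]
    rw [Finset.sum_sub_distrib, Finset.sum_ite_eq' Finset.univ t, if_pos (Finset.mem_univ t),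
      ← Finset.sum_mul, sum_P hw, hP]
    have h8 : vv a (N + 1) l = (1 - q)⁻¹ ^ (fl l + 1) * (1 - sv a (N + 1) k) := by
      unfold vv
      rw [hs]
      show (1 - q)⁻¹ ^ fl l * ((1 - sv a (N + 1) k) / (1 - q)) = _
      rw [pow_succ, div_eq_mul_inv]
      ring
    rw [h8, sv_succ a hk]
    ring

theorem vv_total {a : ℝ} (ha : 0 < a) {N m : ℕ} (hm : m ≤ N + 1) :
    ∑ l ∈ words m, P (wt a 0) l * vv a (N + 1) l = 1 := by
  induction m with
  | zero =>
    have h : words 0 = {[]} := rfl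
    rw [h, Finset.sum_singleton]
    show 1 * ((1 - sv a (N + 1) 0)⁻¹ ^ 0 * ((1 - sv a (N + 1) 0) / (1 - sv a (N + 1) 0))) = 1
    have := sv_lt ha (Nat.zero_le N)
    rw [div_self (by linarith), pow_zero, one_mul, one_mul]
  | succ m ih =>
    rw [sum_words, ← ih (by omega)]
    refine Finset.sum_congr rfl fun l hl => ?_
    rw [mem_words] at hl
    exact vv_step ha (by omega)

theorem vv_ge {a : ℝ} (ha : 0 < a) {N J : ℕ} {l : List (Fin 4)} (hl : l.length ≤ N)
    (hJ : J ≤ fl l) : (1 - sv a (N + 1) 0)⁻¹ ^ J * (1 - rho a N) ≤ vv a (N + 1) l := by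
  have h0 := sv_pos ha (N + 1) 0
  have h1 := sv_lt ha (Nat.zero_le N)
  have h2 : 1 ≤ (1 - sv a (N + 1) 0)⁻¹ := by
    rw [one_le_inv₀ (by linarith)]
    linarith
  have h3 := rho_pos ha N
  have h4 := rho_lt ha N
  unfold vv
  refine mul_le_mul (pow_le_pow_right₀ h2 hJ) ?_ (by linarith) (by positivity)
  cases hs : st l with
  | none =>
    show 1 - rho a N ≤ 1
    linarith
  | some o =>
    obtain ⟨t, k⟩ := o
    obtain ⟨-, -, -, -, h5⟩ := st_inv l t k hs
    show 1 - rho a N ≤ (1 - sv a (N + 1) k) / (1 - sv a (N + 1) 0)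
    rw [le_div_iff₀ (by linarith)]
    have h6 := sv_le ha (N := N) (k := k) (by omega)
    nlinarith

theorem fl_sum {a : ℝ} (ha : 0 < a) (n N J : ℕ) (hn : n ≤ N) :
    ∑ l ∈ (words n).filter (fun l => J ≤ fl l), P (wt a 0) l ≤
      (1 - sv a (N + 1) 0) ^ J / (1 - rho a N) := by
  have h1 := sv_lt ha (Nat.zero_le N)
  have h4 := rho_lt ha N
  have hq : 0 < (1 - sv a (N + 1) 0) ^ J := pow_pos (by linarith) J
  rw [le_div_iff₀ (by linarith)]
  have h2 := vv_total ha (N := N) (m := n) (by omega)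
  have h3 : ∑ l ∈ (words n).filter (fun l => J ≤ fl l),
      P (wt a 0) l * ((1 - sv a (N + 1) 0)⁻¹ ^ J * (1 - rho a N)) ≤ 1 := by
    refine le_trans ?_ h2.le
    rw [Finset.sum_filter]
    refine Finset.sum_le_sum fun l hl => ?_
    rw [mem_words] at hl
    split_ifs with h
    · exact mul_le_mul_of_nonneg_left (vv_ge ha (by omega) h) (P_nonneg ha l)
    · refine mul_nonneg (P_nonneg ha l) ?_
      refine le_trans ?_ (vv_ge ha (N := N) (by omega) (Nat.zero_le (fl l)))
      rw [pow_zero, one_mul]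
      linarith
  rw [← Finset.sum_mul] at h3
  have h5 : (1 - sv a (N + 1) 0)⁻¹ ^ J * (1 - rho a N) =
      (1 - rho a N) / (1 - sv a (N + 1) 0) ^ J := by
    rw [inv_pow, div_eq_mul_inv, mul_comm]
  rw [h5, mul_div_assoc', div_le_one hq] at h3
  exact h3

end Pool.Agent.DRWC
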