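import Pool.Agent.DRWC.Path

/-!
# Stopping at the `k`-th return to the origin or at the exit from `B`
-/

namespace Pool.Agent.DRWC

open Pool.Agent.DRW

/-- Fewer than `k` returns, and still in `B`. -/
def AliveK (k : ℕ) (B : Finset (ℤ × ℤ)) (l : List (Fin 4)) : Prop :=
  (pos l :: src l).count 0 ≤ k ∧ ∀ v ∈ pos l :: src l, v ∈ B

/-- The `k`-th return to the origin happens at the last step, inside `B`. -/
def RetK (k : ℕ) (B : Finset (ℤ × ℤ)) (l : List (Fin 4)) : Prop :=
  pos l = 0 ∧ (src l).count 0 = k ∧ ∀ v ∈ src l, v ∈ B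

/-- Exit from `B` at the last step, with fewer than `k` returns before. -/
def ExitK (k : ℕ) (B : Finset (ℤ × ℤ)) (l : List (Fin 4)) : Prop :=
  pos l ∉ B ∧ (src l).count 0 ≤ k ∧ ∀ v ∈ src l, v ∈ B

open Classical in
noncomputable def aliveK (k : ℕ) (B : Finset (ℤ × ℤ)) (n : ℕ) : Finset (List (Fin 4)) :=
  (words n).filter (AliveK k B)

open Classical in
noncomputable def retK (k : ℕ) (B : Finset (ℤ × ℤ)) (n : ℕ) : Finset (List (Fin 4)) :=
  (words n).filter (RetK k B)

open Classical in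
noncomputable def exitK (k : ℕ) (B : Finset (ℤ × ℤ)) (n : ℕ) : Finset (List (Fin 4)) :=
  (words n).filter (ExitK k B)

open Classical in
theorem cases_iff {M : Type*} [AddCommMonoid M] {B : Finset (ℤ × ℤ)} (h0 : (0 : ℤ × ℤ) ∈ B)
    (k : ℕ) (i : Fin 4) (l : List (Fin 4)) (c : M) :
    (if RetK k B (i :: l) then c else 0) + (if ExitK k B (i :: l) then c else 0) +
      (if AliveK k B (i :: l) then c else 0) = if AliveK k B l then c else 0 := by
  by_cases h : AliveK k B l
  · rw [if_pos h]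
    obtain ⟨h1, h2⟩ := h
    have h1' : (src (i :: l)).count 0 ≤ k := h1
    have h2' : ∀ v ∈ src (i :: l), v ∈ B := h2
    by_cases hB : pos (i :: l) ∈ B
    · rw [if_neg (show ¬ ExitK k B (i :: l) from fun h3 => h3.1 hB), add_zero]
      by_cases hz : pos (i :: l) = 0
      · by_cases hk : (src (i :: l)).count 0 = k
        · rw [if_pos (show RetK k B (i :: l) from ⟨hz, hk, h2'⟩),
            if_neg (show ¬ AliveK k B (i :: l) from ?_), add_zero]
          rintro ⟨h3, -⟩
          rw [hz, List.count_cons_self] at h3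
          omega
        · rw [if_neg (show ¬ RetK k B (i :: l) from fun h3 => hk h3.2.1),
            if_pos (show AliveK k B (i :: l) from ⟨?_, ?_⟩), zero_add]
          · rw [hz, List.count_cons_self]
            omega
          · intro v hv
            rcases List.mem_cons.mp hv with rfl | hv
            · exact hB
            · exact h2' v hv
      · rw [if_neg (show ¬ RetK k B (i :: l) from fun h3 => hz h3.1),
          if_pos (show AliveK k B (i :: l) from ⟨?_, ?_⟩), zero_add]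
        · rw [List.count_cons_of_ne hz]
          exact h1'
        · intro v hv
          rcases List.mem_cons.mp hv with rfl | hv
          · exact hB
          · exact h2' v hv
    · rw [if_neg (show ¬ RetK k B (i :: l) from fun h3 => hB (by rw [h3.1]; exact h0)),
        if_pos (show ExitK k B (i :: l) from ⟨hB, h1', h2'⟩),
        if_neg (show ¬ AliveK k B (i :: l) from fun h3 => hB (h3.2 _ List.mem_cons_self)),
        add_zero, zero_add]
  · rw [if_neg h]
    have h4 : ¬ ((src (i :: l)).count 0 ≤ k ∧ ∀ v ∈ src (i :: l), v ∈ B) := fun h3 => h h3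
    have h5 : (src (i :: l)).count 0 ≤ (pos (i :: l) :: src (i :: l)).count 0 := by
      rw [List.count_cons]
      exact Nat.le_add_right _ _
    rw [if_neg (show ¬ RetK k B (i :: l) from fun h3 => h4 ⟨h3.2.1.le, h3.2.2⟩),
      if_neg (show ¬ ExitK k B (i :: l) from fun h3 => h4 h3.2),
      if_neg (show ¬ AliveK k B (i :: l) from fun h3 => h4 ⟨h5.trans h3.1,
        fun v hv => h3.2 v (List.mem_cons_of_mem _ hv)⟩), add_zero, add_zero]

theorem sum_wordsC (n : ℕ) (f : List (Fin 4) → ℂ) :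
    ∑ l ∈ words (n + 1), f l = ∑ l ∈ words n, ∑ i, f (i :: l) := by
  have h : words (n + 1) = (Finset.univ ×ˢ words n).image
      (fun p : Fin 4 × List (Fin 4) => p.1 :: p.2) := rfl
  rw [h, Finset.sum_image, Finset.sum_product_right]
  intro a _ b _ hab
  obtain ⟨h1, h2⟩ := List.cons.inj hab
  exact Prod.ext h1 h2

/-- The factor of the origin. -/
noncomputable def zc (a ξ : ℝ) (n : ℕ) : ℂ :=
  ∏ j ∈ Finset.range n, (1 + ((ξ / (4 * a + (j : ℝ)) : ℝ) : ℂ) * Complex.I)

theorem zc_succ (a ξ : ℝ) (n : ℕ) :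
    zc a ξ (n + 1) = zc a ξ n * (1 + ((ξ / (4 * a + (n : ℝ)) : ℝ) : ℂ) * Complex.I) := by
  unfold zc
  rw [Finset.prod_range_succ]

theorem one_add_ne (x : ℝ) : (1 + (x : ℂ) * Complex.I) ≠ 0 := by
  intro h
  have := congrArg Complex.re h
  simp at this

theorem zc_ne (a ξ : ℝ) (n : ℕ) : zc a ξ n ≠ 0 :=
  Finset.prod_ne_zero_iff.mpr fun _ _ => one_add_ne _

theorem one_le_norm (x : ℝ) : 1 ≤ ‖(1 + (x : ℂ) * Complex.I)‖ := by
  have h := Complex.abs_re_le_norm (1 + (x : ℂ) * Complex.I)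
  simpa using h

theorem zc_norm (a ξ : ℝ) (n : ℕ) : 1 ≤ ‖zc a ξ n‖ := by
  induction n with
  | zero => simp [zc]
  | succ n ih =>
    rw [zc_succ, norm_mul]
    exact one_le_mul_of_one_le_of_one_le ih (one_le_norm _)

/-- The normalised path weight. -/
noncomputable def MQ (a ξ : ℝ) (θ : ℤ × ℤ → Fin 4 → ℝ) (l : List (Fin 4)) : ℂ :=
  PQ a ξ θ l / zc a ξ ((src l).count 0)

theorem MQ_norm {a : ℝ} (ha : 0 < a) (ξ : ℝ) (θ : ℤ × ℤ → Fin 4 → ℝ) {B : Finset (ℤ × ℤ)}
    {l : List (Fin 4)} (hl : ∀ v ∈ src l, v ∈ B) :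
    ‖MQ a ξ θ l‖ ≤ P (wt a 0) l *
      Real.exp (ξ ^ 2 * ((1 / a ^ 2 + 1 / a) * ∑ x ∈ B, ∑ i, θ x i ^ 2) / 2) := by
  unfold MQ
  rw [norm_div]
  have h1 := PQ_norm ha ξ θ l
  have h2 := zc_norm a ξ ((src l).count 0)
  have h3 := qd_le ha (θ := θ) hl
  have hP := P_nonneg ha l
  refine (div_le_self (norm_nonneg _) h2).trans (h1.trans ?_)
  refine mul_le_mul_of_nonneg_left ?_ hP
  apply Real.exp_le_exp.mpr
  have h4 := mul_le_mul_of_nonneg_left h3 (sq_nonneg ξ)
  linarith

theorem sum_MQ {a : ℝ} (ha : 0 < a) (ξ : ℝ) {θ : ℤ × ℤ → Fin 4 → ℝ} {l : List (Fin 4)}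
    (hdiv : ∑ i, θ (pos l) i = if pos l = 0 then 1 else 0) :
    ∑ i, MQ a ξ θ (i :: l) = MQ a ξ θ l := by
  set m : ℕ := (src l).count (pos l) with hm
  have hm0 : (0 : ℝ) ≤ (m : ℝ) := Nat.cast_nonneg _
  have hD : 4 * a + (m : ℝ) ≠ 0 := by linarith
  have hDc : (((4 * a : ℝ) : ℂ) + (m : ℂ)) ≠ 0 := by
    have : (((4 * a : ℝ) : ℂ) + (m : ℂ)) = ((4 * a + (m : ℝ) : ℝ) : ℂ) := by push_cast; ring
    rw [this]
    exact_mod_cast hD
  have h1 : ∑ i, PQ a ξ θ (i :: l) = PQ a ξ θ l *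
      (1 + ((ξ * (if pos l = 0 then 1 else 0) / (4 * a + (m : ℝ)) : ℝ) : ℂ) * Complex.I) := by
    have h2 : ∀ i, PQ a ξ θ (i :: l) = PQ a ξ θ l *
        ((((a : ℂ) + ((ξ * θ (pos l) i : ℝ) : ℂ) * Complex.I) + ((tr l).count (pos l, i) : ℂ))) /
        (((4 * a : ℝ) : ℂ) + (m : ℂ)) := fun i => by
      rw [mul_div_assoc]
      rfl
    simp only [h2]
    rw [← Finset.sum_div, ← Finset.mul_sum, Finset.sum_add_distrib, Finset.sum_add_distrib,
      ← Finset.sum_mul]
    have h3 : ∑ i, ((tr l).count (pos l, i) : ℂ) = (m : ℂ) := by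
      have := sum_count (pos l) (tr l)
      exact_mod_cast this
    have h4 : ∑ i, ((ξ * θ (pos l) i : ℝ) : ℂ) = ((ξ * (if pos l = 0 then 1 else 0) : ℝ) : ℂ) := by
      rw [← hdiv, Finset.mul_sum]
      push_cast
      rfl
    rw [h3, h4]
    have h5 : ∑ _i : Fin 4, (a : ℂ) = ((4 * a : ℝ) : ℂ) := by
      simp
    rw [h5, mul_div_assoc]
    congr 1
    have hDc' : (4 * (a : ℂ) + (m : ℂ)) ≠ 0 := by
      simpa using hDc
    push_cast
    field_simp
    ring
  unfold MQ
  have hsrc : ∀ i, src (i :: l) = pos l :: src l := fun i => rfl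
  simp only [hsrc]
  rw [← Finset.sum_div, h1]
  by_cases hp : pos l = 0
  · rw [if_pos hp, mul_one]
    have hm' : m = (src l).count 0 := by rw [hm, hp]
    have h6 : (pos l :: src l).count 0 = m + 1 := by
      rw [hp, List.count_cons_self, ← hm']
    rw [h6, ← hm', zc_succ]
    have h7 := one_add_ne (ξ / (4 * a + (m : ℝ)))
    have h8 := zc_ne a ξ m
    rw [mul_div_mul_right _ _ h7]
  · rw [if_neg hp, List.count_cons_of_ne hp]
    simp

theorem mass_step {a : ℝ} (ha : 0 < a) (ξ : ℝ) {θ : ℤ × ℤ → Fin 4 → ℝ} {B : Finset (ℤ × ℤ)}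
    (h0 : (0 : ℤ × ℤ) ∈ B) (hdiv : ∀ x ∈ B, ∑ i, θ x i = if x = 0 then 1 else 0) (k n : ℕ) :
    (∑ l ∈ retK k B (n + 1), MQ a ξ θ l) + (∑ l ∈ exitK k B (n + 1), MQ a ξ θ l) +
      ∑ l ∈ aliveK k B (n + 1), MQ a ξ θ l = ∑ l ∈ aliveK k B n, MQ a ξ θ l := by
  classical
  unfold retK exitK aliveK
  rw [Finset.sum_filter, Finset.sum_filter, Finset.sum_filter, Finset.sum_filter, sum_wordsC,
    sum_wordsC, sum_wordsC, ← Finset.sum_add_distrib, ← Finset.sum_add_distrib]
  refine Finset.sum_congr rfl fun l _ => ?_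
  rw [← Finset.sum_add_distrib, ← Finset.sum_add_distrib]
  have h1 : ∀ i, (if RetK k B (i :: l) then MQ a ξ θ (i :: l) else 0) +
      (if ExitK k B (i :: l) then MQ a ξ θ (i :: l) else 0) +
      (if AliveK k B (i :: l) then MQ a ξ θ (i :: l) else 0) =
        if AliveK k B l then MQ a ξ θ (i :: l) else 0 :=
    fun i => cases_iff h0 k i l _
  simp only [h1]
  by_cases h : AliveK k B l
  · simp only [if_pos h]
    exact sum_MQ ha ξ (hdiv _ (h.2 _ List.mem_cons_self))
  · simp only [if_neg h, Finset.sum_const_zero]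

theorem mass_total {a : ℝ} (ha : 0 < a) (ξ : ℝ) {θ : ℤ × ℤ → Fin 4 → ℝ} {B : Finset (ℤ × ℤ)}
    (h0 : (0 : ℤ × ℤ) ∈ B) (hdiv : ∀ x ∈ B, ∑ i, θ x i = if x = 0 then 1 else 0) {k : ℕ}
    (hk : 1 ≤ k) (n : ℕ) :
    (∑ m ∈ Finset.range (n + 1), ∑ l ∈ retK k B m, MQ a ξ θ l) +
      (∑ m ∈ Finset.range (n + 1), ∑ l ∈ exitK k B m, MQ a ξ θ l) +
      ∑ l ∈ aliveK k B n, MQ a ξ θ l = 1 := by
  classical
  induction n with
  | zero =>
    have h1 : retK k B 0 = ∅ := by
      unfold retK words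
      rw [Finset.filter_eq_empty_iff]
      intro l hl
      rw [Finset.mem_singleton] at hl
      rw [hl]
      intro h
      have h2 : (src []).count (0 : ℤ × ℤ) = 0 := rfl
      have := h.2.1
      omega
    have h2 : exitK k B 0 = ∅ := by
      unfold exitK words
      rw [Finset.filter_eq_empty_iff]
      intro l hl
      rw [Finset.mem_singleton] at hl
      rw [hl]
      intro h
      exact h.1 h0
    have h3 : aliveK k B 0 = {[]} := by
      unfold aliveK words
      rw [Finset.filter_eq_self]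
      intro l hl
      rw [Finset.mem_singleton] at hl
      rw [hl]
      refine ⟨?_, ?_⟩
      · have : (pos [] :: src []).count (0 : ℤ × ℤ) = 1 := by decide
        omega
      · intro v hv
        have hv' : v ∈ [(0 : ℤ × ℤ)] := hv
        rw [List.mem_singleton] at hv'
        rw [hv']
        exact h0
    rw [zero_add, Finset.sum_range_one, Finset.sum_range_one, h1, h2, h3, Finset.sum_empty,
      Finset.sum_singleton, zero_add, zero_add]
    unfold MQ
    have h2 : (src []).count (0 : ℤ × ℤ) = 0 := rfl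
    rw [h2]
    simp [PQ, zc]
  | succ n ih =>
    rw [Finset.sum_range_succ _ (n + 1), Finset.sum_range_succ _ (n + 1)]
    have h1 := mass_step ha ξ h0 hdiv k n
    linear_combination ih + h1

theorem mem_words {n : ℕ} {l : List (Fin 4)} : l ∈ words n ↔ l.length = n := by
  induction n generalizing l with
  | zero =>
    simp [words]
  | succ n ih =>
    cases l with
    | nil => simp [words]
    | cons i l => simp [words, ih]

theorem rv_ret {k : ℕ} {B : Finset (ℤ × ℤ)} {l : List (Fin 4)} (h : RetK k B l) :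
    RetK k B (rv l) := by
  obtain ⟨h1, h2, h3⟩ := h
  have hp := src_rv h1
  refine ⟨?_, ?_, ?_⟩
  · have h4 := posF_rv 0 l
    have h' : posF 0 l = 0 := h1
    rw [h'] at h4
    exact h4
  · rw [hp.count_eq]
    exact h2
  · intro v hv
    exact h3 v (hp.mem_iff.1 hv)

/-- The total weight of the loops is real. -/
theorem ret_real (a ξ : ℝ) {θ : ℤ × ℤ → Fin 4 → ℝ} (hθ : ∀ x i, θ (x + d i) (opp i) = -θ x i)
    (k : ℕ) (B : Finset (ℤ × ℤ)) (m : ℕ) :
    (starRingEnd ℂ) (∑ l ∈ retK k B m, PQ a ξ θ l) = ∑ l ∈ retK k B m, PQ a ξ θ l := by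
  classical
  rw [map_sum]
  have hmem : ∀ l, l ∈ retK k B m → rv l ∈ retK k B m := by
    intro l hl
    rw [retK, Finset.mem_filter, mem_words] at hl ⊢
    exact ⟨by rw [rv_length]; exact hl.1, rv_ret hl.2⟩
  refine Finset.sum_nbij' rv rv hmem hmem (fun l _ => rv_rv l) (fun l _ => rv_rv l) ?_
  intro l hl
  rw [retK, Finset.mem_filter] at hl
  exact (PQ_rv a ξ hθ hl.2.1).symm

theorem ret_MQ (a ξ : ℝ) (θ : ℤ × ℤ → Fin 4 → ℝ) (k : ℕ) (B : Finset (ℤ × ℤ)) (m : ℕ) :
    zc a ξ k * ∑ l ∈ retK k B m, MQ a ξ θ l = ∑ l ∈ retK k B m, PQ a ξ θ l := by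
  classical
  rw [Finset.mul_sum]
  refine Finset.sum_congr rfl fun l hl => ?_
  rw [retK, Finset.mem_filter] at hl
  unfold MQ
  rw [hl.2.2.1]
  have := zc_ne a ξ k
  field_simp

end Pool.Agent.DRWC
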